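import Pool.Agent.Lib.DN.G.Spec

/-!
# THEOREM DN, part G, module Cop: coprimality in `O`
-/

set_option autoImplicit false

open scoped Pointwise

noncomputable section

namespace Pool.Agent.DN.G

open Pool.Agent.MuZ Pool.Agent.FW Pool.Agent.DN
open Pool.Agent.DI (io ofC io_inj exists_io io_ofC ofC_io VP MP UP TP ex)

variable {k t : ℕ}

private theorem Cop_mul_left (v u : OO k t) (M : ℕ) : Cop (v * u) M ↔ Cop v M ∧ Cop u M := by
  unfold Cop
  rw [Nm_mul, IsCoprime.mul_left_iff]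

private theorem Cop_mul_right (v : OO k t) (M M' : ℕ) : Cop v (M * M') ↔ Cop v M ∧ Cop v M' := by
  unfold Cop
  rw [Nat.cast_mul, IsCoprime.mul_right_iff]

private theorem Cop_pow_right (v : OO k t) (M n : ℕ) (h : Cop v M) : Cop v (M ^ n) := by
  unfold Cop at *
  rw [Nat.cast_pow]
  exact h.pow_right

private theorem Cop_two_not_one : ¬ (2 : OO k t) ∣ 1 := by
  intro h
  have h1 : ((2 : ℕ) : OO k t) ∣ 1 := by exact_mod_cast h
  have h2 := ((nat_dvd_iff 2 _).1 h1).1
  rw [re_one] at h2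
  omega

/-- **Cop.** Coprimality, inverses, odd lifts. -/
theorem tCop : S_Cop := by
  intro h4 k t _
  obtain ⟨-, -, hd, hn, -⟩ := h4 k t
  refine ⟨Cop_mul_left, Cop_mul_right, hn, hd, ?_, ?_, ?_, ?_, ?_⟩
  · intro v M hM hv
    obtain ⟨u, hu, hd⟩ := cop_inv hv
    rcases eq_or_ne u 0 with rfl | h0
    · refine ⟨1, one_ne_zero, cop_one M, ?_⟩
      rw [mul_zero, zero_sub, dvd_neg] at hd
      exact (isUnit_of_dvd_one hd).dvd
    · exact ⟨u, h0, hu, hd⟩
  · intro v u M hv hd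
    obtain ⟨u', -, hu'⟩ := cop_inv hv
    have e : u = u' * (v * u) - (v * u' - 1) * u := by ring
    rw [e]
    exact dvd_sub (Dvd.dvd.mul_left hd _) (Dvd.dvd.mul_right hu' _)
  · intro v f hf hv
    obtain ⟨m, hm⟩ := hf
    have e : v + (f : OO k t) * (1 - v) - 1 = 2 * (m * (1 - v)) := by
      rw [hm]
      push_cast
      ring
    have h1 : (2 : OO k t) ∣ v + (f : OO k t) * (1 - v) - 1 := ⟨_, e⟩
    have h2 : ¬ (2 : OO k t) ∣ v + (f : OO k t) * (1 - v) := by
      intro h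
      have h3 := dvd_sub h h1
      rw [sub_sub_cancel] at h3
      exact Cop_two_not_one h3
    refine ⟨v + f * (1 - v), ?_, ?_, h1, ?_⟩
    · intro h0
      rw [h0] at h2
      exact h2 (dvd_zero _)
    · rw [add_sub_cancel_left]
      exact Dvd.intro _ rfl
    · rw [Cop_mul_right]
      refine ⟨(hd _).2 h2, ?_⟩
      refine cop_congr (a := v) ?_ hv
      have e2 : v - (v + (f : OO k t) * (1 - v)) = f * (v - 1) := by ring
      rw [e2]
      exact Dvd.intro _ rfl
  · intro f N v hN hv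
    rw [Cop_mul_right] at hv ⊢
    refine ⟨cop_dvd hv.2 ?_, hv.1⟩
    exact dvd_pow_self 2 (by omega)
  · intro f N v hv
    rw [Cop_mul_right] at hv ⊢
    exact ⟨hv.2, Cop_pow_right v 2 N hv.1⟩

end Pool.Agent.DN.G
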