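import Pool.Agent.Lib.DN.G.Spec

/-!
# Theorem DN, part G, module GMm: the groups `HP`, `HPN` and the fields `Mf`, `Mn` (`S_GM`)
-/

set_option autoImplicit false

open scoped Pointwise

noncomputable section

namespace Pool.Agent.DN.G

open Pool.Agent.MuZ Pool.Agent.FW Pool.Agent.DN
open Pool.Agent.DI (io ofC io_inj exists_io io_ofC ofC_io VP MP UP TP ex)

/-- `ζ ^ n = ζ` or `ζ⁻¹` for a primitive root of unity `ζ` of order `2 ^ N`. -/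
private theorem GMm_pow {N n : ℕ} {ζ : Om} (hζ : IsPrimitiveRoot ζ (2 ^ N)) :
    (ζ ^ n = ζ ∨ ζ ^ n = ζ⁻¹) ↔ ((2 : ℤ) ^ N ∣ (n : ℤ) - 1 ∨ (2 : ℤ) ^ N ∣ (n : ℤ) + 1) := by
  have h0 : ζ ≠ 0 := hζ.ne_zero (by positivity)
  have hc : (((2 ^ N : ℕ)) : ℤ) = (2 : ℤ) ^ N := by push_cast; rfl
  have h1 : ζ ^ n = ζ ↔ (2 : ℤ) ^ N ∣ (n : ℤ) - 1 := by
    rw [← hc, ← hζ.zpow_eq_one_iff_dvd, zpow_sub₀ h0, zpow_natCast, zpow_one, div_eq_one_iff_eq h0]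
  have h2 : ζ ^ n = ζ⁻¹ ↔ (2 : ℤ) ^ N ∣ (n : ℤ) + 1 := by
    rw [← hc, ← hζ.zpow_eq_one_iff_dvd, zpow_add₀ h0, zpow_natCast, zpow_one,
      mul_eq_one_iff_eq_inv₀ h0]
  rw [h1, h2]

theorem tGMm : S_GMm := by
  intro hO6 hE1 hE6 hE8 hG k t _ f hf h15
  obtain ⟨⟨g1, g2, g3, g4⟩, hG2⟩ := hG k t f hf h15
  have hf0 : 0 < f := hf.pos
  have hfN : ∀ N : ℕ, 0 < f * 2 ^ N := fun N => by positivity
  have hf2 : 0 < 2 * f := by omega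
  have d2 : 15 ∣ 2 * f := h15.mul_left 2
  have dN : ∀ N : ℕ, 15 ∣ f * 2 ^ N := fun N => h15.mul_right _
  have hdv : ∀ N : ℕ, 1 ≤ N → 2 * f ∣ f * 2 ^ N := by
    intro N hN
    obtain ⟨M, rfl⟩ : ∃ M, N = M + 1 := ⟨N - 1, by omega⟩
    exact ⟨2 ^ M, by ring⟩
  have hcop : ∀ (τ : Gal(Om/ℚ)) (N : ℕ) (a : Ideal (OO k t)), Psi τ N a → PrI a N :=
    fun τ N a h => (((hO6 k t).2.1 15 N a).1 h.cop).2
  obtain ⟨m1, m2, m3⟩ := hE8 k t (2 * f) (HP f) hf2 d2 g1 g2 g3 g4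
  have nn : ∀ N : ℕ, 1 ≤ N →
      FiniteDimensional ℚ (FixI (f * 2 ^ N) (HPN (n := k) (t := t) f N)) ∧
      KQ k t ≤ FixI (f * 2 ^ N) (HPN (n := k) (t := t) f N) ∧
      ∀ τ ∈ GK k t, ∀ a : Ideal (OO k t), Psi τ (f * 2 ^ N) a →
        ((∀ x ∈ FixI (f * 2 ^ N) (HPN (n := k) (t := t) f N), τ x = x) ↔ HPN f N a) :=
    fun N hN => hE8 k t (f * 2 ^ N) (HPN f N) (hfN N) (dN N) (hG2 N hN).1 (hG2 N hN).2.1
      (hG2 N hN).2.2.1 (hG2 N hN).2.2.2.1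
  have hPsi : ∀ (τ : Gal(Om/ℚ)) (N M : ℕ) (a : Ideal (OO k t)), 0 < N → 15 ∣ N → Psi τ N a →
      M ∣ N → 15 ∣ M → Psi τ M a :=
    fun τ N M a hN h5 h1 h2 h3 => (hE1 k t N hN h5).2.2.2.2 τ M a h1 h2 h3
  have hGK : ∀ (τ : Gal(Om/ℚ)) (F : IntermediateField ℚ Om), KQ k t ≤ F → (∀ x ∈ F, τ x = x) →
      τ ∈ GK k t := by
    intro τ F hF h
    exact (IntermediateField.mem_fixingSubgroup_iff (KQ k t) τ).mpr fun x hx => h x (hF hx)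
  have hle : ∀ N : ℕ, 1 ≤ N → Mf k t f ≤ Mn k t f N := by
    intro N hN x hx τ hτ a h1 h2
    have h3 := (hG2 N hN).2.1 a h2
    exact hx τ hτ a (hPsi τ _ (2 * f) a (hfN N) (dN N) h1 (hdv N hN) d2)
      (((hG2 N hN).2.2.2.2 a h3.1 h3.2).mp h2).1
  have hle' : ∀ N : ℕ, 1 ≤ N → Mn k t f N ≤ Mn k t f (N + 1) := by
    intro N hN x hx τ hτ a h1 h2
    have hN1 : 1 ≤ N + 1 := by omega
    have h3 := (hG2 (N + 1) hN1).2.1 a h2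
    have hd : f * 2 ^ N ∣ f * 2 ^ (N + 1) := Nat.mul_dvd_mul_left f (pow_dvd_pow 2 (Nat.le_succ N))
    have h4 := hPsi τ _ (f * 2 ^ N) a (hfN (N + 1)) (dN (N + 1)) h1 hd (dN N)
    have h5 := ((hG2 (N + 1) hN1).2.2.2.2 a h3.1 h3.2).mp h2
    have h6 : (2 : ℤ) ^ N ∣ (2 : ℤ) ^ (N + 1) := pow_dvd_pow 2 (Nat.le_succ N)
    refine hx τ hτ a h4 (((hG2 N hN).2.2.2.2 a h4.ne (hcop τ _ a h4)).mpr ⟨h5.1, ?_⟩)
    rcases h5.2 with h | h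
    · exact Or.inl (h6.trans h)
    · exact Or.inr (h6.trans h)
  refine ⟨⟨g1, g2, g3, g4⟩, hG2, m1, m2, fun N hN => ⟨(nn N hN).1, hle N hN, hle' N hN⟩, m3,
    fun N hN => (nn N hN).2.2, ?_⟩
  intro N ζ hN hζ τ
  have hζN : ζ ^ (f * 2 ^ N) = 1 := by
    rw [mul_comm, pow_mul, hζ.pow_eq_one, one_pow]
  constructor
  · intro h
    have hτ : τ ∈ GK k t := hGK τ _ (nn N hN).2.1 h
    obtain ⟨a, ha⟩ := (hE1 k t (f * 2 ^ N) (hfN N) (dN N)).1 τ hτ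
    have h1 : HPN f N a := ((nn N hN).2.2 τ hτ a ha).mp h
    have h2 := (((hG2 N hN).2.2.2.2 a ha.ne (hcop τ _ a ha)).mp h1).2
    have h4 : τ ζ = ζ ^ NI a := hE6 k t τ (f * 2 ^ N) a hτ (hfN N) (dN N) ha ζ hζN
    refine ⟨fun x hx => h x (hle N hN hx), ?_⟩
    rw [h4]
    exact (GMm_pow hζ).mpr h2
  · rintro ⟨h, h'⟩ x hx
    have hτ : τ ∈ GK k t := hGK τ _ m2 h
    obtain ⟨a, ha⟩ := (hE1 k t (f * 2 ^ N) (hfN N) (dN N)).1 τ hτ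
    have h1 : HP f a :=
      (m3 τ hτ a (hPsi τ _ (2 * f) a (hfN N) (dN N) ha (hdv N hN) d2)).mp h
    have h4 : τ ζ = ζ ^ NI a := hE6 k t τ (f * 2 ^ N) a hτ (hfN N) (dN N) ha ζ hζN
    rw [h4] at h'
    have h2 := (GMm_pow hζ).mp h'
    have h5 : HPN f N a := ((hG2 N hN).2.2.2.2 a ha.ne (hcop τ _ a ha)).mpr ⟨h1, h2⟩
    exact ((nn N hN).2.2 τ hτ a ha).mpr h5 x hx

end Pool.Agent.DN.G
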