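import Pool.Agent.Lib.DN.G.Spec

/-!
# Theorem DN, part G, module HPg: the groups `HP`, `HPN`
-/

set_option autoImplicit false

open scoped Pointwise

noncomputable section

namespace Pool.Agent.DN.G

open Pool.Agent.MuZ Pool.Agent.FW Pool.Agent.DN

theorem tHPg : S_HPg := by
  intro hO2 hO6 hO7 hO9 hCop hHNf hRUp k t _ f hodd hf15
  have hf0 : 0 < f := hodd.pos
  obtain ⟨-, -, -, o2nm, o2mul, o2bot, -, -⟩ := hO2 k t
  obtain ⟨o6mul, o6N, o6co, o6sp, -⟩ := hO6 k t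
  have h2f : 0 < 2 * f := by omega
  obtain ⟨rfl7, sym7, tra7, mul7, -, inv7, -⟩ := hO7 k t (2 * f) h2f
  obtain ⟨-, -, -, -, -, -, -, cop8, cop9⟩ := hCop k t
  have e1 : sp (1 : OO k t) = ⊤ := Ideal.span_singleton_one
  have spm : ∀ v u : OO k t, sp v * sp u = sp (v * u) := fun v u =>
    Ideal.span_singleton_mul_span_singleton v u
  have sp0 : ∀ v : OO k t, v ≠ 0 → sp v ≠ ⊥ := fun v hv h => hv (Ideal.span_singleton_eq_bot.1 h)
  obtain ⟨⟨hf1, -, -, -⟩, hfmul, -, hfcon, -, -, -, hfc, -, -⟩ := hHNf k t f 1 le_rfl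
  refine ⟨⟨⟨1, one_ne_zero, hf1, ?_⟩, ?_, ?_, ?_⟩, ?_⟩
  · rw [e1]
    exact rfl7 _
  · rintro a ⟨v, hv0, hv, hr⟩
    obtain ⟨i1, i2⟩ := inv7 _ _ hr
    exact ⟨i1.2 (sp0 v hv0), i2.2 ((o6sp _ v h2f).2 (hfc v hv))⟩
  · rintro a a' ⟨v, hv0, hv, hr⟩ haa
    exact ⟨v, hv0, hv, tra7 _ _ _ (sym7 _ _ haa) hr⟩
  · rintro a a' ⟨v, hv0, hv, hr⟩ ⟨v', hv0', hv', hr'⟩
    refine ⟨v * v', mul_ne_zero hv0 hv0', hfmul _ _ hv hv', ?_⟩
    have h := mul7 _ _ _ _ hr hr'
    rw [spm] at h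
    exact h
  · intro N hN
    have hM0 : 0 < f * 2 ^ N := by positivity
    obtain ⟨⟨-, -, hN1, -⟩, -, hNmul, -, -, -, -, -, hNc, -⟩ := hHNf k t f N hN
    obtain ⟨rflM, symM, traM, mulM, -, invM, lowM, -⟩ := hO7 k t (f * 2 ^ N) hM0
    have e2 : f * 2 ^ N = 2 * f * 2 ^ (N - 1) := by
      obtain ⟨n, rfl⟩ := Nat.exists_eq_add_of_le' hN
      rw [Nat.add_sub_cancel, pow_succ]
      ring
    refine ⟨⟨1, one_ne_zero, hN1, ?_⟩, ?_, ?_, ?_, ?_⟩
    · rw [e1]
      exact rflM _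
    · rintro a ⟨v, hv0, hv, hr⟩
      obtain ⟨i1, i2⟩ := invM _ _ hr
      exact ⟨i1.2 (sp0 v hv0), i2.2 ((o6sp _ v hM0).2 (hNc v hv))⟩
    · rintro a a' ⟨v, hv0, hv, hr⟩ haa
      exact ⟨v, hv0, hv, traM _ _ _ (symM _ _ haa) hr⟩
    · rintro a a' ⟨v, hv0, hv, hr⟩ ⟨v', hv0', hv', hr'⟩
      refine ⟨v * v', mul_ne_zero hv0 hv0', hNmul _ _ hv hv', ?_⟩
      have h := mulM _ _ _ _ hr hr'
      rw [spm] at h
      exact h
    · intro a ha0 haM
      have hnm : ∀ v : OO k t, Cop v (f * 2 ^ N) → Ray (f * 2 ^ N) a (sp v) →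
          (2 : ℤ) ^ N ∣ (NI a : ℤ) - Nm v := by
        intro v hv hr
        have h := hO9 k t (f * 2 ^ N) hM0 a (sp v) haM ((o6sp _ v hM0).2 hv) hr
        rw [o2nm] at h
        refine dvd_trans ⟨(f : ℤ), ?_⟩ h
        push_cast
        ring
      constructor
      · rintro ⟨v, hv0, hv, hr⟩
        refine ⟨⟨v, hv0, hv.1, lowM (2 * f) _ _ (Dvd.intro _ e2.symm) hr⟩, ?_⟩
        have h := hnm v (hNc v hv) hr
        rcases hv.2 with h' | h'
        · left
          have := dvd_add h h'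
          rwa [sub_add_sub_cancel] at this
        · right
          have := dvd_add h h'
          rwa [show (NI a : ℤ) - Nm v + (Nm v + 1) = NI a + 1 by ring] at this
      · rintro ⟨⟨v, hv0, hv, hr⟩, hn⟩
        have hvM : Cop v (f * 2 ^ N) := cop9 f N v (hfc v hv)
        have haM' := haM
        have hspM := (o6sp _ v hM0).2 hvM
        rw [e2] at haM' hspM
        obtain ⟨β, hβ0, hβ1, hβc, hβr⟩ := hRUp k t (2 * f) (2 ^ (N - 1)) (sp v) a h2f
          (by positivity) (sp0 v hv0) ha0 hspM haM' hr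
        rw [spm] at hβr
        rw [← e2] at hβc hβr
        have hcM : Cop (β * v) (f * 2 ^ N) := cop_mul hβc hvM
        have hHf : Hf f (β * v) := by
          refine hfcon v _ ?_ hv
          have e : β * v - v = (β - 1) * v := by ring
          rw [e]
          exact hβ1.mul_right _
        refine ⟨β * v, mul_ne_zero hβ0 hv0, ⟨hHf, ?_⟩, hβr⟩
        have h := hnm _ hcM hβr
        rcases hn with h' | h'
        · left
          have := dvd_sub h' h
          rwa [show (NI a : ℤ) - 1 - (NI a - Nm (β * v)) = Nm (β * v) - 1 by ring] at this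
        · right
          have := dvd_sub h' h
          rwa [show (NI a : ℤ) + 1 - (NI a - Nm (β * v)) = Nm (β * v) + 1 by ring] at this

end Pool.Agent.DN.G
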