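import Pool.Agent.Lib.DN.G.Spec

/-!
# THEOREM DN, part G, module Rp: systems of representatives
-/

set_option autoImplicit false

open scoped Pointwise

noncomputable section

namespace Pool.Agent.DN.G

open Pool.Agent.MuZ Pool.Agent.FW Pool.Agent.DN
open Pool.Agent.DI (io ofC io_inj exists_io io_ofC ofC_io VP MP UP TP ex)

variable {k t : ℕ}

/-- Equal up to the sign modulo `m`. -/
private def RpR (m x y : OO k t) : Prop := m ∣ x - y ∨ m ∣ x + y

private theorem RpR.symm {m x y : OO k t} (h : RpR m x y) : RpR m y x := by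
  rcases h with h | h
  · left
    have h1 := (dvd_neg (a := m)).mpr h
    rwa [neg_sub] at h1
  · right
    rwa [add_comm] at h

private theorem RpR.trans {m x y z : OO k t} (h : RpR m x y) (h' : RpR m y z) : RpR m x z := by
  rcases h with h | h <;> rcases h' with h' | h'
  · left
    have h1 := dvd_add h h'
    rwa [sub_add_sub_cancel] at h1
  · right
    have h1 := dvd_add h h'
    have h2 : x - y + (y + z) = x + z := by ring
    rwa [h2] at h1
  · right
    have h1 := dvd_sub h h'
    have h2 : x + y - (y - z) = x + z := by ring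
    rwa [h2] at h1
  · left
    have h1 := dvd_sub h h'
    have h2 : x + y - (y + z) = x - z := by ring
    rwa [h2] at h1

private theorem RpR.val {m x y : OO k t} {H : OO k t → Prop} {A : Type} (F : OO k t → A) (h : RpR m x y)
    (hx : H x) (hy : H y) (h1 : ∀ v u : OO k t, H v → H u → m ∣ v - u → F v = F u)
    (h2 : ∀ v : OO k t, F (-v) = F v) (h3 : ∀ v : OO k t, H v → H (-v)) : F x = F y := by
  rcases h with h | h
  · exact h1 x y hx hy h
  · rw [← h2 y]
    exact h1 x (-y) hx (h3 y hy) (by rwa [sub_neg_eq_add])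

private theorem Rp_one (M : ℕ) (H : OO k t → Prop) (T T' : Finset (OO k t)) (A : Type) [CommMonoid A]
    (F : OO k t → A) (hT : IsRp M H T) (hT' : IsRp M H T')
    (h1 : ∀ v u : OO k t, H v → H u → (M : OO k t) ∣ v - u → F v = F u)
    (h2 : ∀ v : OO k t, F (-v) = F v) (h3 : ∀ v : OO k t, H v → H (-v)) :
    ∏ h ∈ T, F h = ∏ h ∈ T', F h := by
  have hex : ∀ h ∈ T, ∃ h' ∈ T', RpR (M : OO k t) h h' := fun h hh => hT'.ex h (hT.mem h hh)
  choose e he hr using hex
  refine Finset.prod_bij e he ?_ ?_ ?_
  · intro x hx y hy hxy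
    have r1 := hr x hx
    rw [hxy] at r1
    exact hT.uni x hx y hy (r1.trans (hr y hy).symm)
  · intro b hb
    obtain ⟨x, hx, hbx⟩ := hT.ex b (hT'.mem b hb)
    have hbx' : RpR (M : OO k t) b x := hbx
    refine ⟨x, hx, ?_⟩
    exact (hT'.uni b hb (e x hx) (he x hx) (hbx'.trans (hr x hx))).symm
  · intro x hx
    exact (hr x hx).val F (hT.mem x hx) (hT'.mem _ (he x hx)) h1 h2 h3

/-- **Rp.** Products over two systems of representatives; multiplication by an invertible
element. -/
theorem tRp : S_Rp := by
  classical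
  intro k t _
  refine ⟨Rp_one, ?_⟩
  intro m H T A _ G a b hT hab hHa hHb h1 h2 h0
  have key : ∀ x y : OO k t, RpR (m : OO k t) (a * x) (a * y) → RpR (m : OO k t) x y := by
    intro x y h
    rcases h with h | h
    · left
      have h3 : x - y = b * (a * x - a * y) - (a * b - 1) * (x - y) := by ring
      rw [h3]
      exact dvd_sub (Dvd.dvd.mul_left h _) (Dvd.dvd.mul_right hab _)
    · right
      have h3 : x + y = b * (a * x + a * y) - (a * b - 1) * (x + y) := by ring
      rw [h3]
      exact dvd_sub (Dvd.dvd.mul_left h _) (Dvd.dvd.mul_right hab _)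
  have hinj : Set.InjOn (fun x : OO k t => a * x) (T : Set (OO k t)) := by
    intro x hx y hy hxy
    have hxy' : a * x = a * y := hxy
    refine hT.uni x hx y hy (key x y (Or.inl ?_))
    rw [hxy', sub_self]
    exact dvd_zero _
  have hT2 : IsRp m H (T.image fun x => a * x) := by
    refine ⟨?_, ?_, ?_⟩
    · intro h hh
      obtain ⟨x, hx, rfl⟩ := Finset.mem_image.mp hh
      exact hHa x (hT.mem x hx)
    · intro v hv
      obtain ⟨x, hx, hr⟩ := hT.ex (b * v) (hHb v hv)
      refine ⟨a * x, Finset.mem_image_of_mem _ hx, ?_⟩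
      rcases hr with hr | hr
      · left
        have h3 : v - a * x = a * (b * v - x) - (a * b - 1) * v := by ring
        rw [h3]
        exact dvd_sub (Dvd.dvd.mul_left hr _) (Dvd.dvd.mul_right hab _)
      · right
        have h3 : v + a * x = a * (b * v + x) - (a * b - 1) * v := by ring
        rw [h3]
        exact dvd_sub (Dvd.dvd.mul_left hr _) (Dvd.dvd.mul_right hab _)
    · intro h hh h' hh' hr
      obtain ⟨x, hx, rfl⟩ := Finset.mem_image.mp hh
      obtain ⟨y, hy, rfl⟩ := Finset.mem_image.mp hh'
      have h3 := hT.uni x hx y hy (key x y hr)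
      rw [h3]
  rw [← Rp_one m H _ T A G hT2 hT h1 h2 h0, Finset.prod_image hinj]

end Pool.Agent.DN.G
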