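import Pool.Agent.Lib.DN.G.Spec

/-!
# Theorem DN, part G, module TEv: the number of representatives is even
-/

set_option autoImplicit false

open scoped Pointwise

noncomputable section

namespace Pool.Agent.DN.G

open Pool.Agent.MuZ Pool.Agent.FW Pool.Agent.DN
open Pool.Agent.DI (io ofC io_inj exists_io io_ofC ofC_io VP MP UP TP ex)

variable {k t : ℕ}

/-- The integer `j`: `1` modulo `f`, `-1` modulo `2 ^ N`. -/
private theorem TEv_j {f N : ℕ} (hf : Odd f) :
    ∃ j : ℤ, (f : ℤ) ∣ j - 1 ∧ (2 : ℤ) ^ N ∣ j + 1 := by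
  have h1 : IsCoprime (f : ℤ) ((2 : ℤ) ^ N) := by
    apply IsCoprime.pow_right
    have h2 : Nat.Coprime f 2 := Nat.coprime_two_right.2 hf
    exact_mod_cast Nat.isCoprime_iff_coprime.2 h2
  obtain ⟨u, v, huv⟩ := h1
  refine ⟨1 - 2 * u * f, ⟨-(2 * u), by ring⟩, ⟨2 * v, ?_⟩⟩
  linear_combination (-2) * huv

/-- An integer divisible in `O`. -/
private theorem TEv_int {M : ℕ} {n : ℤ} (h : (M : OO k t) ∣ (n : OO k t)) : (M : ℤ) ∣ n := by
  have := ((nat_dvd_iff M (n : OO k t)).1 h).1
  rwa [re_int] at this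

theorem tTEv : S_TEv := by
  classical
  intro hCop hHNf k t _ f N T hf hf15 hN hT
  have hf3 : 3 ≤ f := by
    have h1 := Nat.le_of_dvd hf.pos hf15
    omega
  obtain ⟨j, hjf, hjN⟩ := TEv_j (N := N) hf
  obtain ⟨-, -, hmul, -, -, -, -, -, hcopM, -⟩ := hHNf k t f N (by omega)
  obtain ⟨-, -, -, -, -, hcan, -, -, -⟩ := hCop k t
  -- the element `j`
  have hjf' : (f : OO k t) ∣ (j : OO k t) - 1 := by
    obtain ⟨c, hc⟩ := hjf
    refine ⟨(c : OO k t), ?_⟩
    have h1 : ((j - 1 : ℤ) : OO k t) = ((f * c : ℤ) : OO k t) := by rw [hc]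
    push_cast at h1
    exact h1
  have hjN' : (2 : ℤ) ^ N ∣ j ^ 2 - 1 := by
    have e : j ^ 2 - 1 = (j + 1) * (j - 1) := by ring
    rw [e]
    exact hjN.mul_right _
  have hjM : ((f * 2 ^ N : ℕ) : OO k t) ∣ (j : OO k t) * j - 1 := by
    obtain ⟨c, hc⟩ := hjf
    obtain ⟨d, hd⟩ := hjN
    refine ⟨((c * d : ℤ) : OO k t), ?_⟩
    have h1 : ((j * j - 1 : ℤ) : OO k t) = (((f * c) * (2 ^ N * d) : ℤ) : OO k t) := by
      rw [← hc, ← hd]
      congr 1
      ring
    push_cast at h1 ⊢
    rw [h1]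
    ring
  have hj2 : ((2 * f : ℕ) : OO k t) ∣ (j : OO k t) ^ 2 ^ 1 - 1 := by
    have e : (j : OO k t) ^ 2 ^ 1 - 1 = (j : OO k t) * j - 1 := by ring
    rw [e]
    refine dvd_trans ?_ hjM
    have h1 : 2 * f ∣ f * 2 ^ N := by
      obtain ⟨i, rfl⟩ : ∃ i, N = i + 1 := ⟨N - 1, by omega⟩
      exact ⟨2 ^ i, by ring⟩
    exact_mod_cast (Nat.cast_dvd_cast (α := OO k t) h1)
  have hj2' : ((2 * f : ℕ) : ℤ) ∣ j ^ 2 - 1 := by
    refine TEv_int (k := k) (t := t) ?_
    rw [pow_one] at hj2
    push_cast at hj2 ⊢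
    exact hj2
  have hjH : HN f N (j : OO k t) := by
    refine ⟨⟨?_, 1, hj2⟩, Or.inl ?_⟩
    · unfold Cop
      rw [Nm_int]
      obtain ⟨c, hc⟩ := hj2'
      exact ⟨1, -c, by linarith⟩
    · rwa [Nm_int]
  -- the involution
  have hex : ∀ h : OO k t, ∃ h' : OO k t, h ∈ T → h' ∈ T ∧
      (((f * 2 ^ N : ℕ) : OO k t) ∣ j * h - h' ∨ ((f * 2 ^ N : ℕ) : OO k t) ∣ j * h + h') := by
    intro h
    by_cases hh : h ∈ T
    · obtain ⟨h', hh', hd⟩ := hT.ex (j * h) (hmul _ _ hjH (hT.mem h hh))
      exact ⟨h', fun _ => ⟨hh', hd⟩⟩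
    · exact ⟨0, fun h0 => absurd h0 hh⟩
  choose e he using hex
  have h1 : ∏ _h ∈ T, (-1 : ℤ) = 1 := by
    refine Finset.prod_involution (fun a _ => e a) ?_ ?_ ?_ ?_
    · intro a _
      norm_num
    · intro a ha _ heq
      have hc : Cop a (f * 2 ^ N) := hcopM _ (hT.mem a ha)
      have h2 := (he a ha).2
      rw [heq] at h2
      rcases h2 with h2 | h2
      · have e1 : (j : OO k t) * a - a = a * ((j - 1 : ℤ) : OO k t) := by
          push_cast
          ring
        rw [e1] at h2
        have h3 := TEv_int (hcan _ _ _ hc h2)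
        have h4 : (2 : ℤ) ^ N ∣ j - 1 := by
          refine dvd_trans ?_ h3
          push_cast
          exact dvd_mul_left _ _
        have h5 : (2 : ℤ) ^ N ∣ 2 := by
          have h6 := dvd_sub hjN h4
          have e2 : j + 1 - (j - 1) = 2 := by ring
          rwa [e2] at h6
        have h7 : (2 : ℤ) ^ 2 ≤ 2 ^ N := pow_le_pow_right₀ (by norm_num) hN
        have h8 := Int.le_of_dvd (by norm_num) h5
        omega
      · have e1 : (j : OO k t) * a + a = a * ((j + 1 : ℤ) : OO k t) := by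
          push_cast
          ring
        rw [e1] at h2
        have h3 := TEv_int (hcan _ _ _ hc h2)
        have h4 : (f : ℤ) ∣ j + 1 := by
          refine dvd_trans ?_ h3
          push_cast
          exact dvd_mul_right _ _
        have h5 : (f : ℤ) ∣ 2 := by
          have h6 := dvd_sub h4 hjf
          have e2 : j + 1 - (j - 1) = 2 := by ring
          rwa [e2] at h6
        have h8 := Int.le_of_dvd (by norm_num) h5
        omega
    · intro a ha
      exact (he a ha).1
    · intro a ha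
      obtain ⟨hb, h2⟩ := he a ha
      obtain ⟨hc, h3⟩ := he (e a) hb
      refine (hT.uni a ha _ hc ?_).symm
      -- `a = j (j a) = ± j (e a) = ± e (e a)`
      have h4 : ((f * 2 ^ N : ℕ) : OO k t) ∣ (j : OO k t) * j * a - a := by
        have e1 : (j : OO k t) * j * a - a = ((j : OO k t) * j - 1) * a := by ring
        rw [e1]
        exact hjM.mul_right _
      rcases h2 with h2 | h2 <;> rcases h3 with h3 | h3
      · left
        have h5 := dvd_sub (dvd_add (h2.mul_left (j : OO k t)) h3) h4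
        have e1 : (j : OO k t) * (j * a - e a) + (j * e a - e (e a)) - (j * j * a - a) =
            a - e (e a) := by ring
        rwa [e1] at h5
      · right
        have h5 := dvd_sub (dvd_add (h2.mul_left (j : OO k t)) h3) h4
        have e1 : (j : OO k t) * (j * a - e a) + (j * e a + e (e a)) - (j * j * a - a) =
            a + e (e a) := by ring
        rwa [e1] at h5
      · right
        have h5 := dvd_sub (dvd_sub (h2.mul_left (j : OO k t)) h3) h4
        have e1 : (j : OO k t) * (j * a + e a) - (j * e a - e (e a)) - (j * j * a - a) =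
            a + e (e a) := by ring
        rwa [e1] at h5
      · left
        have h5 := dvd_sub (dvd_sub (h2.mul_left (j : OO k t)) h3) h4
        have e1 : (j : OO k t) * (j * a + e a) - (j * e a + e (e a)) - (j * j * a - a) =
            a - e (e a) := by ring
        rwa [e1] at h5
  rw [Finset.prod_const] at h1
  exact (neg_one_pow_eq_one_iff_even (by norm_num)).1 h1

end Pool.Agent.DN.G
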