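import Pool.Agent.Lib.DN.G.Spec

/-!
# Theorem DN, part G, module TwR: two systems of representatives of level `N + 1`
-/

set_option autoImplicit false
set_option linter.unusedSimpArgs false
set_option linter.unnecessarySeqFocus false

open scoped Pointwise

noncomputable section

namespace Pool.Agent.DN.G

open Pool.Agent.MuZ Pool.Agent.FW Pool.Agent.DN

variable {k t : ℕ}

private theorem TwR_re2 : (2 : OO k t).re = 2 := QuadraticAlgebra.re_ofNat 2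

private theorem TwR_im2 : (2 : OO k t).im = 0 := QuadraticAlgebra.im_ofNat 2

private theorem TwR_cancel (n : ℕ) (hn : n ≠ 0) (x y : OO k t) (h : (n : OO k t) * x = n * y) :
    x = y := by
  have h0 : (n : ℤ) ≠ 0 := by exact_mod_cast hn
  have h1 := congrArg QuadraticAlgebra.re h
  have h2 := congrArg QuadraticAlgebra.im h
  simp only [re_mul, im_mul, re_nat, im_nat, zero_mul, mul_zero, add_zero, sub_zero] at h1 h2
  exact ext' (mul_left_cancel₀ h0 h1) (mul_left_cancel₀ h0 h2)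

private theorem TwR_E (x : OO k t) :
    ∃ e ∈ ({0, 1, wI k t, 1 + wI k t} : Finset (OO k t)), ∃ y : OO k t, x = e + 2 * y := by
  rcases Int.even_or_odd' x.re with ⟨a, ha | ha⟩ <;> rcases Int.even_or_odd' x.im with ⟨l, hl | hl⟩
  · exact ⟨0, by simp, ⟨a, l⟩, by
      apply ext' <;> simp [ha, hl, TwR_re2, TwR_im2]⟩
  · exact ⟨wI k t, by simp, ⟨a, l⟩, by
      apply ext' <;> simp [wI, ha, hl, TwR_re2, TwR_im2, re_one, im_one] <;> ring⟩
  · exact ⟨1, by simp, ⟨a, l⟩, by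
      apply ext' <;> simp [ha, hl, TwR_re2, TwR_im2, re_one, im_one] <;> ring⟩
  · exact ⟨1 + wI k t, by simp, ⟨a, l⟩, by
      apply ext' <;> simp [wI, ha, hl, TwR_re2, TwR_im2, re_one, im_one] <;> ring⟩

private theorem TwR_Ec (e : OO k t) (he : e ∈ ({0, 1, wI k t, 1 + wI k t} : Finset (OO k t))) :
    (e.re = 0 ∨ e.re = 1) ∧ (e.im = 0 ∨ e.im = 1) := by
  simp only [Finset.mem_insert, Finset.mem_singleton] at he
  rcases he with rfl | rfl | rfl | rfl <;> simp [wI, re_one, im_one]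

private theorem TwR_Eu (e e' : OO k t) (he : e ∈ ({0, 1, wI k t, 1 + wI k t} : Finset (OO k t)))
    (he' : e' ∈ ({0, 1, wI k t, 1 + wI k t} : Finset (OO k t))) (h : (2 : OO k t) ∣ e - e') :
    e = e' := by
  obtain ⟨y, hy⟩ := h
  have h1 := congrArg QuadraticAlgebra.re hy
  have h2 := congrArg QuadraticAlgebra.im hy
  simp only [QuadraticAlgebra.re_sub, QuadraticAlgebra.im_sub, re_mul, im_mul, TwR_re2, TwR_im2,
    mul_zero, zero_mul, sub_zero, add_zero] at h1 h2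
  obtain ⟨h3, h4⟩ := TwR_Ec e he
  obtain ⟨h5, h6⟩ := TwR_Ec e' he'
  refine ext' ?_ ?_ <;> omega

private theorem TwR_norm1 (N : ℕ) (c : ℤ) (h1 : (2 : ℤ) ^ N ∣ c) (h2 : ¬ (2 : ℤ) ^ (N + 1) ∣ c) :
    (2 : ℤ) ^ (N + 1) ∣ c - 2 ^ N := by
  obtain ⟨k, rfl⟩ := h1
  rcases Int.even_or_odd' k with ⟨l, hl | hl⟩
  · exfalso
    refine h2 ⟨l, ?_⟩
    rw [hl, pow_succ]
    ring
  · refine ⟨l, ?_⟩
    rw [hl, pow_succ]
    ring

/-- The product of two classes outside of the subgroup. -/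
private theorem TwR_norm2 (N : ℕ) (hN : 2 ≤ N) (x y : ℤ)
    (hx : (2 : ℤ) ^ N ∣ x - 1 ∨ (2 : ℤ) ^ N ∣ x + 1)
    (hx' : ¬ ((2 : ℤ) ^ (N + 1) ∣ x - 1 ∨ (2 : ℤ) ^ (N + 1) ∣ x + 1))
    (hy : (2 : ℤ) ^ N ∣ y - 1 ∨ (2 : ℤ) ^ N ∣ y + 1)
    (hy' : ¬ ((2 : ℤ) ^ (N + 1) ∣ y - 1 ∨ (2 : ℤ) ^ (N + 1) ∣ y + 1)) :
    (2 : ℤ) ^ (N + 1) ∣ x * y - 1 ∨ (2 : ℤ) ^ (N + 1) ∣ x * y + 1 := by
  have key : ∀ z : ℤ, ((2 : ℤ) ^ N ∣ z - 1 ∨ (2 : ℤ) ^ N ∣ z + 1) →
      ¬ ((2 : ℤ) ^ (N + 1) ∣ z - 1 ∨ (2 : ℤ) ^ (N + 1) ∣ z + 1) →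
      ∃ ε : ℤ, (ε = 1 ∨ ε = -1) ∧ ∃ k : ℤ, z = ε + 2 ^ N + 2 ^ (N + 1) * k := by
    intro z hz hz'
    rw [not_or] at hz'
    rcases hz with hz | hz
    · obtain ⟨k, hk⟩ := TwR_norm1 N _ hz hz'.1
      exact ⟨1, Or.inl rfl, k, by linarith⟩
    · obtain ⟨k, hk⟩ := TwR_norm1 N _ hz hz'.2
      exact ⟨-1, Or.inr rfl, k, by linarith⟩
  obtain ⟨ε, hε, k, hk⟩ := key x hx hx'
  obtain ⟨δ, hδ, l, hl⟩ := key y hy hy'
  obtain ⟨M, hM⟩ : ∃ M : ℤ, (2 : ℤ) ^ N = 2 * M := by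
    obtain ⟨n, rfl⟩ : ∃ n, N = n + 1 := ⟨N - 1, by omega⟩
    exact ⟨2 ^ n, by rw [pow_succ]; ring⟩
  have hM' : (2 : ℤ) ^ (N + 1) = 4 * M := by
    rw [pow_succ, hM]
    ring
  rw [hM, hM'] at hk hl
  rw [hM']
  rcases hε with rfl | rfl <;> rcases hδ with rfl | rfl
  · left
    exact ⟨1 + k + l + M + 2 * M * (k + l) + 4 * M * k * l, by rw [hk, hl]; ring⟩
  · right
    exact ⟨-k + l + M + 2 * M * (k + l) + 4 * M * k * l, by rw [hk, hl]; ring⟩
  · right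
    exact ⟨k - l + M + 2 * M * (k + l) + 4 * M * k * l, by rw [hk, hl]; ring⟩
  · left
    exact ⟨-1 - k - l + M + 2 * M * (k + l) + 4 * M * k * l, by rw [hk, hl]; ring⟩

theorem tTwR : S_TwR := by
  intro hCop hHN k t _ f N T T' a hf h15 hN hT hT' ha ha' E hE
  obtain ⟨-, -, -, -, hc6, -, -, hc9, hc10⟩ := hCop k t
  obtain ⟨⟨-, -, -, hneg⟩, -, hNmul, -, hNcg, -, hNi1, hHc, hNc, hlow, -⟩ := hHN k t f N (by omega)
  obtain ⟨⟨-, -, -, hneg'⟩, -, hNmul', -, hNcg', -, hNi1', -, -, -, -⟩ :=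
    hHN k t f (N + 1) (by omega)
  have h3 : 3 ≤ f := by
    have h0 : 0 < f := hf.pos
    have := Nat.le_of_dvd h0 h15
    omega
  have hcop : ∀ (n : ℕ) (v : OO k t), HN f n v → Cop v (2 * f) := fun n v hv => hv.1.1
  have hac : Cop a (2 * f) := hcop N a ha
  have hNneg' : ∀ v : OO k t, HN f (N + 1) v → HN f (N + 1) (-v) := fun v hv => by
    have := hNmul' _ _ hneg' hv
    rwa [neg_one_mul] at this
  set M : OO k t := ((f * 2 ^ N : ℕ) : OO k t) with hM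
  have hM' : ((f * 2 ^ (N + 1) : ℕ) : OO k t) = M * 2 := by
    rw [hM]
    push_cast
    ring
  rw [hM'] at hNcg' hNi1'
  have hf0 : f ≠ 0 := by omega
  have hM0 : f * 2 ^ N ≠ 0 := mul_ne_zero hf0 (pow_ne_zero _ two_ne_zero)
  have hM0' : 0 < f * 2 ^ (N + 1) :=
    Nat.pos_of_ne_zero (mul_ne_zero hf0 (pow_ne_zero _ two_ne_zero))
  have hprod : ∀ v u : OO k t, HN f N v → HN f N u → ¬ HN f (N + 1) v → ¬ HN f (N + 1) u →
      HN f (N + 1) (v * u) := by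
    intro v u hv hu hv' hu'
    refine ⟨(hNmul _ _ hv hu).1, ?_⟩
    rw [Nm_mul]
    exact TwR_norm2 N hN _ _ hv.2 (fun h => hv' ⟨hv.1, h⟩) hu.2 (fun h => hu' ⟨hu.1, h⟩)
  -- inverses
  have hinv : ∀ v : OO k t, Cop v (2 * f) → ∃ b : OO k t, Cop b (2 * f) ∧ (M * 2) ∣ v * b - 1 := by
    intro v hv
    obtain ⟨u, -, hu, h1⟩ := hc6 v (f * 2 ^ (N + 1)) hM0' (hc10 f (N + 1) v hv)
    rw [hM'] at h1
    exact ⟨u, hc9 f (N + 1) u (by omega) hu, h1⟩
  obtain ⟨b, hbc, hb⟩ := hinv a hac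
  have hMb : M ∣ a * b - 1 := Dvd.dvd.trans (Dvd.intro _ rfl) hb
  have hbN : HN f N b := hNi1 a b ha hMb
  have hbN' : ¬ HN f (N + 1) b := fun h => ha' (hNi1' b a h (by rwa [mul_comm b a]))
  -- `a * h` is not of level `N + 1`
  have hah : ∀ h : OO k t, HN f (N + 1) h → ¬ HN f (N + 1) (a * h) := by
    intro h hh hah
    obtain ⟨c, -, hc⟩ := hinv h (hcop (N + 1) h hh)
    have hcN : HN f (N + 1) c := hNi1' h c hh hc
    have h1 := hNmul' _ _ hah hcN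
    obtain ⟨l, hl⟩ := hc
    refine ha' (hNcg' _ a ⟨-(a * l), ?_⟩ h1)
    linear_combination -a * hl
  have hcg : ∀ x y : OO k t, (M * 2) ∣ x - y → HN f (N + 1) y → HN f (N + 1) x :=
    fun x y h1 h2 => hNcg' y x h1 h2
  have hmix : ∀ h ∈ T', ∀ h' ∈ T', ¬ (M * 2 ∣ h - a * h' ∨ M * 2 ∣ h + a * h') := by
    rintro h hh h' hh' (h1 | h1)
    · refine hah h' (hT'.mem h' hh') (hcg _ h ?_ (hT'.mem h hh))
      rw [← dvd_neg, neg_sub]
      exact h1
    · refine hah h' (hT'.mem h' hh') ?_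
      have h2 := hNneg' _ (hT'.mem h hh)
      refine hcg _ (-h) ?_ h2
      rwa [sub_neg_eq_add, add_comm]
  have hdiv : ∀ x : OO k t, M * 2 ∣ a * x → M * 2 ∣ x := by
    rintro x ⟨l, hl⟩
    obtain ⟨m, hm⟩ := hb
    exact ⟨b * l - m * x, by linear_combination b * hl - x * hm⟩
  have haa : ∀ h ∈ T', ∀ h' ∈ T', (M * 2 ∣ a * h - a * h' ∨ M * 2 ∣ a * h + a * h') → h = h' := by
    intro h hh h' hh' h1
    refine hT'.uni h hh h' hh' ?_
    rw [hM']
    rcases h1 with h1 | h1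
    · left
      exact hdiv _ (by rwa [mul_sub])
    · right
      exact hdiv _ (by rwa [mul_add])
  -- the second system
  have hsnd : ∀ h ∈ T, ∀ e ∈ E, ∀ h' ∈ T, ∀ e' ∈ E,
      (M * 2 ∣ (h + M * e) - (h' + M * e') ∨ M * 2 ∣ (h + M * e) + (h' + M * e')) →
      h = h' ∧ e = e' := by
    intro h hh e he h' hh' e' he' h1
    have h2 : h = h' := by
      refine hT.uni h hh h' hh' ?_
      rcases h1 with ⟨l, hl⟩ | ⟨l, hl⟩
      · left
        exact ⟨2 * l - e + e', by linear_combination hl⟩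
      · right
        exact ⟨2 * l - e - e', by linear_combination hl⟩
    refine ⟨h2, ?_⟩
    subst h2
    rcases h1 with ⟨l, hl⟩ | ⟨l, hl⟩
    · rw [hE] at he he'
      refine TwR_Eu e e' he he' ⟨l, ?_⟩
      refine TwR_cancel _ hM0 _ _ ?_
      rw [← hM]
      linear_combination hl
    · exfalso
      have h4 : ((f : ℕ) : OO k t) ∣ 2 * h - 0 := by
        refine ⟨((2 ^ N : ℕ) : OO k t) * (2 * l - e - e'), ?_⟩
        have h4 : M = (f : OO k t) * ((2 ^ N : ℕ) : OO k t) := by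
          rw [hM]
          push_cast
          ring
        rw [← mul_assoc, ← h4]
        linear_combination hl
      have h5 := Nm_congr h4
      have h6 : Nm (2 * h) - Nm (0 : OO k t) = 4 * Nm h := by
        have h7 : Nm (2 : OO k t) = 4 := by
          have := Nm_nat (n := k) (t := t) 2
          simpa using this
        rw [Nm_mul, Nm_zero (n := k) (t := t), h7]
        ring
      rw [h6] at h5
      have h7 : IsCoprime (Nm h) (f : ℤ) := 
        cop_dvd (hHc h (hT.mem h hh).1) (Dvd.intro_left 2 rfl)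
      have h8 : (f : ℤ) ∣ 4 := h7.symm.dvd_of_dvd_mul_right h5
      have h9 : f ∣ 4 := by exact_mod_cast h8
      have h10 := Nat.le_of_dvd (by norm_num) h9
      interval_cases f
      · omega
      · exact absurd hf (by decide)
  refine ⟨⟨?_, ?_, ?_⟩, ?_, ?_, ⟨?_, ?_, ?_⟩, ?_⟩
  · intro x hx
    rcases Finset.mem_union.1 hx with hx | hx
    · exact hlow x (hT'.mem x hx)
    · obtain ⟨h, hh, rfl⟩ := Finset.mem_image.1 hx
      exact hNmul _ _ ha (hlow h (hT'.mem h hh))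
  · intro v hv
    rw [hM']
    by_cases hv' : HN f (N + 1) v
    · obtain ⟨h, hh, h1⟩ := hT'.ex v hv'
      rw [hM'] at h1
      exact ⟨h, Finset.mem_union_left _ hh, h1⟩
    · obtain ⟨h, hh, h1⟩ := hT'.ex (b * v) (hprod _ _ hbN hv hbN' hv')
      rw [hM'] at h1
      refine ⟨a * h, Finset.mem_union_right _ (Finset.mem_image_of_mem _ hh), ?_⟩
      obtain ⟨m, hm⟩ := hb
      rcases h1 with ⟨l, hl⟩ | ⟨l, hl⟩
      · left
        exact ⟨a * l - m * v, by linear_combination a * hl - v * hm⟩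
      · right
        exact ⟨a * l - m * v, by linear_combination a * hl - v * hm⟩
  · intro x hx y hy h1
    rw [hM'] at h1
    rcases Finset.mem_union.1 hx with hx | hx <;> rcases Finset.mem_union.1 hy with hy | hy
    · exact hT'.uni x hx y hy (by rwa [hM'])
    · obtain ⟨h, hh, rfl⟩ := Finset.mem_image.1 hy
      exact absurd h1 (hmix x hx h hh)
    · obtain ⟨h, hh, rfl⟩ := Finset.mem_image.1 hx
      refine absurd ?_ (hmix y hy h hh)
      rcases h1 with h1 | h1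
      · left
        rw [← dvd_neg, neg_sub]
        exact h1
      · right
        rwa [add_comm]
    · obtain ⟨h, hh, rfl⟩ := Finset.mem_image.1 hx
      obtain ⟨h', hh', rfl⟩ := Finset.mem_image.1 hy
      rw [haa h hh h' hh' h1]
  · rw [Finset.disjoint_left]
    intro x hx hy
    obtain ⟨h, hh, rfl⟩ := Finset.mem_image.1 hy
    exact hah h (hT'.mem h hh) (hT'.mem _ hx)
  · intro h hh h' hh' h1
    exact haa h hh h' hh' (Or.inl (by
      have h2 : a * h = a * h' := h1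
      rw [h2, sub_self]
      exact dvd_zero _))
  · intro x hx
    obtain ⟨p, hp, rfl⟩ := Finset.mem_image.1 hx
    have hp1 := hT.mem _ (Finset.mem_product.1 hp).1
    exact hNcg p.1 _ ⟨p.2, by rw [hM]; ring⟩ hp1
  · intro v hv
    rw [hM']
    obtain ⟨h, hh, h1⟩ := hT.ex v hv
    rcases h1 with ⟨x, hx⟩ | ⟨x, hx⟩
    · obtain ⟨e, he, y, hy⟩ := TwR_E x
      rw [← hE] at he
      refine ⟨h + M * e, Finset.mem_image.2 ⟨(h, e), Finset.mem_product.2 ⟨hh, he⟩, rfl⟩,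
        Or.inl ⟨y, ?_⟩⟩
      linear_combination hx + M * hy
    · obtain ⟨e, he, y, hy⟩ := TwR_E x
      rw [← hE] at he
      refine ⟨h + M * e, Finset.mem_image.2 ⟨(h, e), Finset.mem_product.2 ⟨hh, he⟩, rfl⟩,
        Or.inr ⟨e + y, ?_⟩⟩
      linear_combination hx + M * hy
  · intro x hx y hy h1
    rw [hM'] at h1
    obtain ⟨p, hp, rfl⟩ := Finset.mem_image.1 hx
    obtain ⟨q, hq, rfl⟩ := Finset.mem_image.1 hy
    obtain ⟨hp1, hp2⟩ := Finset.mem_product.1 hp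
    obtain ⟨hq1, hq2⟩ := Finset.mem_product.1 hq
    obtain ⟨h2, h4⟩ := hsnd _ hp1 _ hp2 _ hq1 _ hq2 h1
    rw [h2, h4]
  · intro p hp q hq h1
    rw [Finset.mem_coe] at hp hq
    obtain ⟨hp1, hp2⟩ := Finset.mem_product.1 hp
    obtain ⟨hq1, hq2⟩ := Finset.mem_product.1 hq
    have h4 : p.1 + M * p.2 = q.1 + M * q.2 := h1
    obtain ⟨h2, h5⟩ := hsnd _ hp1 _ hp2 _ hq1 _ hq2 (Or.inl (by
      rw [h4, sub_self]
      exact dvd_zero _))
    exact Prod.ext h2 h5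

end Pool.Agent.DN.G
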