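import Pool.Agent.Lib.DN.G.Spec

/-!
# Theorem DN, part G, module Two: the norm relation of the elliptic units
-/

set_option autoImplicit false

open scoped Pointwise

noncomputable section

namespace Pool.Agent.DN.G

open Pool.Agent.MuZ Pool.Agent.FW Pool.Agent.DN

open Pool.Agent.DI (io ofC io_inj exists_io io_ofC ofC_io VP MP UP TP ex)

variable {k t : ℕ}

private theorem Two_dvd (x : OO k t) : (2 : OO k t) ∣ x ↔ (2 : ℤ) ∣ x.re ∧ (2 : ℤ) ∣ x.im := by
  have := nat_dvd_iff 2 x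
  simpa using this

private theorem Two_coord (e : OO k t) (he : e = 0 ∨ e = 1 ∨ e = wI k t ∨ e = 1 + wI k t) :
    (e.re = 0 ∨ e.re = 1) ∧ (e.im = 0 ∨ e.im = 1) := by
  rcases he with rfl | rfl | rfl | rfl
  · exact ⟨Or.inl rfl, Or.inl rfl⟩
  · exact ⟨Or.inr rfl, Or.inl rfl⟩
  · exact ⟨Or.inl rfl, Or.inr rfl⟩
  · exact ⟨Or.inr rfl, Or.inr rfl⟩

private theorem Two_uni (e e' : OO k t) (he : e = 0 ∨ e = 1 ∨ e = wI k t ∨ e = 1 + wI k t)
    (he' : e' = 0 ∨ e' = 1 ∨ e' = wI k t ∨ e' = 1 + wI k t) (h : (2 : OO k t) ∣ e - e') : e = e' := by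
  rw [Two_dvd, QuadraticAlgebra.re_sub, QuadraticAlgebra.im_sub] at h
  obtain ⟨h1, h2⟩ := Two_coord e he
  obtain ⟨h3, h4⟩ := Two_coord e' he'
  apply QuadraticAlgebra.ext <;> omega

private theorem Two_ex (w : OO k t) :
    ∃ e : OO k t, (e = 0 ∨ e = 1 ∨ e = wI k t ∨ e = 1 + wI k t) ∧ (2 : OO k t) ∣ w - e := by
  have hr : w.re % 2 = 0 ∨ w.re % 2 = 1 := by omega
  have hi : w.im % 2 = 0 ∨ w.im % 2 = 1 := by omega
  rcases hr with hr | hr <;> rcases hi with hi | hi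
  · refine ⟨0, Or.inl rfl, ?_⟩
    rw [Two_dvd]
    change (2 : ℤ) ∣ w.re - 0 ∧ (2 : ℤ) ∣ w.im - 0
    omega
  · refine ⟨wI k t, Or.inr (Or.inr (Or.inl rfl)), ?_⟩
    rw [Two_dvd]
    change (2 : ℤ) ∣ w.re - 0 ∧ (2 : ℤ) ∣ w.im - 1
    omega
  · refine ⟨1, Or.inr (Or.inl rfl), ?_⟩
    rw [Two_dvd]
    change (2 : ℤ) ∣ w.re - 1 ∧ (2 : ℤ) ∣ w.im - 0
    omega
  · refine ⟨1 + wI k t, Or.inr (Or.inr (Or.inr rfl)), ?_⟩
    rw [Two_dvd]
    change (2 : ℤ) ∣ w.re - (1 + 0) ∧ (2 : ℤ) ∣ w.im - (0 + 1)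
    omega

private theorem Two_lam [SqN k t] (b : Ideal (OO k t)) (v : OO k t) : toC v ∈ Lam b :=
  lam_anti le_top (lam_top.2 ⟨v, rfl⟩)

/-- The points `e / 2` are a system of representatives of `Lam (2 b) / Lam b`. -/
private theorem Two_sys [SqN k t] (b : Ideal (OO k t)) (x w : OO k t) (hx : x ∈ b) (hxw : x - 1 = 2 * w)
    (R : Finset ℂ)
    (hR : ∀ u : ℂ, u ∈ R ↔ ∃ e : OO k t, (e = 0 ∨ e = 1 ∨ e = wI k t ∨ e = 1 + wI k t) ∧ toC e / 2 = u) :
    IsSys (sp 2) b R := by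
  refine ⟨?_, ?_, ?_⟩
  · intro u hu
    obtain ⟨e, -, rfl⟩ := (hR u).1 hu
    rw [lam_sp, toC_two]
    have : (2 : ℂ) * (toC e / 2) = toC e := by ring
    rw [this]
    exact Two_lam b e
  · intro z hz
    rw [lam_sp, toC_two] at hz
    obtain ⟨w', hw'⟩ := hz x hx
    obtain ⟨e, he, y, hy⟩ := Two_ex w'
    refine ⟨toC e / 2, (hR _).2 ⟨e, he, rfl⟩, ?_⟩
    have h1 : toC x = 1 + 2 * toC w := by
      have : x = 1 + 2 * w := by linear_combination hxw
      rw [this, toC_add, toC_mul, toC_one, toC_two]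
    have h2 : toC w' = toC e + 2 * toC y := by
      have : w' = e + 2 * y := by linear_combination hy
      rw [this, toC_add, toC_mul, toC_two]
    rw [h1, h2] at hw'
    have h3 : z - toC e / 2 = toC y - toC w * (2 * z) := by linear_combination hw' / 2
    rw [h3]
    exact lam_sub (Two_lam b y) (lam_mul w hz)
  · rintro u hu u' hu' h
    obtain ⟨e, he, rfl⟩ := (hR u).1 hu
    obtain ⟨e', he', rfl⟩ := (hR u').1 hu'
    obtain ⟨c, hc⟩ := h x hx
    have h1 : x * (e - e') = 2 * c := by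
      apply toC_inj
      rw [toC_mul, toC_sub, toC_mul, toC_two, ← hc]
      ring
    have h2 : (2 : OO k t) ∣ e - e' := by
      refine ⟨c - w * (e - e'), ?_⟩
      linear_combination h1 - (e - e') * hxw
    rw [Two_uni e e' he he' h2]

theorem tTwo : S_Two := by
  intro O6 O7 D7 D8 cCop cHNf cRUp cRp cTEv cTwR cNQ cUBa cUBb k t _ f m N T hy hN hT b hb hb2 T' hT' s
    hs a ha hHN hnHN
  have hf := hy.odd
  have hf15 := hy.fif
  have hfpos : 0 < f := hf.pos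
  obtain ⟨o1, o2, -, o4, o5⟩ := O6 k t
  obtain ⟨p1, p2, p3, p4, p5, p6, p7, p8, p9⟩ := cCop k t
  obtain ⟨q1, q2, q3, q4, q5, q6, q7, q8, q9, q10, q11⟩ := cHNf k t f N (by omega)
  have hdv : ∀ (a : Ideal (OO k t)) (i j : ℕ), i ∣ j → PrI a j → PrI a i := by
    intro a i j hij ha
    obtain ⟨c, rfl⟩ := hij
    exact ((o2 i c a).1 ha).1
  have hGb : G15 b := ⟨hb, hdv b 15 _ (hf15.mul_left 2) hb2⟩
  have hm15 : PrI m 15 := hdv m 15 f hf15 hy.cop
  have hm' : 0 < f * 2 ^ (N + 1) := Nat.mul_pos hfpos (by positivity)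
  have hm'C : ((f * 2 ^ (N + 1) : ℕ) : ℂ) ≠ 0 := Nat.cast_ne_zero.2 hm'.ne'
  have hpow : f * 2 ^ N * 2 = f * 2 ^ (N + 1) := by rw [pow_succ, mul_assoc]
  -- the element v'
  obtain ⟨v, hv0, hvH, hvR⟩ := hHN
  have hvC : Cop v (2 * f) := q8 v hvH.1
  have copa0 : PrI a (f * 2 ^ (N + 1)) := hdv a _ _ (dvd_mul_left _ _) ha.cop
  have copa : PrI a (f * 2 ^ N * 2) := by
    rw [hpow]
    exact copa0
  have copv : PrI (sp v) (f * 2 ^ N * 2) := by
    rw [hpow]
    exact (o4 _ v hm').2 (p9 f (N + 1) v hvC)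
  obtain ⟨β, hβ0, hβ1, hβC, hβR⟩ := cRUp k t (f * 2 ^ N) 2 (sp v) a (Nat.mul_pos hfpos (by positivity))
    two_pos (by rwa [Ne, Ideal.span_singleton_eq_bot]) ha.ne copv copa hvR
  rw [hpow] at hβC hβR
  rw [Ideal.span_singleton_mul_span_singleton] at hβR
  set v' : OO k t := β * v with hv'
  have hv'0 : v' ≠ 0 := mul_ne_zero hβ0 hv0
  have hv'H : HN f N v' := by
    refine q5 v v' ?_ hvH
    have e : v' - v = (β - 1) * v := by
      rw [hv']
      ring
    rw [e]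
    exact hβ1.mul_right _
  have hv'C : Cop v' (2 * f) := q8 v' hv'H.1
  have hv'n : ¬ HN f (N + 1) v' := fun h => hnHN ⟨v', hv'0, h, hβR⟩
  -- the function G
  obtain ⟨-, d2, d3, -⟩ := D8 k t m b hy.ne hGb hy.two hm15
  let G : OO k t → Om := fun w => Theta m b (toC w / (f * 2 ^ (N + 1) : ℕ))
  have hGper : ∀ w u : OO k t, ((f * 2 ^ (N + 1) : ℕ) : OO k t) ∣ w - u → G w = G u := by
    rintro w u ⟨x, hx⟩
    have h1 : toC w / (f * 2 ^ (N + 1) : ℕ) = toC u / (f * 2 ^ (N + 1) : ℕ) + toC x := by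
      have h2 : w = u + ((f * 2 ^ (N + 1) : ℕ) : OO k t) * x := by linear_combination hx
      rw [h2, toC_add, toC_mul, toC_nat, add_div, mul_div_cancel_left₀ _ hm'C]
    change Theta m b _ = Theta m b _
    rw [h1]
    exact (d2 _).2 _ (Two_lam b x)
  have hGeven : ∀ w : OO k t, G (-w) = G w := by
    intro w
    change Theta m b _ = Theta m b _
    rw [toC_neg, neg_div]
    exact (d2 _).1
  -- the left side
  have hab : a * b ≠ ⊥ := by
    rw [Ne, Ideal.mul_eq_bot]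
    rintro (h | h)
    · exact ha.ne h
    · exact hb h
  have ha2 : PrI a (2 * f) := by
    refine hdv a (2 * f) _ ?_ copa0
    exact ⟨2 ^ N, by ring⟩
  have hab2 : PrI (a * b) (2 * f) := (o1 _ a b).2 ⟨ha2, hb2⟩
  obtain ⟨r1, -, -, r4, -⟩ := O7 k t (f * 2 ^ (N + 1)) hm'
  have hu2 : s (uN f (N + 1) m T' b) = ∏ h ∈ T', G (v' * h) := by
    rw [(cUBb k t f m (N + 1) T' hy (by omega) hT' b hb hb2).2 s hs a ha,
      ← (cUBa k t f m (N + 1) T' hy (by omega) hT' (a * b) hab hab2).2.2.1 (sp v' * b)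
        (r4 _ _ _ _ hβR (r1 b)),
      (cUBa k t f m (N + 1) T' hy (by omega) hT' b hb hb2).2.2.2.1 v' hv'0 hv'C]
  obtain ⟨A1, A2, A3, A4, A5⟩ := cTwR k t f N T T' v' hf hf15 hN hT hT' hv'H hv'n
    {0, 1, wI k t, 1 + wI k t} rfl
  set E : Finset (OO k t) := {0, 1, wI k t, 1 + wI k t} with hE
  have hmem : ∀ e : OO k t, e ∈ E ↔ (e = 0 ∨ e = 1 ∨ e = wI k t ∨ e = 1 + wI k t) := by
    intro e
    rw [hE]
    simp only [Finset.mem_insert, Finset.mem_singleton]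
  have hneg : ∀ u : OO k t, HN f N u → HN f N (-u) := by
    intro u h1
    have := q3 (-1) u q1.2.2.2 h1
    rwa [neg_one_mul] at this
  have hleft : uN f (N + 1) m T' b * s (uN f (N + 1) m T' b) =
      ∏ h ∈ T, ∏ e ∈ E, G (h + (f * 2 ^ N : ℕ) * e) := by
    have hu1 : uN f (N + 1) m T' b = ∏ h ∈ T', G h := rfl
    rw [hu2, hu1, ← Finset.prod_image (f := G) (g := fun h => v' * h) A3,
      ← Finset.prod_union A2,
      (cRp k t).1 (f * 2 ^ (N + 1)) (fun v => HN f N v) _ _ Om G A1 A4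
        (fun v u _ _ h => hGper v u h) hGeven hneg, Finset.prod_image A5, Finset.prod_product]
  -- the inner products
  have hb22 : PrI b 2 := hdv b 2 _ (dvd_mul_right _ _) hb2
  obtain ⟨s0, hs0, hD⟩ := (D7 k t m b hy.ne hGb hy.two hm15).2
  obtain ⟨x, hxb, -, w, hxw⟩ := o5 2 b two_pos hb hb22
  have hxw' : x - 1 = 2 * w := by simpa using hxw
  classical
  have hsys : IsSys (sp 2) b (E.image fun e => toC e / 2) :=
    Two_sys b x w hxb hxw' _ (fun u => by
      rw [Finset.mem_image]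
      simp only [hmem])
  have hinjE : Set.InjOn (fun e : OO k t => toC e / 2) (E : Set (OO k t)) := by
    intro e _ e' _ h
    apply toC_inj
    have h1 : toC e / 2 = toC e' / 2 := h
    linear_combination 2 * h1
  have hin : ∀ h ∈ T, ∏ e ∈ E, G (h + (f * 2 ^ N : ℕ) * e) =
      s0 * Theta m b (toC h / (f * 2 ^ N : ℕ)) := by
    intro h hh
    have h3 : ((f * 2 ^ (N + 1) : ℕ) : ℂ) = ((f * 2 ^ N : ℕ) : ℂ) * 2 := by
      push_cast
      ring
    have h4 : ((f * 2 ^ N : ℕ) : ℂ) ≠ 0 :=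
      Nat.cast_ne_zero.2 (Nat.mul_pos hfpos (by positivity)).ne'
    have h2 : 2 * (toC h / (f * 2 ^ (N + 1) : ℕ)) = toC h / (f * 2 ^ N : ℕ) := by
      rw [h3]
      field_simp
    have hnl : 2 * (toC h / (f * 2 ^ (N + 1) : ℕ)) ∉ Lam (m * b) := by
      rw [h2]
      intro hL
      have hmb : m * b ≠ ⊥ := by
        rw [Ne, Ideal.mul_eq_bot]
        rintro (h | h)
        · exact hy.ne h
        · exact hb h
      obtain ⟨y, hyb, -, w', hyw⟩ := o5 2 (m * b) two_pos hmb ((o1 2 m b).2 ⟨hy.two, hb22⟩)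
      have hyw' : y - 1 = 2 * w' := by simpa using hyw
      obtain ⟨c, hc⟩ := hL y hyb
      have e1 : y * h = ((f * 2 ^ N : ℕ) : OO k t) * c := by
        apply toC_inj
        rw [toC_mul, toC_mul, toC_nat, ← hc]
        field_simp
      have e2 : (2 : OO k t) ∣ ((f * 2 ^ N : ℕ) : OO k t) := by
        have : (2 : ℕ) ∣ f * 2 ^ N := Dvd.dvd.mul_left (dvd_pow_self 2 (by omega)) f
        obtain ⟨j, hj⟩ := this
        rw [hj]
        push_cast
        exact Dvd.intro _ rfl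
      have e3 : (2 : OO k t) ∣ h := by
        have e4 : h = y * h - 2 * (w' * h) := by linear_combination (-h) * hyw'
        rw [e4, e1]
        exact dvd_sub (e2.mul_right _) (Dvd.intro _ rfl)
      exact (p4 h).1 (((p2 h 2 f).1 (q8 h (hT.mem h hh).1)).1) e3
    have h1 := hD _ hsys (toC h / (f * 2 ^ (N + 1) : ℕ)) ⟨h, _, hm', rfl⟩ hnl
    rw [Finset.prod_image hinjE, h2] at h1
    rw [← h1]
    refine Finset.prod_congr rfl fun e _ => ?_
    change Theta m b _ = Theta m b _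
    apply congrArg
    rw [toC_add, toC_mul, toC_nat, add_div]
    congr 1
    rw [h3, mul_div_mul_left _ _ h4]
  have hev := cTEv k t f N T hf hf15 hN hT
  rw [hleft, Finset.prod_congr rfl hin, Finset.prod_mul_distrib, Finset.prod_const]
  have hs1 : ((s0 : ℤ) : Om) ^ T.card = 1 := by
    rcases hs0 with h | h
    · rw [h, Int.cast_one, one_pow]
    · rw [h, Int.cast_neg, Int.cast_one]
      exact hev.neg_one_pow
  rw [hs1, one_mul]
  rfl

end Pool.Agent.DN.G
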