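import Pool.Agent.Lib.DN.G.Spec

/-!
# Theorem DN, part G, module UBb: elliptic units, Galois action
-/

set_option autoImplicit false

open scoped Pointwise

noncomputable section

namespace Pool.Agent.DN.G

open Pool.Agent.MuZ Pool.Agent.FW Pool.Agent.DN

open Pool.Agent.DI (io ofC io_inj exists_io io_ofC ofC_io VP MP UP TP ex)

variable {k t : ℕ}

private theorem UBb_lam [SqN k t] (b : Ideal (OO k t)) (v : OO k t) : toC v ∈ Lam b :=
  lam_anti le_top (lam_top.2 ⟨v, rfl⟩)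

theorem tUBb : S_UBb := by
  intro hO2 hO6 hO7 hE1 hE10 hA k t _ f m N T hH hN hT b hb hPb
  have hm : 0 < f * 2 ^ N := Nat.mul_pos hH.odd.pos (by positivity)
  have h15 : 15 ∣ f * 2 ^ N := hH.fif.mul_right _
  have hn : 0 < NI m := by
    refine Nat.pos_of_ne_zero fun h => hH.ne ?_
    exact ((hO2 k t).2.2.2.2.2.1 m).1 h
  have hdv : ∀ (a : Ideal (OO k t)) (i j : ℕ), i ∣ j → PrI a j → PrI a i := by
    intro a i j hij ha
    obtain ⟨c, rfl⟩ := hij
    exact (((hO6 k t).2.1 i c a).1 ha).1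
  have hGb : G15 b := ⟨hb, hdv b 15 _ (hH.fif.mul_left 2) hPb⟩
  have hm15 : PrI m 15 := hdv m 15 f hH.fif hH.cop
  have key : ∀ τ ∈ GK k t, ∀ a : Ideal (OO k t), Psi τ (f * 2 ^ N) a →
      τ (uN f N m T b) = uN f N m T (a * b) := by
    intro τ hτ a ha
    have hM : 0 < f * 2 ^ N * NI m := Nat.mul_pos hm hn
    have hM15 : 15 ∣ f * 2 ^ N * NI m := h15.mul_right _
    obtain ⟨a', ha'⟩ := (hE1 k t (f * 2 ^ N * NI m) hM hM15).1 τ hτ
    have ha2 : Psi τ (f * 2 ^ N) a' :=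
      (hE1 k t _ hM hM15).2.2.2.2 τ (f * 2 ^ N) a' ha' (dvd_mul_right _ _) h15
    have hray : Ray (f * 2 ^ N) a a' := (hE1 k t _ hm h15).2.1 τ a a' ha ha2
    have h1 : τ (uN f N m T b) = uN f N m T (a' * b) := by
      unfold uN
      rw [map_prod]
      refine Finset.prod_congr rfl fun t' _ => ?_
      refine ((hE10 k t τ (f * 2 ^ N * NI m) a' hM hM15 ha').2 m b hH.ne hGb hH.two hm15
        (dvd_mul_left _ _) _ ?_).2
      have hm' : ((f * 2 ^ N : ℕ) : ℂ) ≠ 0 := by exact_mod_cast hm.ne'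
      have e : ((f * 2 ^ N * NI m : ℕ) : ℂ) * (toC t' / ((f * 2 ^ N : ℕ) : ℂ)) = (NI m : ℂ) * toC t' := by
        rw [Nat.cast_mul]
        field_simp
      rw [e]
      exact lam_nat _ (UBb_lam b t')
    have h2 : uN f N m T (a' * b) = uN f N m T (a * b) := by
      have hab : a * b ≠ ⊥ := mul_ne_zero ha.ne hb
      have hPa : PrI a (2 * f) := by
        obtain ⟨n, rfl⟩ : ∃ n, N = n + 1 := ⟨N - 1, by omega⟩
        refine hdv a (2 * f) _ ?_ ha.cop
        exact ⟨15 * 2 ^ n, by ring⟩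
      have hPab : PrI (a * b) (2 * f) := ((hO6 k t).1 (2 * f) a b).2 ⟨hPa, hPb⟩
      refine (hA k t f m N T hH hN hT (a * b) hab hPab).2.2.1 (a' * b) ?_
      exact (hO7 k t _ hm).2.2.2.1 a a' b b hray ((hO7 k t _ hm).1 b)
    rw [h1, h2]
  refine ⟨?_, key⟩
  intro τ hτ a ha hHa
  rw [key τ hτ a ha]
  exact (hA k t f m N T hH hN hT b hb hPb).2.2.2.2.1 a hHa

end Pool.Agent.DN.G
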