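import Pool.Agent.Lib.DN.G.Spec

/-!
# Theorem DN, part G: units in `H_f`
-/

set_option autoImplicit false

open scoped Pointwise

noncomputable section

namespace Pool.Agent.DN.G

open Pool.Agent.MuZ Pool.Agent.FW Pool.Agent.DN
open Pool.Agent.DI (io ofC io_inj exists_io io_ofC ofC_io VP MP UP TP ex)

variable {k t : ℕ}

private theorem Un_sq [hI : Ine k t] (e : OO k t) (h : e * e = -1) : False := by
  have ht : (t : ℤ) = 1 := by
    have : t = 1 := hI.one
    exact_mod_cast this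
  have hk : 0 < k := hn (n := k) (t := t)
  have hk' : (1 : ℤ) ≤ k := by exact_mod_cast hk
  have h1 := congrArg QuadraticAlgebra.re h
  have h2 := congrArg QuadraticAlgebra.im h
  rw [re_mul, QuadraticAlgebra.re_neg, re_one] at h1
  rw [im_mul, QuadraticAlgebra.im_neg, im_one] at h2
  have h3 : e.im * (2 * e.re + e.im) = 0 := by
    linear_combination h2 - e.im * e.im * ht
  rcases mul_eq_zero.1 h3 with h4 | h4
  · rw [h4] at h1
    nlinarith [sq_nonneg e.re]
  · have h5 : e.im = -(2 * e.re) := by linarith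
    rw [h5] at h1
    have h6 : (4 * (k : ℤ) - 1) * (e.re * e.re) = 1 := by linear_combination -h1
    have h7 : (4 * (k : ℤ) - 1) ∣ 1 := ⟨_, h6.symm⟩
    have h8 := Int.le_of_dvd one_pos h7
    linarith

private theorem Un_pow [Ine k t] (j : ℕ) :
    ∀ e : OO k t, e ^ 2 ^ j = 1 → e = 1 ∨ e = -1 := by
  induction j with
  | zero =>
    intro e he
    rw [pow_zero, pow_one] at he
    exact Or.inl he
  | succ j ih =>
    intro e he
    have h1 : (e * e) ^ 2 ^ j = 1 := by
      rw [← pow_two, ← pow_mul, ← pow_succ']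
      exact he
    rcases ih (e * e) h1 with h2 | h2
    · have h3 : (e - 1) * (e + 1) = 0 := by linear_combination h2
      rcases mul_eq_zero.1 h3 with h4 | h4
      · exact Or.inl (sub_eq_zero.1 h4)
      · exact Or.inr (eq_neg_of_add_eq_zero_left h4)
    · exact (Un_sq e h2).elim

private theorem Un_Nm_pow (e : OO k t) (he : Nm e = 1) (j : ℕ) : Nm (e ^ j) = 1 := by
  induction j with
  | zero => rw [pow_zero]; exact Nm_one
  | succ j ih => rw [pow_succ, Nm_mul, ih, he, one_mul]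

theorem tUn : S_Un := by
  intro hO7 hCop hHNf k t _
  have p2 : ∀ (f : ℕ) (e : OO k t), 2 ≤ f → Nm e = 1 → Hf f e → e = 1 ∨ e = -1 := by
    intro f e hf he hH
    obtain ⟨-, j, hj⟩ := hH
    obtain ⟨-, -, -, -, -, -, -, -, h9, -⟩ := hO7 k t (2 * f) (by omega)
    exact Un_pow j e (h9 _ (by omega) (Un_Nm_pow e he _) hj)
  refine ⟨fun e _ j he => Un_pow j e he, p2, ?_⟩
  intro f N h h' hf hN hh hh' hR
  obtain ⟨-, -, -, -, cInv, -, -, -, cUp⟩ := hCop k t
  obtain ⟨-, hMul, -, hCon, -, hIv, -, hHc, -, -, -⟩ := hHNf k t f N hN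
  have hpos : 0 < f * 2 ^ N := Nat.mul_pos (by omega) (Nat.pos_of_ne_zero (by positivity))
  have hne : ∀ v : OO k t, Hf f v → v ≠ 0 := by
    intro v hv h0
    have h1 : IsCoprime (Nm v) ((2 * f : ℕ) : ℤ) := hv.1
    rw [h0, Nm_zero, isCoprime_zero_left, Int.isUnit_iff] at h1
    rcases h1 with h1 | h1
    · push_cast at h1
      omega
    · push_cast at h1
      omega
  obtain ⟨-, -, -, -, -, -, -, h8, -⟩ := hO7 k t (f * 2 ^ N) hpos
  have c1 := cUp f N h (hHc h hh)
  have c2 := cUp f N h' (hHc h' hh')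
  obtain ⟨e, he, hd⟩ := (h8 h h' (hne h hh) (hne h' hh') c1 c2).1 hR
  obtain ⟨u, -, -, hu⟩ := cInv h' (f * 2 ^ N) hpos c2
  have hdv : ((2 * f : ℕ) : OO k t) ∣ ((f * 2 ^ N : ℕ) : OO k t) := by
    obtain ⟨m, rfl⟩ : ∃ m, N = m + 1 := ⟨N - 1, by omega⟩
    refine ⟨((2 ^ m : ℕ) : OO k t), ?_⟩
    rw [← Nat.cast_mul]
    congr 1
    rw [pow_succ]
    ring
  have hHu : Hf f u := hIv h' u hh' (hdv.trans hu)
  have hHe : Hf f e := by
    refine hCon (h * u) e ?_ (hMul h u hh hHu)
    have h1 : ((f * 2 ^ N : ℕ) : OO k t) ∣ e - h * u := by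
      obtain ⟨a, ha⟩ := hd
      obtain ⟨b, hb⟩ := hu
      refine ⟨-(a * u) - e * b, ?_⟩
      linear_combination (-u) * ha - e * hb
    exact hdv.trans h1
  rcases p2 f e hf he hHe with h1 | h1
  · left
    rw [h1, one_mul] at hd
    exact hd
  · right
    rw [h1] at hd
    have e1 : h - -1 * h' = h + h' := by ring
    rwa [e1] at hd

end Pool.Agent.DN.G
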