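import Pool.Agent.Lib.DN.G.Spec

/-!
# Theorem DN, module V0: an element `= 1` modulo `2 f` with given norm modulo `2 ^ N`
-/

set_option autoImplicit false

open scoped Pointwise

noncomputable section

namespace Pool.Agent.DN.G

open Pool.Agent.MuZ Pool.Agent.FW Pool.Agent.DN
open Pool.Agent.DI (io ofC io_inj exists_io io_ofC ofC_io VP MP UP TP ex)

private lemma V0_surj (k f n : ℕ) (a : ℤ) (hf : Odd f) :
    ∃ y : ℤ, (2 : ℤ) ^ (n + 1) ∣ (f * y + 2 * k * (f * y) ^ 2) - a := by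
  obtain ⟨g, hg⟩ := hf
  let F : ZMod (2 ^ (n + 1)) → ZMod (2 ^ (n + 1)) := fun y =>
    (f : ZMod (2 ^ (n + 1))) * y + 2 * k * (f * y) ^ 2
  have hF : ∀ y : ℤ, F (y : ZMod (2 ^ (n + 1))) =
      ((f * y + 2 * k * (f * y) ^ 2 : ℤ) : ZMod (2 ^ (n + 1))) := by
    intro y
    push_cast
    rfl
  have hne : NeZero (2 ^ (n + 1)) := ⟨by positivity⟩
  have hinj : Function.Injective F := by
    intro y y' h
    obtain ⟨y, rfl⟩ := ZMod.intCast_surjective y
    obtain ⟨y', rfl⟩ := ZMod.intCast_surjective y'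
    rw [hF, hF, ZMod.intCast_eq_intCast_iff_dvd_sub] at h
    rw [ZMod.intCast_eq_intCast_iff_dvd_sub]
    push_cast at h ⊢
    have e : (f * y' + 2 * k * (f * y') ^ 2 - (f * y + 2 * k * (f * y) ^ 2) : ℤ) =
        (y' - y) * (2 * (g + k * f ^ 2 * (y + y')) + 1) := by
      have hg' : (f : ℤ) = 2 * g + 1 := by exact_mod_cast hg
      linear_combination (y' - y) * hg'
    rw [e] at h
    have hc : IsCoprime ((2 : ℤ) ^ (n + 1)) (2 * (g + k * f ^ 2 * (y + y')) + 1) := by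
      apply IsCoprime.pow_left
      exact ⟨-(g + k * f ^ 2 * (y + y')), 1, by ring⟩
    exact hc.dvd_of_dvd_mul_right h
  obtain ⟨y, hy⟩ := (Finite.injective_iff_surjective.1 hinj) (a : ZMod (2 ^ (n + 1)))
  obtain ⟨y, rfl⟩ := ZMod.intCast_surjective y
  rw [hF, eq_comm, ZMod.intCast_eq_intCast_iff_dvd_sub] at hy
  exact ⟨y, by exact_mod_cast hy⟩

theorem tV0 : S_V0 := by
  intro hC k t hI f N a hf ha
  have ht : (t : ℤ) = 1 := by exact_mod_cast hI.one
  obtain ⟨b, hb⟩ := ha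
  obtain ⟨y, hy⟩ := V0_surj k f N b hf
  have hN : Nm (⟨1, 2 * f * y⟩ : OO k t) = 1 + 2 * (f * y + 2 * k * (f * y) ^ 2) := by
    unfold Nm
    rw [ht]
    ring
  have hdv : ((2 * f : ℕ) : OO k t) ∣ (⟨1, 2 * f * y⟩ : OO k t) - 1 := by
    rw [nat_dvd_iff]
    constructor
    · rw [QuadraticAlgebra.re_sub, re_one]
      exact ⟨0, by ring⟩
    · rw [QuadraticAlgebra.im_sub, im_one]
      exact ⟨y, by push_cast; ring⟩
  refine ⟨⟨1, 2 * f * y⟩, ?_, hdv, ?_, ?_⟩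
  · intro h
    have := congrArg QuadraticAlgebra.re h
    simp at this
  · rw [hN, hb]
    have h1 : (1 + 2 * (f * y + 2 * k * (f * y) ^ 2) - (2 * b + 1) : ℤ) =
        2 * (f * y + 2 * k * (f * y) ^ 2 - b) := by ring
    rw [h1]
    exact ((pow_dvd_pow 2 (Nat.le_succ N)).trans hy).mul_left 2
  · refine cop_congr (a := 1) ?_ (cop_one _)
    rw [← neg_sub]
    exact (dvd_neg).2 hdv

end Pool.Agent.DN.G
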