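import Pool.Agent.Lib.DN.G.SpecB

/-!
# Theorem DN, part G: module `ChT` (the character: integrality, inertia, types)
-/

set_option autoImplicit false

open scoped Pointwise

noncomputable section

namespace Pool.Agent.DN.G

open Pool.Agent.MuZ Pool.Agent.FW Pool.Agent.DN
open Pool.Agent.DI (io ofC io_inj exists_io io_ofC ofC_io VP MP UP TP ex sqr sqr_sq kap)
open Pool.Agent.DN.GL (vP GE Cls IsR Hq Pt EE OA od)

variable {n t : ℕ}

private theorem ChT_pow {P : Ideal ZZ} (hP : P.IsPrime) {a b : Om} (ha : VP P a) (hb : VP P b)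
    (h : MP P (a - b)) (j : ℕ) : MP P (a ^ j - b ^ j) := by
  induction j with
  | zero => rw [pow_zero, pow_zero, sub_self]; exact DI.MP.zero
  | succ j ih =>
    rw [pow_succ, pow_succ]
    exact CV_mp_mul hP ha (DI.VP.pow hb j) ih h

/-- Lemma R. -/
private theorem ChT_one {P : Ideal ZZ} (hP : P.IsPrime) (h2 : MP P 2) {x : Om} {M : ℕ} (hM : Odd M)
    (hx : x ^ M = 1) (h : MP P (x - 1)) : x = 1 := by
  by_contra hne
  have hx1 : x - 1 ≠ 0 := sub_ne_zero.2 hne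
  have h3 : (∑ i ∈ Finset.range M, x ^ i) * (x - 1) = 0 := by
    rw [geom_sum_mul, hx, sub_self]
  have h4 : ∑ i ∈ Finset.range M, x ^ i = 0 := (mul_eq_zero.1 h3).resolve_right hx1
  have hV : VP P x := (CV_up_of_pow hP hM.pos hx).1
  have h5 : MP P (∑ i ∈ Finset.range M, (x ^ i - 1)) := by
    refine DI.MP.sum _ _ fun i _ => ?_
    have := ChT_pow hP hV DI.VP.one h i
    rwa [one_pow] at this
  rw [Finset.sum_sub_distrib, h4, Finset.sum_const, Finset.card_range, nsmul_eq_mul, mul_one,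
    zero_sub] at h5
  have h6 := DI.MP.neg h5
  rw [neg_neg] at h6
  exact (CV_up_oddN hP h2 hM).2 h6

/-- The cube roots of unity. -/
private theorem ChT_cube {w X : Om} (hw : w ^ 3 = 1) (hw1 : w ≠ 1) (hX : X ^ 3 = 1) :
    ∃ j : ℕ, j < 3 ∧ X = w ^ j := by
  have h1 : w ^ 2 + w + 1 = 0 := by
    have h2 : (w - 1) * (w ^ 2 + w + 1) = 0 := by linear_combination hw
    exact (mul_eq_zero.1 h2).resolve_left (sub_ne_zero.2 hw1)
  have h3 : (X - 1) * ((X - w) * (X - w ^ 2)) = 0 := by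
    linear_combination hX - (X - 1) * X * h1 + (X - 1) * hw
  rcases mul_eq_zero.1 h3 with h | h
  · exact ⟨0, by norm_num, by rw [pow_zero]; exact sub_eq_zero.1 h⟩
  · rcases mul_eq_zero.1 h with h | h
    · exact ⟨1, by norm_num, by rw [pow_one]; exact sub_eq_zero.1 h⟩
    · exact ⟨2, by norm_num, sub_eq_zero.1 h⟩

theorem tChT : S_ChT := by
  intro hLev hUnr hZt n t _ P hP f χ hf h15 hχ
  have hPp : P.IsPrime := hP.1.1
  have h2 : MP P 2 := hP.2
  have hf0 : 0 < f := hf.pos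
  have hF0 : 0 < 2 * f := by omega
  obtain ⟨-, hz, hzc, hzm, hz1⟩ := hZt n t P hP
  obtain ⟨m, hm, hχm⟩ := hχ.odd
  obtain ⟨-, -, h4c, -, -, h4q, -, h4w, h4s⟩ := aO4 n t
  obtain ⟨-, -, -, -, -, -, -, h7s, -⟩ := aO7 n t (2 * f) hF0
  -- elementary facts on `χ`
  have htop : χ ⊤ = 1 := by
    have h3 := hχm ⊤ top_ne_bot (CV_top _)
    have h5 : χ ⊤ * χ ⊤ = χ ⊤ := by rw [← hχ.mul, Ideal.top_mul]
    have h6 : χ ⊤ ≠ 0 := by
      intro h
      rw [h, zero_pow hm.pos.ne'] at h3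
      exact zero_ne_one h3
    exact mul_right_cancel₀ h6 (by rw [h5, one_mul])
  have hsp : ∀ (v : OO n t) (j : ℕ), χ (sp (v ^ j)) = χ (sp v) ^ j := by
    intro v j
    induction j with
    | zero => rw [pow_zero, pow_zero, CV_sp_one, htop]
    | succ j ih => rw [pow_succ, pow_succ, ← CV_sp_mul, hχ.mul, ih]
  have hcop2 : ∀ v : OO n t, (f : OO n t) ∣ v - 1 → Cop v 2 → Cop v (2 * f) :=
    fun v h3 h5 => CV_cop_mul.2 ⟨h5, CV_cop_of_dvd h3⟩
  have hxm : ∀ v : OO n t, Cop v (2 * f) → χ (sp v) ^ m = 1 := fun v h3 =>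
    hχm _ (CV_sp_ne (CV_ne_of_cop (by omega) h3)) (CV_pri_sp hF0 h3)
  have hcong : ∀ v v' : OO n t, Cop v (2 * f) → Cop v' (2 * f) →
      ((2 * f : ℕ) : OO n t) ∣ v - v' → χ (sp v) = χ (sp v') := by
    intro v v' h3 h3' h5
    have hv := CV_ne_of_cop (by omega) h3
    have hv' := CV_ne_of_cop (by omega) h3'
    refine hχ.ray _ _ (CV_sp_ne hv) (CV_sp_ne hv') (CV_pri_sp hF0 h3) (CV_pri_sp hF0 h3') ?_
    exact (h7s v v' hv hv' h3 h3').2 ⟨1, Nm_one, by rw [one_mul]; exact h5⟩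
  have h2f : Nat.Coprime 2 f := (Nat.coprime_two_left).2 hf
  have hcong2 : ∀ v v' : OO n t, (f : OO n t) ∣ v - 1 → Cop v 2 → (f : OO n t) ∣ v' - 1 → Cop v' 2 →
      (2 : OO n t) ∣ v - v' → χ (sp v) = χ (sp v') := by
    intro v v' h3 h3c h5 h5c h6
    refine hcong v v' (hcop2 v h3 h3c) (hcop2 v' h5 h5c) (CV_cast_mul h2f ?_ ?_)
    · rw [CV_cast_two]
      exact h6
    · have h7 := dvd_sub h3 h5
      rwa [sub_sub_sub_cancel_right] at h7
  have hztV : ∀ v : OO n t, Cop v 2 → UP P (zt P v) := fun v hv =>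
    CV_up_of_pow hPp (q := 3) (by norm_num) (hz v hv).1
  have hztM : ∀ (v : OO n t) (j : ℕ), Cop v 2 → MP P (zt P v ^ j - toO v ^ j) := fun v j hv =>
    ChT_pow hPp (hztV v hv).1 (toO_VP v) (hz v hv).2.1 j
  -- (2)
  have hTy : ∀ j : ℕ, Ty P f χ j → ∀ v : OO n t, (f : OO n t) ∣ v - 1 → Cop v 2 →
      χ (sp v) = zt P v ^ j := by
    intro j hj v h3 h5
    obtain ⟨x, hx⟩ : ∃ x : Om, x = χ (sp v) := ⟨_, rfl⟩
    obtain ⟨y, hy⟩ : ∃ y : Om, y = zt P v ^ j := ⟨_, rfl⟩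
    rw [← hx, ← hy]
    have hxm1 : x ^ m = 1 := by rw [hx]; exact hxm v (hcop2 v h3 h5)
    have hy3 : y ^ 3 = 1 := by
      rw [hy, ← pow_mul, mul_comm, pow_mul, (hz v h5).1, one_pow]
    have hyV : VP P y := (CV_up_of_pow hPp (q := 3) (by norm_num) hy3).1
    have h6 : MP P (x - y) := by
      have h7 := hj v h3 h5
      rw [← hx] at h7
      have h8 := hztM v j h5
      rw [← hy] at h8
      exact CV_mp_trans hPp h7 (CV_mp_symm h8)
    have h7 : x * y ^ 2 = 1 := by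
      refine ChT_one hPp h2 (M := 3 * m) ((by decide : Odd 3).mul hm) ?_ ?_
      · have e : (x * y ^ 2) ^ (3 * m) = (x ^ m) ^ 3 * (y ^ 3) ^ (2 * m) := by ring
        rw [e, hxm1, hy3, one_pow, one_pow, one_mul]
      · have e : x * y ^ 2 - 1 = (x - y) * y ^ 2 := by linear_combination hy3
        rw [e]
        exact DI.MP.mul_right h6 (DI.VP.pow hyV 2)
    linear_combination y * h7 - x * hy3
  -- (4)
  have hv0m : (⟨1 - f, f⟩ : OO n t) ∈ tm n t f := by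
    unfold tm
    rw [Finset.mem_insert, Finset.mem_insert]
    exact Or.inr (Or.inl rfl)
  obtain ⟨v0, hv0⟩ : ∃ v0 : OO n t, v0 = ⟨1 - f, f⟩ := ⟨_, rfl⟩
  rw [← hv0] at hv0m
  obtain ⟨hv0f, hv0c⟩ := CV_tm hf hv0m
  obtain ⟨s, hs⟩ := hf
  have hv0w : (2 : OO n t) ∣ v0 - wI n t := by
    rw [← CV_cast_two, nat_dvd_iff, QuadraticAlgebra.re_sub, QuadraticAlgebra.im_sub, hv0]
    change ((2 : ℕ) : ℤ) ∣ 1 - (f : ℤ) - 0 ∧ ((2 : ℕ) : ℤ) ∣ (f : ℤ) - 1
    push_cast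
    omega
  have hv01 : ¬ (2 : OO n t) ∣ v0 - 1 := by
    rw [← CV_cast_two, nat_dvd_iff, QuadraticAlgebra.re_sub, QuadraticAlgebra.im_sub, re_one, im_one,
      hv0]
    change ¬ (((2 : ℕ) : ℤ) ∣ 1 - (f : ℤ) - 1 ∧ ((2 : ℕ) : ℤ) ∣ (f : ℤ) - 0)
    push_cast
    omega
  have hω1 : zt P v0 ≠ 1 := by
    intro h
    have h3 : Cop (v0 - 1) 2 := (h4c _).2 hv01
    have h5 := (hz v0 hv0c).2.1
    rw [h] at h5
    have h6 : MP P (toO (v0 - 1)) := by
      rw [toO_sub, toO_one]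
      exact CV_mp_symm h5
    have h7 := DI.MP.add (hz _ h3).2.1 h6
    rw [sub_add_cancel] at h7
    exact (hztV _ h3).2 h7
  have hfpow : ∀ j : ℕ, (f : OO n t) ∣ v0 ^ j - 1 := fun j =>
    dvd_trans hv0f (sub_one_dvd_pow_sub_one v0 j)
  have hX3 : χ (sp v0) ^ 3 = 1 := by
    rw [← hsp, ← htop, ← CV_sp_one]
    refine hcong2 _ _ (hfpow 3) ?_ (by rw [sub_self]; exact dvd_zero _) (cop_one 2) (h4q v0 hv0c)
    have e : v0 ^ 3 = v0 * v0 * v0 := by ring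
    rw [e]
    exact cop_mul (cop_mul hv0c hv0c) hv0c
  obtain ⟨j, hj3, hj⟩ := ChT_cube (hz v0 hv0c).1 hω1 hX3
  have hjv : ∀ v : OO n t, (f : OO n t) ∣ v - 1 → Cop v 2 → χ (sp v) = zt P v ^ j := by
    intro v h3 h5
    rcases h4w v h5 with h | h | h
    · rw [hcong2 v 1 h3 h5 (by rw [sub_self]; exact dvd_zero _) (cop_one 2) h, CV_sp_one, htop,
        hzc v 1 h5 (cop_one 2) h, hz1, one_pow]
    · have h6 : (2 : OO n t) ∣ v - v0 := by
        have h7 := dvd_sub h hv0w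
        rwa [sub_sub_sub_cancel_right] at h7
      rw [hcong2 v v0 h3 h5 hv0f hv0c h6, hzc v v0 h5 hv0c h6, hj]
    · have h6 : (2 : OO n t) ∣ v - v0 ^ 2 := by
        have h7 := h4s v0 hv0c hv01
        have e : v - v0 ^ 2 = (v - (1 + wI n t)) - (v0 ^ 2 + v0 + 1) - (v0 - wI n t) + 2 * (v0 + 1) := by
          ring
        rw [e]
        exact dvd_add (dvd_sub (dvd_sub h h7) hv0w) (Dvd.intro _ rfl)
      have h8 : Cop (v0 ^ 2) 2 := by
        rw [pow_two]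
        exact cop_mul hv0c hv0c
      rw [hcong2 v (v0 ^ 2) h3 h5 (hfpow 2) h8 h6, hzc v (v0 ^ 2) h5 h8 h6, hsp, hj, pow_two v0,
        hzm v0 v0 hv0c hv0c]
      ring
  refine ⟨?_, hTy, ?_, ⟨j, hj3, ?_⟩, ⟨?_, ?_, ?_, ?_⟩, ?_⟩
  · -- (1)
    intro b
    by_cases hb : b = ⊥ ∨ ¬ PrI b (2 * f)
    · rw [hχ.zero b hb]
      exact ⟨DI.VP.zero, fun τ _ => map_zero τ⟩
    · push Not at hb
      have h3 := hχm b hb.1 hb.2
      refine ⟨(CV_up_of_pow hPp hm.pos h3).1, ?_⟩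
      have h5 : χ b ∈ EE n t (15 * m) := by
        refine (hLev n t (15 * m) (by have := hm.pos; omega) (Dvd.intro _ rfl)).2.2.2.1 _ ?_
        rw [mul_comm, pow_mul, h3, one_pow]
      exact ((hUnr n t P hP).2 (15 * m) ((by decide : Odd 15).mul hm) (Dvd.intro _ rfl) _ h5).1
  · -- (3)
    rintro h ⟨hc, i, hi⟩
    have hcp : Cop (h ^ 2 ^ i) (2 * f) := by
      have hgen : ∀ k : ℕ, Cop (h ^ k) (2 * f) := by
        intro k
        induction k with
        | zero => rw [pow_zero]; exact cop_one _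
        | succ k ih => rw [pow_succ]; exact cop_mul ih hc
      exact hgen _
    have h3 := hcong (h ^ 2 ^ i) 1 hcp (cop_one _) hi
    rw [hsp, CV_sp_one, htop] at h3
    have h5 := hxm h hc
    have h6 := pow_gcd_eq_one.2 ⟨h3, h5⟩
    have h7 : Nat.gcd (2 ^ i) m = 1 := Nat.Coprime.pow_left i ((Nat.coprime_two_left).2 hm)
    rwa [h7, pow_one] at h6
  · intro v h3 h5
    rw [hjv v h3 h5]
    exact hztM v j h5
  · intro b hb
    change χ b ^ 2 = 0
    rw [hχ.zero b hb]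
    exact zero_pow (by norm_num)
  · intro b b' h3 h5 h6 h7 h8
    change χ b ^ 2 = χ b' ^ 2
    rw [hχ.ray b b' h3 h5 h6 h7 h8]
  · intro a b
    change χ (a * b) ^ 2 = χ a ^ 2 * χ b ^ 2
    rw [hχ.mul, mul_pow]
  · refine ⟨m, hm, fun b h3 h5 => ?_⟩
    change (χ b ^ 2) ^ m = 1
    rw [← pow_mul, mul_comm, pow_mul, hχm b h3 h5, one_pow]
  · intro hT v h3 h5
    change MP P (χ (sp v) ^ 2 - toO v ^ 1)
    rw [hTy 2 hT v h3 h5]
    have e : (zt P v ^ 2) ^ 2 = zt P v ^ 1 := by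
      have h6 := (hz v h5).1
      linear_combination (zt P v) * h6
    rw [e]
    exact hztM v 1 h5

end Pool.Agent.DN.G
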