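import Pool.Agent.Lib.DN.G.SpecB

/-!
# Theorem DN, part G: Fou, the formula for `xs` (author helper71)
-/

set_option autoImplicit false

open scoped Pointwise

noncomputable section

namespace Pool.Agent.DN.G

open Pool.Agent.MuZ Pool.Agent.FW Pool.Agent.DN
open Pool.Agent.DI (io ofC io_inj exists_io io_ofC ofC_io VP MP UP TP ex sqr sqr_sq kap)
open Pool.Agent.DN.GL (vP GE Cls IsR Hq Pt EE OA od)

variable {n t : ℕ}

/-- The summand. -/
private def Ph (P : Ideal ZZ) (f N k : ℕ) (m b : Ideal (OO n t)) (c : ℤ) (v : OO n t) : Om :=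
  zt P v ^ k * (zet (2 ^ (N - 1)) ^ (c * (NI m * NI b * Nm v)) * gO m b (toC v / (f * 2 ^ N : ℕ)))

open Classical in
private theorem et_eq (h4 : S_C4) (hZ : GL.C_Zt) (hG : C_Gb) (hB : C_Bt) [Ine n t] {P : Ideal ZZ}
    (hP : Ab2 P) {f N : ℕ} (k : ℕ) {m b : Ideal (OO n t)} (hm : FM f m) (hb : FB f b) (hN : 3 ≤ N)
    (c : ℤ) :
    etE P f k m b (c / 2 ^ (N - 2)) = (2 ^ (N - 1) : Om)⁻¹ *
      ∑ p ∈ (Bx N).filter (fun p => Cop (bp (n := n) (t := t) f p) 2), Ph P f N k m b c (bp f p) := by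
  obtain ⟨hf0, hf15, -, hmf, hnodd, hncop, hn0⟩ := CV_fm hm
  have hq0 : 0 < 2 ^ (N - 1) := by positivity
  have hM : f * 2 ^ N = 2 * f * 2 ^ (N - 1) := by
    obtain ⟨N', rfl⟩ : ∃ N', N = N' + 1 := ⟨N - 1, by omega⟩
    rw [Nat.add_sub_cancel, pow_succ]
    ring
  obtain ⟨-, hB2⟩ := hB n t f N hm.odd
  obtain ⟨hB2, hB3⟩ := hB2 (by omega)
  have hg := hG n t P hP f N m b hm (by omega) hb
  have hcp : ∀ v : OO n t, (f : OO n t) ∣ v - 1 → Cop v 2 → Cop v (2 * f) := fun v h1 h2 =>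
    CV_cop_mul.2 ⟨h2, CV_cop_of_dvd h1⟩
  -- periodicity
  have hper : ∀ v u : OO n t, ((f : OO n t) ∣ v - 1 ∧ Cop v 2) → ((f : OO n t) ∣ u - 1 ∧ Cop u 2) →
      ((f * 2 ^ N : ℕ) : OO n t) ∣ v - u → Ph P f N k m b c v = Ph P f N k m b c u := by
    intro v u hv hu hvu
    have e1 : zt P v = zt P u := by
      refine (hZ n t P hP).2.2.1 v u hv.2 hu.2 ?_
      have h1 := CV_cast_dvd (M := 2) ⟨f * 2 ^ (N - 1), by rw [hM]; ring⟩ hvu
      rwa [CV_cast_two] at h1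
    have e2 : zet (2 ^ (N - 1)) ^ (c * (NI m * NI b * Nm v)) =
        zet (2 ^ (N - 1)) ^ (c * (NI m * NI b * Nm u)) := by
      refine CV_zet_congr hq0 ?_
      have h0 := CV_cast_dvd (M := 2 ^ (N - 1)) ⟨2 * f, by rw [hM]; ring⟩ hvu
      have h1 := Nm_congr h0
      have e : c * (NI m * NI b * Nm v) - c * (NI m * NI b * Nm u) =
          (Nm v - Nm u) * (c * (NI m * NI b)) := by ring
      rw [e]
      exact dvd_mul_of_dvd_left h1 _
    have e3 := (hg.2.1 v u (hcp v hv.1 hv.2) hvu).1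
    unfold Ph
    rw [e1, e2, e3]
  have key : ∀ α ∈ tm n t f, zt P α ^ k * etaM (2 * f) m (sp α * b) ((c / 2 ^ (N - 2) : ℚ) / 2) =
      (2 ^ (N - 1) : Om)⁻¹ *
        ∑ p ∈ Bx (N - 1), Ph P f N k m b c (α * ⟨1 + 2 * f * p.1, 2 * f * p.2⟩) := by
    intro α hα
    obtain ⟨hα1, hα2⟩ := CV_tm hm.odd hα
    have hαc := hcp α hα1 hα2
    have hfb : FB f (sp α * b) := CV_fb_mul (CV_fb_sp hf0 hαc) hb
    have hpr : PrI (sp α * b) (2 ^ (N - 1)) := CV_pri_pow (CV_fb hm hfb).2.1 (N - 1)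
    have hqc : (2 ^ (N - 1)).Coprime (NI m) :=
      Nat.Coprime.pow_left _ (Nat.coprime_two_left.2 hnodd)
    have hr : ((c / 2 ^ (N - 2) : ℚ) / 2) = ((c : ℚ) / ((2 ^ (N - 1) : ℕ) : ℚ)) := by
      obtain ⟨N', rfl⟩ : ∃ N', N = N' + 2 := ⟨N - 2, by omega⟩
      rw [show N' + 2 - 2 = N' from rfl, show N' + 2 - 1 = N' + 1 from rfl]
      push_cast
      rw [pow_succ, div_div]
    rw [hr, (h4 n t f m (sp α * b) hm hfb c (2 ^ (N - 1)) hq0 hqc).2.2 hpr]
    unfold Bx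
    have e1 : ((2 ^ (N - 1) : ℕ) : Om) = 2 ^ (N - 1) := by push_cast; rfl
    rw [Finset.sum_product, one_div, e1, mul_left_comm]
    congr 1
    rw [Finset.mul_sum]
    refine Finset.sum_congr rfl fun x _ => ?_
    rw [Finset.mul_sum]
    refine Finset.sum_congr rfl fun y _ => ?_
    have hu1 : ((2 * f : ℕ) : OO n t) ∣ (⟨1 + 2 * f * x, 2 * f * y⟩ : OO n t) - 1 := by
      rw [nat_dvd_iff, QuadraticAlgebra.re_sub, QuadraticAlgebra.im_sub, re_one, im_one]
      refine ⟨⟨x, ?_⟩, ⟨y, ?_⟩⟩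
      · change 1 + 2 * (f : ℤ) * x - 1 = ((2 * f : ℕ) : ℤ) * x
        push_cast
        ring
      · change 2 * (f : ℤ) * y - 0 = ((2 * f : ℕ) : ℤ) * y
        push_cast
        ring
    change zt P α ^ k * (zet (2 ^ (N - 1)) ^ (c * (NI m * NI (sp α * b) *
      Nm (⟨1 + 2 * f * x, 2 * f * y⟩ : OO n t))) * gO m (sp α * b)
        (toC (⟨1 + 2 * f * x, 2 * f * y⟩ : OO n t) / (2 * f * 2 ^ (N - 1) : ℕ))) =
      Ph P f N k m b c (α * (⟨1 + 2 * f * x, 2 * f * y⟩ : OO n t))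
    generalize (⟨1 + 2 * f * x, 2 * f * y⟩ : OO n t) = u at hu1 ⊢
    have huc : Cop u (2 * f) := CV_cop_of_dvd hu1
    have hu2 : Cop u 2 := (CV_cop_mul.1 huc).1
    have e2 : zt P α = zt P (α * u) := by
      refine (hZ n t P hP).2.2.1 α (α * u) hα2 (cop_mul hα2 hu2) ?_
      have h1 := CV_cast_dvd (M := 2) (Dvd.intro _ rfl) hu1
      rw [CV_cast_two] at h1
      have e : α - α * u = -(α * (u - 1)) := by ring
      rw [e]
      exact (dvd_mul_of_dvd_right h1 _).neg_right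
    have e3 : c * (NI m * NI (sp α * b) * Nm u) = c * (NI m * NI b * Nm (α * u)) := by
      rw [CV_NI_mul, Nm_mul, ← CV_NI_sp α]
      push_cast
      ring
    have e4 := hg.2.2.2.1 α u hα2 hα1 huc
    unfold Ph
    rw [e3, ← hM, e4, ← e2]
  unfold etE
  rw [Finset.sum_congr rfl key, ← Finset.mul_sum]
  congr 1
  have e := hB2.sum hB3 (Ph P f N k m b c) hper
  rw [e, Finset.sum_product]

private theorem od_ex {N : ℕ} (hN : 3 ≤ N) {s : ℤ} (hs : s % 2 = 1) : ∃ a ∈ od N, Pm N s a := by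
  obtain ⟨N', rfl⟩ : ∃ N', N = N' + 2 := ⟨N - 2, by omega⟩
  have e1 : N' + 2 - 1 = N' + 1 := rfl
  have hQ : (0 : ℤ) < 2 ^ (N' + 2) := by positivity
  have h1 := Int.emod_nonneg s hQ.ne'
  have h2 := Int.emod_lt_of_pos s hQ
  have h3 := Int.emod_add_mul_ediv s (2 ^ (N' + 2))
  obtain ⟨q, hq⟩ : ∃ q : ℤ, q = s / 2 ^ (N' + 2) := ⟨_, rfl⟩
  obtain ⟨r, hr⟩ : ∃ r : ℤ, r = s % 2 ^ (N' + 2) := ⟨_, rfl⟩
  obtain ⟨Q, hQ'⟩ : ∃ Q : ℤ, Q = 2 ^ N' := ⟨_, rfl⟩
  have e2 : (2 : ℤ) ^ (N' + 2) = 4 * Q := by rw [hQ']; ring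
  have e3 : ((2 ^ (N' + 1) : ℕ) : ℤ) = 2 * Q := by rw [hQ']; push_cast; ring
  rw [← hq, ← hr] at h3
  rw [← hr] at h1 h2
  have hr2 : r % 2 = 1 := by
    have e4 : s = r + 2 * (2 * Q * q) := by rw [e2] at h3; linarith
    omega
  rw [e2] at h2
  by_cases h : r < 2 * Q
  · refine ⟨r.toNat, ?_, ?_⟩
    · unfold od
      rw [Finset.mem_filter, Finset.mem_range, e1]
      constructor <;> omega
    · left
      rw [Int.toNat_of_nonneg h1]
      exact ⟨q, by linarith⟩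
  · refine ⟨(4 * Q - r).toNat, ?_, ?_⟩
    · unfold od
      rw [Finset.mem_filter, Finset.mem_range, e1]
      constructor <;> omega
    · right
      rw [Int.toNat_of_nonneg (by omega)]
      exact ⟨q + 1, by rw [e2] at h3 ⊢; linarith⟩

private theorem od_uni {N : ℕ} (hN : 3 ≤ N) {s : ℤ} {a a' : ℕ} (ha : a ∈ od N) (ha' : a' ∈ od N)
    (h : Pm N s a) (h' : Pm N s a') : a = a' := by
  unfold od at ha ha'
  rw [Finset.mem_filter, Finset.mem_range] at ha ha'
  have e : (2 : ℤ) ^ N = 2 * ((2 ^ (N - 1) : ℕ) : ℤ) := by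
    obtain ⟨N', rfl⟩ : ∃ N', N = N' + 1 := ⟨N - 1, by omega⟩
    rw [Nat.add_sub_cancel]
    push_cast
    ring
  have h1 : (2 : ℤ) ^ N ∣ (a : ℤ) - a' ∨ (2 : ℤ) ^ N ∣ (a : ℤ) + a' := by
    rcases h with h | h <;> rcases h' with h' | h'
    · left
      have := dvd_sub h' h
      rwa [show (s - a' - (s - a) : ℤ) = a - a' by ring] at this
    · right
      have := dvd_sub h' h
      rwa [show (s + a' - (s - a) : ℤ) = a + a' by ring] at this
    · right
      have := dvd_sub h h'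
      rwa [show (s + a - (s - a') : ℤ) = a + a' by ring] at this
    · left
      have := dvd_sub h h'
      rwa [show (s + a - (s + a') : ℤ) = a - a' by ring] at this
  rw [e] at h1
  generalize 2 ^ (N - 1) = Q at *
  rcases h1 with h1 | h1
  · have h2 := Int.eq_zero_of_abs_lt_dvd h1 (by rw [abs_lt]; constructor <;> omega)
    omega
  · have h2 := Int.eq_zero_of_abs_lt_dvd h1 (by rw [abs_lt]; constructor <;> omega)
    omega

open Classical in
private theorem od_sum {N : ℕ} (hN : 3 ≤ N) (s : ℤ) (F : ℤ → Om)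
    (hF : ∀ a : ℤ, Pm N s a → F a = F s) :
    (∑ a ∈ od N, if Pm N s a then F a else 0) = if s % 2 = 1 then F s else 0 := by
  by_cases hs : s % 2 = 1
  · rw [if_pos hs]
    obtain ⟨a, ha, h⟩ := od_ex hN hs
    rw [Finset.sum_eq_single a, if_pos h, hF _ h]
    · intro a' ha' hne
      rw [if_neg]
      intro h'
      exact hne (od_uni hN ha' ha h' h)
    · intro h1
      exact absurd ha h1
  · rw [if_neg hs]
    refine Finset.sum_eq_zero fun a ha => if_neg ?_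
    intro h
    apply hs
    unfold od at ha
    rw [Finset.mem_filter] at ha
    have h2 : (2 : ℤ) ∣ 2 ^ N := dvd_pow_self 2 (by omega)
    rcases h with h | h
    · have := dvd_trans h2 h
      omega
    · have := dvd_trans h2 h
      omega

private theorem cop2 (v : OO n t) : Cop v 2 ↔ Nm v % 2 = 1 := by
  unfold Cop
  constructor
  · rintro ⟨a, b, h⟩
    by_contra h1
    obtain ⟨x, hx⟩ : ∃ x : ℤ, Nm v = 2 * x := ⟨Nm v / 2, by omega⟩
    rw [hx] at h
    have h3 : (2 : ℤ) ∣ 1 := ⟨a * x + b, by push_cast at h; linarith⟩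
    omega
  · intro h
    exact ⟨1, -(Nm v / 2), by push_cast; omega⟩

/-- The factor. -/
private def zc (N ν : ℕ) (c a : ℤ) : Om :=
  zet (2 ^ (N - 1)) ^ (c * ν * a) + zet (2 ^ (N - 1)) ^ (-(c * ν * a))

private theorem zc_congr {N ν : ℕ} {c a s : ℤ} (h : Pm N s a) : zc N ν c a = zc N ν c s := by
  have hq0 : 0 < 2 ^ (N - 1) := by positivity
  have hd : ((2 ^ (N - 1) : ℕ) : ℤ) ∣ 2 ^ N := by
    push_cast
    exact pow_dvd_pow 2 (Nat.sub_le N 1)
  unfold zc
  rcases h with h | h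
  · have h1 := dvd_trans hd h
    rw [CV_zet_congr hq0 (a := c * ν * a) (b := c * ν * s) (by
        have e : c * ν * a - c * ν * s = (s - a) * (-(c * ν)) := by ring
        rw [e]
        exact dvd_mul_of_dvd_left h1 _),
      CV_zet_congr hq0 (a := -(c * ν * a)) (b := -(c * ν * s)) (by
        have e : -(c * ν * a) - -(c * ν * s) = (s - a) * (c * ν) := by ring
        rw [e]
        exact dvd_mul_of_dvd_left h1 _)]
  · have h1 := dvd_trans hd h
    rw [CV_zet_congr hq0 (a := c * ν * a) (b := -(c * ν * s)) (by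
        have e : c * ν * a - -(c * ν * s) = (s + a) * (c * ν) := by ring
        rw [e]
        exact dvd_mul_of_dvd_left h1 _),
      CV_zet_congr hq0 (a := -(c * ν * a)) (b := c * ν * s) (by
        have e : -(c * ν * a) - c * ν * s = (s + a) * (-(c * ν)) := by ring
        rw [e]
        exact dvd_mul_of_dvd_left h1 _), add_comm]

open Classical in
private theorem b_eq [Ine n t] {P : Ideal ZZ} {f N : ℕ} (k : ℕ) {m b : Ideal (OO n t)} (χb : Om)
    (hm : FM f m) (hb : FB f b) (hN : 3 ≤ N) (c : ℤ) :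
    χb * rO ⊤ b * (∑ p ∈ (Bx N).filter (fun p => Cop (bp (n := n) (t := t) f p) 2),
      (Ph P f N k m b c (bp f p) + Ph P f N k m b (-c) (bp f p))) =
    ∑ a ∈ od N, zc N (NI m) c a * ∑ p ∈ Bx N,
      if Pm N (NI b * Nm (bp (n := n) (t := t) f p)) a then
        χb * (zt P (bp (n := n) (t := t) f p) ^ k * gB f N m b (bp f p)) else 0 := by
  have hodd : (NI b : ℤ) % 2 = 1 := by
    have h := CV_NI_odd (CV_fb hm hb).2.1
    obtain ⟨j, hj⟩ := h
    omega
  have e1 : (∑ a ∈ od N, zc N (NI m) c a * ∑ p ∈ Bx N,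
      if Pm N (NI b * Nm (bp (n := n) (t := t) f p)) a then
        χb * (zt P (bp (n := n) (t := t) f p) ^ k * gB f N m b (bp f p)) else 0) =
      ∑ p ∈ Bx N, ∑ a ∈ od N, if Pm N (NI b * Nm (bp (n := n) (t := t) f p)) a then
        zc N (NI m) c a * (χb * (zt P (bp (n := n) (t := t) f p) ^ k * gB f N m b (bp f p))) else 0 := by
    rw [Finset.sum_comm]
    refine Finset.sum_congr rfl fun a _ => ?_
    rw [Finset.mul_sum]
    refine Finset.sum_congr rfl fun p _ => ?_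
    rw [mul_ite, mul_zero]
  rw [e1, Finset.sum_filter, Finset.mul_sum]
  refine Finset.sum_congr rfl fun p _ => ?_
  rw [od_sum hN (NI b * Nm (bp (n := n) (t := t) f p)) (fun a => zc N (NI m) c a *
    (χb * (zt P (bp (n := n) (t := t) f p) ^ k * gB f N m b (bp f p)))) (fun a ha => by
      rw [zc_congr ha])]
  have hc : Cop (bp (n := n) (t := t) f p) 2 ↔ ((NI b : ℤ) * Nm (bp (n := n) (t := t) f p)) % 2 = 1 := by
    rw [cop2, Int.mul_emod, hodd, one_mul]
    omega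
  by_cases h : Cop (bp (n := n) (t := t) f p) 2
  · rw [if_pos h, if_pos (hc.1 h)]
    unfold Ph gB zc
    generalize (bp f p : OO n t) = v
    have e2 : c * (NI m * NI b * Nm v) = c * NI m * (NI b * Nm v) := by ring
    have e3 : -c * (NI m * NI b * Nm v) = -(c * NI m * (NI b * Nm v)) := by ring
    rw [e2, e3]
    ring
  · rw [if_neg h, if_neg (fun h' => h (hc.2 h')), mul_zero]

theorem tFou : S_Fou := by
  classical
  intro h4 hZ hG hB n t _ P hP f N k m R χ hm hR hN c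
  have e0 : (-((c : ℚ) / 2 ^ (N - 2))) = ((-c : ℤ) : ℚ) / 2 ^ (N - 2) := by
    push_cast
    ring
  have key : ∀ b ∈ R, χ b * rO ⊤ b * (etE P f k m b ((c : ℚ) / 2 ^ (N - 2)) +
      etE P f k m b (-((c : ℚ) / 2 ^ (N - 2)))) = (2 ^ (N - 1) : Om)⁻¹ *
      ∑ a ∈ od N, zc N (NI m) c a * ∑ p ∈ Bx N,
      if Pm N (NI b * Nm (bp (n := n) (t := t) f p)) a then
        χ b * (zt P (bp (n := n) (t := t) f p) ^ k * gB f N m b (bp f p)) else 0 := by
    intro b hb
    rw [e0, et_eq h4 hZ hG hB hP k hm (hR b hb) hN c, et_eq h4 hZ hG hB hP k hm (hR b hb) hN (-c),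
      ← mul_add, ← Finset.sum_add_distrib, mul_left_comm, b_eq k (χ b) hm (hR b hb) hN c]
  have e2 : (2 ^ N : Om)⁻¹ = 2⁻¹ * (2 ^ (N - 1))⁻¹ := by
    obtain ⟨N', rfl⟩ : ∃ N', N = N' + 1 := ⟨N - 1, by omega⟩
    rw [Nat.add_sub_cancel, pow_succ, mul_inv, mul_comm]
  have e3 : (∑ a ∈ od N, (zet (2 ^ (N - 1)) ^ (c * NI m * a : ℤ) +
      zet (2 ^ (N - 1)) ^ (-(c * NI m * a) : ℤ)) * UU P f N k m R χ a) =
      c3 ^ k * ∑ a ∈ od N, ∑ b ∈ R, zc N (NI m) c a * ∑ p ∈ Bx N,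
      if Pm N (NI b * Nm (bp (n := n) (t := t) f p)) a then
        χ b * (zt P (bp (n := n) (t := t) f p) ^ k * gB f N m b (bp f p)) else 0 := by
    rw [Finset.mul_sum]
    refine Finset.sum_congr rfl fun a _ => ?_
    change zc N (NI m) c a * (c3 ^ k * SI f N R a (fun b v => χ b * (zt P v ^ k * gB f N m b v))) = _
    rw [mul_left_comm]
    congr 1
    unfold SI
    rw [Finset.mul_sum]
  unfold xs
  rw [Finset.sum_congr rfl key, ← Finset.mul_sum, Finset.sum_comm, e2, e3]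
  ring

end Pool.Agent.DN.G
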