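import Pool.Agent.Lib.DN.G.SpecB

/-!
# Theorem DN, part G, module GFin: the output of part G from the local step
-/

set_option autoImplicit false

open scoped Pointwise

noncomputable section

namespace Pool.Agent.DN.G

open Pool.Agent.MuZ Pool.Agent.FW Pool.Agent.DN
open Pool.Agent.DI (io ofC io_inj exists_io io_ofC ofC_io VP MP UP TP ex sqr sqr_sq kap)
open Pool.Agent.DN.GL (vP GE Cls IsR Hq Pt EE OA od)

/-- The square of a sum modulo `2`. -/
private theorem GFin_sq {P : Ideal ZZ} [P.IsPrime] (h2 : MP P 2) {ι : Type} (s : Finset ι) (x : ι → Om)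
    (hx : ∀ i ∈ s, VP P (x i)) : MP P ((∑ i ∈ s, x i) ^ 2 - ∑ i ∈ s, x i ^ 2) := by
  classical
  induction s using Finset.induction_on with
  | empty =>
    rw [Finset.sum_empty, Finset.sum_empty]
    have e : (0 : Om) ^ 2 - 0 = 0 := by ring
    rw [e]
    exact DI.MP.zero
  | insert a s ha ih =>
    rw [Finset.sum_insert ha, Finset.sum_insert ha]
    have h1 := ih fun i hi => hx i (Finset.mem_insert_of_mem hi)
    have h3 : VP P (x a) := hx a (Finset.mem_insert_self a s)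
    have h4 : VP P (∑ i ∈ s, x i) := DI.VP.sum _ _ fun i hi => hx i (Finset.mem_insert_of_mem hi)
    have e : (x a + ∑ i ∈ s, x i) ^ 2 - (x a ^ 2 + ∑ i ∈ s, x i ^ 2) =
        2 * (x a * ∑ i ∈ s, x i) + ((∑ i ∈ s, x i) ^ 2 - ∑ i ∈ s, x i ^ 2) := by ring
    rw [e]
    exact (DI.MP.mul_right h2 (h3.mul h4)).add h1

/-- The output of part G. -/
theorem tGFin : S_GFin := by
  intro hLS hG1 hChT n t _ f m χ P hf h15 hm hmt hm2 hmf hχ hP
  have : P.IsPrime := hP.1.1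
  obtain ⟨⟨R, hR, hRb⟩, -, -⟩ := aR2 n t f 2 hf.pos (by norm_num)
  have hFR : FR f R := fun b hb => ⟨(hR.mem b hb).1, hRb b hb⟩
  have hFM : FM f m := ⟨hf, h15, hm, hm2, hmf⟩
  have claim : ∀ (j : ℕ) (χ : Ideal (OO n t) → Om), (j = 0 ∨ j = 1) → IsChi (2 * f) χ → Ty P f χ j →
      ∃ N0 : ℕ, ∀ N : ℕ, N0 ≤ N → ∀ T : Finset (OO n t), IsRep f N T → ∀ D : Finset (Ideal (OO n t)),
        IsDS f N D → ∃ d : Gal(Om/ℚ), IsD n t f P d ∧
          ¬ MP P (∑ c ∈ D, χ c * ((kap (uN f N m T c) d).val : Om)) := by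
    intro j χ hj hχ hty
    by_contra hcon
    push Not at hcon
    have hk : j + 1 = 1 ∨ j + 1 = 2 := by omega
    have hty' : Ty P f χ (j + 1 - 1) := by
      rw [Nat.add_sub_cancel]
      exact hty
    have h1 := hLS n t f (j + 1) m R χ P hFM hFR hR hχ hP hk hty' (fun N0 => by
      obtain ⟨N, a1, T, a2, D, a3, a4⟩ := hcon N0
      exact ⟨N, a1, T, a2, D, a3, a4⟩)
    obtain ⟨c, i, h2⟩ := hG1 n t f (j + 1) m R χ P hFM hmt hFR hR hχ hP hk hty'
    exact h2 (h1 c i)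
  obtain ⟨c1, -, -, ⟨j, hj, hty⟩, c5, c6⟩ := hChT n t P hP f χ hf h15 hχ
  rcases Nat.lt_or_ge j 2 with hj2 | hj2
  · obtain ⟨N0, hN0⟩ := claim j χ (by omega) hχ hty
    refine ⟨max N0 3, le_max_right _ _, ?_⟩
    intro N hN T hT D hD
    obtain ⟨d, hd, hn⟩ := hN0 N (le_trans (le_max_left _ _) hN) T hT D hD
    exact ⟨d, hd.stab, hd.fix, hd.four, hn⟩
  · have hj' : j = 2 := by omega
    subst hj'
    obtain ⟨N0, hN0⟩ := claim 1 (fun b => χ b ^ 2) (Or.inr rfl) c5 (c6 hty)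
    refine ⟨max N0 3, le_max_right _ _, ?_⟩
    intro N hN T hT D hD
    obtain ⟨d, hd, hn⟩ := hN0 N (le_trans (le_max_left _ _) hN) T hT D hD
    refine ⟨d, hd.stab, hd.fix, hd.four, fun h1 => hn ?_⟩
    have hκ : ∀ x : ZMod 2, ((x.val : ℕ) : Om) ^ 2 = ((x.val : ℕ) : Om) := by
      intro x
      have h2 : x.val = 0 ∨ x.val = 1 := by
        have := ZMod.val_lt x
        omega
      rcases h2 with h2 | h2 <;> rw [h2] <;> simp
    have h3 := GFin_sq hP.2 D (fun c => χ c * ((kap (uN f N m T c) d).val : Om))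
      fun c _ => (c1 c).1.mul (DI.VP.nat _)
    have h4 : MP P ((∑ c ∈ D, χ c * ((kap (uN f N m T c) d).val : Om)) ^ 2) := by
      rw [sq]
      exact DI.MP.mul_right h1 h1.vp
    have h5 := h4.sub h3
    rw [sub_sub_cancel] at h5
    have e : ∑ c ∈ D, (χ c * ((kap (uN f N m T c) d).val : Om)) ^ 2 =
        ∑ c ∈ D, χ c ^ 2 * ((kap (uN f N m T c) d).val : Om) := by
      refine Finset.sum_congr rfl fun c _ => ?_
      rw [mul_pow, hκ]
    rw [e] at h5
    exact h5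

end Pool.Agent.DN.G
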