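import Pool.Agent.Lib.DN.G.SpecB

/-!
# Theorem DN, part G, module Gb: the terms `gB`: homogeneity, class function modulo `2 ^ N`

Author helper27.
-/

set_option autoImplicit false

open scoped Pointwise

noncomputable section

namespace Pool.Agent.DN.G

open Pool.Agent.MuZ Pool.Agent.FW Pool.Agent.DN
open Pool.Agent.DI (io ofC io_inj exists_io io_ofC ofC_io VP MP UP TP ex sqr sqr_sq kap)
open Pool.Agent.DN.GL (vP GE Cls IsR Hq Pt EE OA od)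

variable {n t : ℕ}

private theorem Gb_int [SqN n t] (b : Ideal (OO n t)) (c : OO n t) : toC c ∈ Lam b :=
  lam_anti le_top (lam_top.2 ⟨c, rfl⟩)

private theorem Gb_per [SqN n t] {m b : Ideal (OO n t)} (hm : m ≠ ⊥) (hb : b ≠ ⊥) (z : ℂ) {l : ℂ}
    (hl : l ∈ Lam b) : gC m b (z + l) = gC m b z := by
  unfold gC
  rw [(aB10 n t (m * b) (mul_ne_zero hm hb)).2.1 z l (lam_mono hl), (aB10 n t b hb).2.1 z l hl]

private theorem Gb_one [Ine n t] (hD9 : S_D9) {P : Ideal ZZ} (hP : Ab2 P) {f N : ℕ}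
    {m b : Ideal (OO n t)} (hf : FM f m) (hN : 1 ≤ N) (hb : FB f b) {v : OO n t}
    (hv : Cop v (2 * f)) : toC v / (f * 2 ^ N : ℕ) ∉ Lam (m * b) ∧
      VP P (gO m b (toC v / (f * 2 ^ N : ℕ))) ∧ Tor n t (toC v / (f * 2 ^ N : ℕ)) := by
  obtain ⟨hf0, -, hm15, -⟩ := CV_fm hf
  obtain ⟨hb15, -⟩ := CV_fb hf hb
  have hy : Hy f m := ⟨hf.odd, hf.dvd, hf.ne, hf.two, hf.cop⟩
  have hM : 0 < f * 2 ^ N := by positivity
  have hT : Tor n t (toC v / (f * 2 ^ N : ℕ)) := tor_div hM v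
  have hq := aNQ n t f N m b hy hN hb.ne hb.cop P hP.1 v hv
  refine ⟨fun h => ?_, ?_, hT⟩
  · have h1 := (hq _ (lam_neg h)).2
    rw [add_neg_cancel] at h1
    exact h1 (lam_zero b)
  · exact (hD9 n t P hP m b hf.ne hb15 hf.two hm15 _ hT fun u hu => (hq u hu).1).1

private theorem Gb_rO [Ine n t] (hD2 : S_D2) {P : Ideal ZZ} (hP : Ab2 P) {f : ℕ}
    {m b : Ideal (OO n t)} (hf : FM f m) (hb : FB f b) : UP P (rO (⊤ : Ideal (OO n t)) b) := by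
  obtain ⟨hb15, hb2, -⟩ := CV_fb hf hb
  obtain ⟨ht15, -⟩ := CV_fb hf (CV_fb_top (n := n) (t := t) f)
  have h := (hD2 n t P hP ⊤ ht15).2.2.2.2.2.2 b hb.ne hb2 hb15.cop
  rwa [Ideal.mul_top] at h

private theorem Gb_zmul [SqN n t] (M : ℕ) (v u : OO n t) :
    toC (v * u) / (M : ℂ) = toC v * (toC u / M) := by
  rw [toC_mul]
  ring

/-- The image of `gO` of `sp v * b`. -/
private theorem Gb_gC [Ine n t] {m b : Ideal (OO n t)} (hm : m ≠ ⊥) (hb : b ≠ ⊥) {v : OO n t}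
    (hv : v ≠ 0) (z : ℂ) : gC m (sp v * b) z =
      toC v * (KC (m * b) (toC v * z) - NI m * KC b (toC v * z)) / fr (sp v * b) := by
  have h1 := (((aB7 n t b hb).1 v hv).1 z).2.2
  have h2 := (((aB7 n t (m * b) (mul_ne_zero hm hb)).1 v hv).1 z).2.2
  unfold gC
  rw [mul_left_comm m (sp v) b, h1, h2]
  ring

private theorem Gb_fr [Ine n t] {b : Ideal (OO n t)} (hb : G15 b) : fr b ≠ 0 :=
  ((aB1 n t b hb.ne).2.2.2.2.2 hb.cop).1

private theorem Gb_hom [Ine n t] (hR1 : S_R1) (hD9 : S_D9) {P : Ideal ZZ} (hP : Ab2 P) {f N : ℕ}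
    {m b : Ideal (OO n t)} (hf : FM f m) (hN : 1 ≤ N) (hb : FB f b) {v u : OO n t}
    (hv : Cop v (2 * f)) (hu : Cop u (2 * f)) :
    gB f N m (sp v * b) u = toO v * gB f N m b (v * u) := by
  obtain ⟨hf0, -, hm15, -⟩ := CV_fm hf
  have h2f : 2 ≤ 2 * f := by omega
  have hv0 : v ≠ 0 := CV_ne_of_cop h2f hv
  have hvb : FB f (sp v * b) := CV_fb_mul (CV_fb_sp hf0 hv) hb
  have hb15 := (CV_fb hf hb).1
  have hvb15 := (CV_fb hf hvb).1
  have ht15 := (CV_fb hf (CV_fb_top (n := n) (t := t) f)).1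
  obtain ⟨z1, -, z3⟩ := Gb_one hD9 hP hf hN hvb hu
  obtain ⟨w1, -, w3⟩ := Gb_one hD9 hP hf hN hb (cop_mul hv hu)
  obtain ⟨r1, r2⟩ := hR1.1 n t
  have hr := (r1 ⊤ ht15).2.2.2
  unfold gB
  apply io_inj
  rw [map_mul, map_mul, map_mul, (hr _ hvb15).1, (hr _ hb15).1, io_toO,
    r2 m (sp v * b) hf.ne hvb15 hf.two hm15 _ z3 z1, r2 m b hf.ne hb15 hf.two hm15 _ w3 w1,
    Gb_gC hf.ne hb.ne hv0, Gb_zmul]
  unfold gC
  have e1 := Gb_fr hb15
  have e2 := Gb_fr hvb15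
  have e3 := Gb_fr ht15
  field_simp

private theorem Gb_four [Ine n t] (hR1 : S_R1) (hD9 : S_D9) {P : Ideal ZZ} (hP : Ab2 P) {f N : ℕ}
    {m b : Ideal (OO n t)} (hf : FM f m) (hN : 1 ≤ N) (hb : FB f b) {v u : OO n t}
    (hv : Cop v 2) (hvf : (f : OO n t) ∣ v - 1) (hu : Cop u (2 * f)) :
    gO m (sp v * b) (toC u / (f * 2 ^ N : ℕ)) = gO m b (toC (v * u) / (f * 2 ^ N : ℕ)) := by
  have hv2 : Cop v (2 * f) := CV_cop_mul.2 ⟨hv, CV_cop_of_dvd hvf⟩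
  obtain ⟨hf0, -, hm15, -⟩ := CV_fm hf
  have h2f : 2 ≤ 2 * f := by omega
  have hv0 : v ≠ 0 := CV_ne_of_cop h2f hv2
  have hvb : FB f (sp v * b) := CV_fb_mul (CV_fb_sp hf0 hv2) hb
  have hb15 := (CV_fb hf hb).1
  have hvb15 := (CV_fb hf hvb).1
  obtain ⟨z1, -, z3⟩ := Gb_one hD9 hP hf hN hvb hu
  obtain ⟨w1, -, w3⟩ := Gb_one hD9 hP hf hN hb (cop_mul hv2 hu)
  obtain ⟨-, r2⟩ := hR1.1 n t
  have h3 : (3 : OO n t) ∣ v - 1 := by
    have h := CV_cast_dvd (N := f) (M := 3) (by obtain ⟨c, rfl⟩ := hf.dvd; exact ⟨5 * c, by ring⟩) hvf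
    exact_mod_cast h
  have h5 : (5 : OO n t) ∣ v - 1 := by
    have h := CV_cast_dvd (N := f) (M := 5) (by obtain ⟨c, rfl⟩ := hf.dvd; exact ⟨3 * c, by ring⟩) hvf
    exact_mod_cast h
  have hfr := (((aB7 n t b hb.ne).2.2 hb15.cop).1 v hv0 h3 (Or.inl h5)).1
  apply io_inj
  rw [r2 m (sp v * b) hf.ne hvb15 hf.two hm15 _ z3 z1, r2 m b hf.ne hb15 hf.two hm15 _ w3 w1,
    Gb_gC hf.ne hb.ne hv0, Gb_zmul, hfr]
  unfold gC
  have e1 := Gb_fr hb15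
  have e2 := toC_ne hv0
  field_simp

theorem tGb : S_Gb := by
  intro hR1 hD2 hD9 n t _ P hP f N m b hf hN hb
  have hpr : P.IsPrime := hP.1.1
  obtain ⟨hf0, -, hm15, -⟩ := CV_fm hf
  have hM : 0 < f * 2 ^ N := by positivity
  have hMC : (((f * 2 ^ N : ℕ)) : ℂ) ≠ 0 := by exact_mod_cast hM.ne'
  have p1 : ∀ b : Ideal (OO n t), FB f b → ∀ v : OO n t, Cop v (2 * f) →
      toC v / (f * 2 ^ N : ℕ) ∉ Lam (m * b) ∧ VP P (gO m b (toC v / (f * 2 ^ N : ℕ))) ∧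
      VP P (gB f N m b v) := by
    intro b hb v hv
    obtain ⟨z1, z2, -⟩ := Gb_one hD9 hP hf hN hb hv
    exact ⟨z1, z2, (Gb_rO hD2 hP hf hb).1.mul z2⟩
  have p2 : ∀ b : Ideal (OO n t), FB f b → ∀ v u : OO n t, ((f * 2 ^ N : ℕ) : OO n t) ∣ v - u →
      gO m b (toC v / (f * 2 ^ N : ℕ)) = gO m b (toC u / (f * 2 ^ N : ℕ)) ∧
      gB f N m b v = gB f N m b u := by
    intro b hb v u h
    obtain ⟨c, hc⟩ := h
    have e1 : toC v / (f * 2 ^ N : ℕ) = toC u / (f * 2 ^ N : ℕ) + toC c := by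
      have h1 := congrArg toC hc
      rw [toC_sub, toC_mul, toC_nat] at h1
      field_simp
      linear_combination h1
    have e2 : gO m b (toC v / (f * 2 ^ N : ℕ)) = gO m b (toC u / (f * 2 ^ N : ℕ)) := by
      unfold gO
      rw [e1, Gb_per hf.ne hb.ne _ (Gb_int b c)]
    refine ⟨e2, ?_⟩
    unfold gB
    rw [e2]
  refine ⟨p1 b hb, fun v u _ h => p2 b hb v u h, fun v u hv hu => Gb_hom hR1 hD9 hP hf hN hb hv hu,
    fun v u hv hvf hu => Gb_four hR1 hD9 hP hf hN hb hv hvf hu, ?_⟩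
  rintro b' hb' ⟨α, α', hα, hα', hcα, hcα', hd, he⟩
  obtain ⟨β, hcβ, hβ⟩ := cop_inv hcα
  have d1 : ((f * 2 ^ N : ℕ) : OO n t) ∣ α * β - 1 := hβ
  have d2 : ((f * 2 ^ N : ℕ) : OO n t) ∣ α' * β - 1 := by
    have e : α' * β - 1 = (α * β - 1) - (α - α') * β := by ring
    rw [e]
    exact dvd_sub hβ (hd.mul_right _)
  have h2f : 2 * f ∣ f * 2 ^ N := by
    obtain ⟨j, rfl⟩ : ∃ j, N = j + 1 := ⟨N - 1, by omega⟩
    exact ⟨2 ^ j, by rw [pow_succ]; ring⟩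
  have c1 : Cop (α * β) (2 * f) := cop_dvd (CV_cop_of_dvd d1) h2f
  have c2 : Cop (α' * β) (2 * f) := cop_dvd (CV_cop_of_dvd d2) h2f
  have c0 : Cop (1 : OO n t) (2 * f) := cop_one _
  have eI : sp (α * β) * b = sp (α' * β) * b' := by
    rw [← CV_sp_mul, ← CV_sp_mul, mul_comm (sp α), mul_comm (sp α'), mul_assoc, mul_assoc, he]
  have g1 := Gb_hom hR1 hD9 hP hf hN hb c1 c0
  have g2 := Gb_hom hR1 hD9 hP hf hN hb' c2 c0
  have g3 := (p2 b hb (α * β * 1) 1 (by rw [mul_one]; exact d1)).2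
  have g4 := (p2 b' hb' (α' * β * 1) 1 (by rw [mul_one]; exact d2)).2
  rw [eI, g2, g3, g4] at g1
  have d3 : ((2 ^ N : ℕ) : OO n t) ∣ α' * β - α * β := by
    have e : α' * β - α * β = (α' * β - 1) - (α * β - 1) := by ring
    rw [e]
    exact CV_cast_dvd (N := f * 2 ^ N) (Dvd.intro_left f rfl) (dvd_sub d2 d1)
  have key : toO (α * β) * (gB f N m b 1 - gB f N m b' 1) =
      toO (α' * β - α * β) * gB f N m b' 1 := by
    rw [toO_sub]
    linear_combination -g1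
  have hge : GE P N (toO (α * β) * (gB f N m b 1 - gB f N m b' 1)) := by
    rw [key]
    refine GL.GE.mul_right hP.2 ?_ (p1 b' hb' 1 c0).2.2
    obtain ⟨c, hc⟩ := d3
    rw [hc, toO_mul, toO_nat]
    refine GL.GE.mul_right hP.2 ?_ (toO_VP c)
    right
    push_cast
    rw [GL.vP_pow hP.2 two_ne_zero, GL.vP_two hP.2, mul_one]
  have hup : UP P (toO (α * β)) := by
    refine DI.UP.congr DI.UP.one ?_
    obtain ⟨c, hc⟩ := CV_cast_dvd h2f d1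
    have e : toO (α * β) - 1 = 2 * ((f : Om) * toO c) := by
      have h1 := congrArg toO hc
      rw [toO_sub, toO_one, toO_mul ((2 * f : ℕ) : OO n t) c, toO_nat] at h1
      rw [h1]
      push_cast
      ring
    rw [e]
    exact DI.MP.mul_right hP.2 ((DI.VP.nat f).mul (toO_VP c))
  have hfin := GL.GE.mul_left hP.2 hup.inv.1 hge
  rwa [inv_mul_cancel_left₀ hup.ne_zero] at hfin

end Pool.Agent.DN.G
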