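import Pool.Agent.Lib.DN.G.SpecB

/-!
# Theorem DN, part G, module LSm: `S_LS`, the end of the local step
-/

set_option autoImplicit false

open scoped Pointwise

noncomputable section

namespace Pool.Agent.DN.G

open Pool.Agent.MuZ Pool.Agent.FW Pool.Agent.DN
open Pool.Agent.DI (io ofC io_inj exists_io io_ofC ofC_io VP MP UP TP ex sqr sqr_sq kap)
open Pool.Agent.DN.GL (vP GE Cls IsR Hq Pt EE OA od)

/-! ## Roots of unity -/

private theorem LSm_zm {q l : ℕ} (hq : 0 < q) (hl : 0 < l) : zet (q * l) ^ l = zet q := by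
  apply io_inj
  have hq' : (q : ℂ) ≠ 0 := by exact_mod_cast hq.ne'
  have hl' : (l : ℂ) ≠ 0 := by exact_mod_cast hl.ne'
  rw [map_pow, CV_io_zet (Nat.mul_pos hq hl), CV_io_zet hq]
  unfold ex
  rw [← Complex.exp_nat_mul]
  congr 1
  push_cast
  field_simp

private theorem LSm_prim {q : ℕ} (hq : 0 < q) : IsPrimitiveRoot (zet q) q := by
  have h : IsPrimitiveRoot (ex (1 / q)) q := by
    have h0 : (ex (1 / q) : ℂ) = Complex.exp (2 * Real.pi * Complex.I / q) := by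
      unfold ex
      congr 1
      ring
    rw [h0]
    exact Complex.isPrimitiveRoot_exp q hq.ne'
  rw [← CV_io_zet hq] at h
  exact h.of_map_of_injective io_inj

private theorem LSm_mp {P : Ideal ZZ} (hP : Ab2 P) : ∀ (i : ℕ) (x : Om), x ^ 2 ^ i = 1 → MP P (x - 1)
  | 0, x, h => by
    have := hP.1.1
    rw [pow_zero, pow_one] at h
    rw [h, sub_self]
    exact DI.MP.zero
  | i + 1, x, h => by
    have := hP.1.1
    have h1 : (x ^ 2) ^ 2 ^ i = 1 := by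
      rw [← pow_mul, ← pow_succ']
      exact h
    have h2 := LSm_mp hP i _ h1
    have hx : VP P x := (CV_up_of_pow hP.1.1 (by positivity) h).1
    have h3 : MP P ((x - 1) ^ 2) := by
      have e : (x - 1) ^ 2 = (x ^ 2 - 1) - 2 * (x - 1) := by ring
      rw [e]
      exact h2.sub (hP.2.mul_right (hx.sub DI.VP.one))
    exact h3.of_pow

private theorem LSm_pw {η : Om} {M : ℕ} (hη : η ^ M = 1) {a b : ℕ} (h : (M : ℤ) ∣ (a : ℤ) - b) :
    η ^ a = η ^ b := by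
  have h1 : a ≡ b [MOD M] := by
    rw [← Int.natCast_modEq_iff]
    exact (Int.modEq_iff_dvd.2 h).symm
  have h2 : a % M = b % M := h1
  rw [← pow_mod_orderOf η a, ← pow_mod_orderOf η b]
  have h3 : orderOf η ∣ M := orderOf_dvd_of_pow_eq_one hη
  have h4 : a ≡ b [MOD orderOf η] := h1.of_dvd h3
  rw [h4]

private theorem LSm_pwi {η : Om} {M : ℕ} (hM : 0 < M) (hη : η ^ M = 1) {a : ℕ} (h : (M : ℤ) ∣ (a : ℤ) + 1) :
    η ^ a = η⁻¹ := by
  have h0 : η ≠ 0 := by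
    rintro rfl
    rw [zero_pow hM.ne'] at hη
    exact zero_ne_one hη
  have h1 : η ^ (a + 1) = η ^ 0 := LSm_pw hη (by push_cast; rw [sub_zero]; exact h)
  rw [pow_zero, pow_succ] at h1
  exact eq_inv_of_mul_eq_one_left h1

variable {n t : ℕ} [Ine n t]

/-- The formula for the difference. -/
private theorem LSm_fou (hFou : C_Fou) {P : Ideal ZZ} (hP : Ab2 P) {f N k : ℕ} {m : Ideal (OO n t)}
    {R : Finset (Ideal (OO n t))} (χ : Ideal (OO n t) → Om) (hm : FM f m) (hR : FR f R) {j : ℕ}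
    (hN : 3 ≤ N) (hj : j + 2 ≤ N) (c : ℤ) :
    xs P f k m R χ (c / 2 ^ j) - xs P f k m R χ 0 =
      (2 ^ N)⁻¹ * ∑ a ∈ od N, ((zet (2 ^ (j + 1)) ^ (c * NI m : ℤ)) ^ a +
        ((zet (2 ^ (j + 1)) ^ (c * NI m : ℤ)) ^ a)⁻¹ - 2) * UU P f N k m R χ a := by
  have h1 := hFou n t P hP f N k m R χ hm hR hN (c * 2 ^ (N - 2 - j))
  have h0 := hFou n t P hP f N k m R χ hm hR hN 0
  have e1 : (((c * 2 ^ (N - 2 - j) : ℤ) : ℚ) / 2 ^ (N - 2)) = c / 2 ^ j := by
    have e : N - 2 = (N - 2 - j) + j := by omega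
    have e' : (2 : ℚ) ^ (N - 2) = 2 ^ (N - 2 - j) * 2 ^ j := by
      rw [← pow_add, ← e]
    rw [e']
    push_cast
    field_simp
  have e0 : (((0 : ℤ) : ℚ) / 2 ^ (N - 2)) = 0 := by
    rw [Int.cast_zero, zero_div]
  rw [e1] at h1
  rw [e0] at h0
  rw [h1, h0, ← mul_sub, ← Finset.sum_sub_distrib]
  congr 1
  refine Finset.sum_congr rfl fun a _ => ?_
  have hz : zet (2 ^ (N - 1)) ^ (c * 2 ^ (N - 2 - j) * NI m * a : ℤ) =
      (zet (2 ^ (j + 1)) ^ (c * NI m : ℤ)) ^ a := by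
    have e : 2 ^ (N - 1) = 2 ^ (j + 1) * 2 ^ (N - 2 - j) := by
      rw [← pow_add]
      congr 1
      omega
    rw [← LSm_zm (q := 2 ^ (j + 1)) (l := 2 ^ (N - 2 - j)) (by positivity) (by positivity), ← e,
      ← zpow_natCast (zet (2 ^ (N - 1))) (2 ^ (N - 2 - j)), ← zpow_mul, ← zpow_natCast, ← zpow_mul]
    congr 1
    push_cast
    ring
  rw [zpow_neg, hz]
  simp only [zero_mul, neg_zero, zpow_zero]
  ring

theorem tLSm : S_LSm := by
  intro hIn hAct hSur hTrZ hU1 hUAct hFou n t _ f k m R χ P hm hR hRC hχ hP hk hty hyp c j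
  have hPp := hP.1.1
  have h2 := hP.2
  obtain ⟨η, hη⟩ : ∃ η, η = zet (2 ^ (j + 1)) ^ (c * NI m : ℤ) := ⟨_, rfl⟩
  have hj1 : (0 : ℕ) < 2 ^ (j + 1) := by positivity
  have hη1 : η ^ 2 ^ (j + 1) = 1 := by
    rw [hη, ← zpow_natCast, ← zpow_mul, mul_comm, zpow_mul, zpow_natCast, CV_zet_pow hj1, one_zpow]
  have hη0 : η ≠ 0 := by
    rintro h
    rw [h, zero_pow hj1.ne'] at hη1
    exact zero_ne_one hη1
  by_cases hηe : η = 1
  · have h := LSm_fou hFou hP (k := k) χ hm hR (N := j + 3) (j := j) (by omega) (by omega) c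
    rw [← hη, hηe] at h
    rw [h]
    have e : ∑ a ∈ od (j + 3), ((1 : Om) ^ a + (1 ^ a)⁻¹ - 2) * UU P f (j + 3) k m R χ a = 0 := by
      refine Finset.sum_eq_zero fun a _ => ?_
      rw [one_pow, inv_one]
      norm_num
    rw [e, mul_zero]
    exact DI.MP.zero
  -- the number `κ`
  obtain ⟨κ, hκ⟩ : ∃ κ, κ = η + η⁻¹ - 2 := ⟨_, rfl⟩
  have hηu : UP P η := CV_up_of_pow hPp hj1 hη1
  have hκe : κ = (η - 1) ^ 2 / η := by
    rw [hκ]
    field_simp
    ring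
  have hκ0 : κ ≠ 0 := by
    rw [hκe]
    exact div_ne_zero (pow_ne_zero 2 (sub_ne_zero.2 hηe)) hη0
  have hκm : MP P κ := by
    have h := LSm_mp hP _ _ hη1
    rw [hκe, div_eq_mul_inv, pow_two]
    exact (h.mul_right h.vp).mul_right hηu.inv.1
  obtain ⟨v, hv⟩ : ∃ v, v = vP P κ := ⟨_, rfl⟩
  have hvpos : 0 < v := by
    rw [hv]
    exact (GL.vP_pos h2 hκ0).2 hκm
  obtain ⟨N1, hN1⟩ := exists_nat_gt (5 / v)
  obtain ⟨N, hN, T, hT, D, hD, hd⟩ := hyp (max 3 (max (j + 2) N1))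
  have hN3 : 3 ≤ N := (le_max_left _ _).trans hN
  have hNj : j + 2 ≤ N := (le_max_left _ _).trans ((le_max_right _ _).trans hN)
  have hNN : N1 ≤ N := (le_max_right _ _).trans ((le_max_right _ _).trans hN)
  have hNp : (0 : ℕ) < 2 ^ N := by positivity
  have hsm : (5 : ℚ) / 2 ^ N < v := by
    have h1 : (5 : ℚ) / v < 2 ^ N := by
      refine hN1.trans_le ?_
      have h3 : N1 ≤ 2 ^ N := hNN.trans Nat.lt_two_pow_self.le
      exact_mod_cast h3
    rw [div_lt_iff₀ (by positivity)]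
    rw [div_lt_iff₀ hvpos] at h1
    linarith
  have hU := hU1 n t P hP f N k m R χ T D hm hR hRC hχ hk hty hN3 hT hD hd
  obtain ⟨hA1, hA2⟩ := hUAct n t P hP f N k m R χ hm hR hχ (by omega)
  have hη2 : η ^ 2 ^ N = 1 := by
    have e : 2 ^ N = 2 ^ (j + 1) * 2 ^ (N - (j + 1)) := by
      rw [← pow_add]
      congr 1
      omega
    rw [e, pow_mul, hη1, one_pow]
  obtain ⟨z, hz⟩ : ∃ z, z = κ * UU P f N k m R χ 1 / 4 := ⟨_, rfl⟩
  have h4 : vP P 4 = 2 := by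
    have e : (4 : Om) = 2 ^ 2 := by norm_num
    rw [e, GL.vP_two_pow h2]
    norm_num
  have hzm : MP P z := by
    have h := ((show GE P v κ from Or.inr hv.le).mul h2 hU).div h2 (y := 4) (by norm_num)
    rw [h4] at h
    rw [hz]
    exact h.mp h2 (by linarith)
  obtain ⟨hf0, -, hm15, -, hmo, -, hm0⟩ := CV_fm hm
  have hf'o : Odd (f * NI m) := hm.odd.mul hmo
  have hf'15 : 15 ∣ f * NI m := Dvd.dvd.mul_right hm.dvd _
  have htop : G15 (⊤ : Ideal (OO n t)) := ⟨(CV_fb_top (n := n) (t := t) f).ne, CV_top _⟩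
  have hroot : ∀ (h : OO n t) (τ : Gal(Om/ℚ)), Cls P (f * NI m) N h τ → ∀ ζ : Om, ζ ^ 2 ^ N = 1 →
      τ ζ = ζ ^ (Nm h).toNat := fun h τ hc =>
    (hAct n t P hP _ N h τ hf'o hf'15 hc ⊤ htop).2.2.2.2.2.1
  -- the inertia elements
  have hex : ∀ a : ℕ, ∃ τ : Gal(Om/ℚ), a ∈ od N → ∃ h : OO n t, Cls P (f * NI m) N h τ ∧
      (2 : ℤ) ^ N ∣ Nm h - a := by
    intro a
    by_cases ha : a ∈ od N
    · have ha2 : Odd (a : ℤ) := by
        have h1 := (Finset.mem_filter.1 ha).2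
        exact_mod_cast Nat.odd_iff.2 h1
      obtain ⟨h, -, hh1, hh2, hh3⟩ := aV0 n t (f * NI m) N a hf'o ha2
      have hc2 : Cop h 2 := (CV_cop_mul.1 hh3).1
      have hf1 : ((f * NI m : ℕ) : OO n t) ∣ h - 1 := CV_cast_dvd (Dvd.intro_left 2 rfl) hh1
      obtain ⟨τ, hτ⟩ := hSur n t P hP (f * NI m) N hf'o hf'15 (by omega) h hf1 hc2
      exact ⟨τ, fun _ => ⟨h, hτ, hh2⟩⟩
    · exact ⟨1, fun h => absurd h ha⟩
  choose s hs using hex
  have hodd : ∀ a ∈ od N, ∃ h : OO n t, Cls P (f * NI m) N h (s a) ∧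
      ∀ ζ : Om, ζ ^ 2 ^ N = 1 → s a ζ = ζ ^ a := by
    intro a ha
    obtain ⟨h, hc, hd⟩ := hs a ha
    refine ⟨h, hc, fun ζ hζ => ?_⟩
    rw [hroot h _ hc ζ hζ]
    refine LSm_pw hζ ?_
    rw [Int.toNat_of_nonneg (Nm_nonneg h)]
    push_cast
    exact hd
  have hs1 : ∀ a ∈ od N, s a z = ((η ^ a + (η ^ a)⁻¹ - 2) * UU P f N k m R χ a) / 4 := by
    intro a ha
    obtain ⟨h, hc, hr⟩ := hodd a ha
    obtain ⟨h', hc', hd'⟩ := hs a ha
    rw [hz, map_div₀, map_mul, hκ, map_sub, map_add, map_inv₀, hr η hη2, hA2 1 h' (s a) odd_one hc',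
      hA1 (Nm h' * 1) a (Or.inl (by rw [mul_one]; exact hd')), map_ofNat, map_ofNat]
  have hprim := LSm_prim hNp
  have hζ1 : zet (2 ^ N) ^ 2 ^ N = 1 := CV_zet_pow hNp
  have hT := hTrZ P hPp h2 N (zet (2 ^ N)) z s hN3 hprim
    (fun a ha => by
      obtain ⟨h, hc, hr⟩ := hodd a ha
      exact ⟨hc.ine, hr _ hζ1⟩)
    (fun τ hτ hτζ => by
      obtain ⟨h, hc⟩ := (hIn n t P hP (f * NI m) N hf'o hf'15).1 τ hτ
      have hr := hroot h τ hc
      have hNh : (((Nm h).toNat : ℕ) : ℤ) = Nm h := Int.toNat_of_nonneg (Nm_nonneg h)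
      have hpm : (2 : ℤ) ^ N ∣ Nm h - 1 ∨ (2 : ℤ) ^ N ∣ Nm h + 1 := by
        rw [hr _ hζ1] at hτζ
        rcases hτζ with h1 | h1
        · left
          have h3 : zet (2 ^ N) ^ ((Nm h - 1 : ℤ)) = 1 := by
            rw [zpow_sub_one₀ (CV_zet_ne hNp), ← hNh, zpow_natCast, h1,
              mul_inv_cancel₀ (CV_zet_ne hNp)]
          have h5 := (hprim.zpow_eq_one_iff_dvd _).1 h3
          push_cast at h5
          exact h5
        · right
          have h3 : zet (2 ^ N) ^ ((Nm h + 1 : ℤ)) = 1 := by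
            rw [zpow_add_one₀ (CV_zet_ne hNp), ← hNh, zpow_natCast, h1,
              inv_mul_cancel₀ (CV_zet_ne hNp)]
          have h5 := (hprim.zpow_eq_one_iff_dvd _).1 h3
          push_cast at h5
          exact h5
      have hη3 : τ η + (τ η)⁻¹ = η + η⁻¹ := by
        rw [hr η hη2]
        rcases hpm with h1 | h1
        · rw [LSm_pw hη2 (a := (Nm h).toNat) (b := 1) (by rw [hNh]; push_cast; exact h1), pow_one]
        · rw [LSm_pwi hNp hη2 (a := (Nm h).toNat) (by rw [hNh]; push_cast; exact h1), inv_inv, add_comm]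
      have hκτ : τ κ = κ := by
        rw [hκ, map_sub, map_add, map_inv₀, hη3, map_ofNat]
      rw [hz, map_div₀, map_mul, hκτ, hA2 1 h τ odd_one hc,
        hA1 (Nm h * 1) 1 (by rw [mul_one]; exact hpm), map_ofNat])
    hzm
  have hfin := LSm_fou hFou hP (k := k) χ hm hR hN3 hNj c
  rw [← hη] at hfin
  have hsum : ∑ a ∈ od N, (η ^ a + (η ^ a)⁻¹ - 2) * UU P f N k m R χ a = 4 * ∑ a ∈ od N, s a z := by
    rw [Finset.mul_sum]
    refine Finset.sum_congr rfl fun a ha => ?_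
    rw [hs1 a ha]
    ring
  rw [hfin, hsum]
  have hg : GE P ((2 + ((N : ℚ) - 1)) - vP P (2 ^ N)) (4 * (∑ a ∈ od N, s a z) / 2 ^ N) :=
    ((show GE P 2 (4 : Om) from Or.inr h4.ge).mul h2 hT).div h2 (pow_ne_zero _ two_ne_zero)
  rw [GL.vP_two_pow h2] at hg
  have e : (2 ^ N)⁻¹ * (4 * ∑ a ∈ od N, s a z) = 4 * (∑ a ∈ od N, s a z) / 2 ^ N := by
    rw [div_eq_mul_inv]
    ring
  rw [e]
  exact hg.mp h2 (by linarith)

end Pool.Agent.DN.G
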