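import Pool.Agent.Lib.DN.G.SpecB

/-!
# Theorem DN, part G, module SU: the comparison of `β` with `zt P β` (helper63)
-/

set_option autoImplicit false

open scoped Pointwise

noncomputable section

namespace Pool.Agent.DN.G

open Pool.Agent.MuZ Pool.Agent.FW Pool.Agent.DN
open Pool.Agent.DI (io ofC io_inj exists_io io_ofC ofC_io VP MP UP TP ex sqr sqr_sq kap)
open Pool.Agent.DN.GL (vP GE Cls IsR Hq Pt EE OA od)

variable {n t : ℕ}

private theorem SU_q {N : ℕ} (hN : 3 ≤ N) : (5 / 3 - 5 / 2 ^ N : ℚ) ≤ 2 ∧ (2 : ℚ) ≤ N := by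
  have h1 : (0 : ℚ) ≤ 5 / 2 ^ N := by positivity
  have h2 : (3 : ℚ) ≤ N := by exact_mod_cast hN
  constructor <;> linarith

private theorem SU_cop [Ine n t] {N : ℕ} (hN : 1 ≤ N) {x : ℤ} {v : OO n t}
    (h : Pm N (x * Nm v) 1) : Cop v 2 := by
  rw [(aO4 n t).2.2.2.1]
  intro h1
  have h2 : (2 : ℤ) ∣ x * Nm v := Dvd.dvd.mul_left h1 x
  have h3 : (2 : ℤ) ∣ 2 ^ N := dvd_pow_self 2 (by omega)
  rcases h with h | h
  · have h4 := dvd_trans h3 h
    omega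
  · have h4 := dvd_trans h3 h
    omega

private theorem SU_pm {N : ℕ} {x y z : ℤ} (h : Pm N (x * y) 1) (hd : (2 : ℤ) ^ N ∣ y - z) :
    Pm N (x * z) 1 := by
  rcases h with h | h
  · left
    have e : x * z - 1 = (x * y - 1) - x * (y - z) := by ring
    rw [e]
    exact dvd_sub h (Dvd.dvd.mul_left hd x)
  · right
    have e : x * z + 1 = (x * y + 1) - x * (y - z) := by ring
    rw [e]
    exact dvd_sub h (Dvd.dvd.mul_left hd x)

private theorem SU_pow [SqN n t] {P : Ideal ZZ} (hP : Ab2 P) {M N : ℕ} {u : OO n t}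
    (h : ((M * 2 ^ N : ℕ) : OO n t) ∣ u) : GE P N (toO u) := by
  have hPp : P.IsPrime := hP.1.1
  obtain ⟨w, rfl⟩ := h
  have e : toO (((M * 2 ^ N : ℕ) : OO n t) * w) = 2 ^ N * ((M : Om) * toO w) := by
    rw [toO_mul, toO_nat]
    push_cast
    ring
  rw [e]
  exact GL.GE.mul_right hP.2 (Or.inr (GL.vP_two_pow hP.2 N).ge) ((DI.VP.nat M).mul (toO_VP w))

private theorem SU_four [SqN n t] {P : Ideal ZZ} (hP : Ab2 P) {u : OO n t}
    (h : (4 : OO n t) ∣ u) : GE P 2 (toO u) := by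
  have h1 : ((1 * 2 ^ 2 : ℕ) : OO n t) ∣ u := by
    have e : ((1 * 2 ^ 2 : ℕ) : OO n t) = 4 := by norm_num
    rwa [e]
  have h2 := SU_pow hP h1
  exact_mod_cast h2

private theorem SU_vt [Ine n t] (zt' : GL.C_Zt) {P : Ideal ZZ} (hP : Ab2 P) {v : OO n t}
    (hv : Cop v 2) (j : ℕ) : VP P (zt P v ^ j) := by
  have hPp : P.IsPrime := hP.1.1
  have h1 : zt P v ^ 3 = 1 := ((zt' n t P hP).2.1 v hv).1
  exact (CV_up_of_pow hPp (by norm_num) h1).1.pow j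

private theorem SU_coset (d2 : S_D2) (lev : GL.C_Lev) (act : GL.C_Act) (sur : GL.C_Sur)
    (tra : GL.C_Tra) (zt' : GL.C_Zt) (t0 : S_T0) (pnt : GL.C_Pnt) (cht : C_ChT) (gb : C_Gb)
    [Ine n t] {P : Ideal ZZ} (hP : Ab2 P) {f N k : ℕ} {m b : Ideal (OO n t)}
    {χ : Ideal (OO n t) → Om} (hm : FM f m) (hb : FB f b) (hχ : IsChi (2 * f) χ) (hN : 3 ≤ N)
    {T : Finset (OO n t)} (hT : IsR N (Hq (f * NI m) N) T) {v : OO n t} (hv2 : Cop v 2)
    (hvf : (f : OO n t) ∣ v - 1) :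
    GE P (5 / 3 - 5 / 2 ^ N) (∑ h ∈ T, χ b * (zt P (h * v) ^ (k - 1) *
      ((toO (h * v) - zt P (h * v)) * gB f N m b (h * v)))) := by
  classical
  have hPp : P.IsPrime := hP.1.1
  have h2 := hP.2
  obtain ⟨hf0, hf15, hm15, hm2f, hmo, hmc, hm0⟩ := CV_fm hm
  obtain ⟨hbG, hb2, hbf, hmb⟩ := CV_fb hm hb
  have hfo : Odd (f * NI m) := hm.odd.mul hmo
  have hff : 15 ∣ f * NI m := Dvd.dvd.mul_right hm.dvd _
  obtain ⟨z0, d, hPt, -, -⟩ := pnt n t f N hm.odd hm.dvd (by omega)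
  have hcop : ∀ h ∈ T, Cop h 2 := by
    intro h hh
    apply CV_cop_of_dvd
    rw [CV_cast_two]
    exact dvd_trans ⟨2, by norm_num⟩ (hT.mem h hh).2.1
  have hone : ∀ h ∈ T, (f : OO n t) ∣ h - 1 := fun h hh =>
    CV_cast_dvd (Dvd.intro _ rfl) (hT.mem h hh).1
  have hex : ∀ h : OO n t, ∃ τ : Gal(Om/ℚ), h ∈ T → Cls P (f * NI m) N h τ := by
    intro h
    by_cases hh : h ∈ T
    · obtain ⟨τ, hτ⟩ := sur n t P hP (f * NI m) N hfo hff (by omega) h (hT.mem h hh).1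
        (hcop h hh)
      exact ⟨τ, fun _ => hτ⟩
    · exact ⟨1, fun h' => absurd h' hh⟩
  choose s hs using hex
  obtain ⟨z, hz⟩ : ∃ z : ℂ, z = toC v / (f * 2 ^ N : ℕ) := ⟨_, rfl⟩
  have hv2f : Cop v (2 * f) := (CV_cop_mul).2 ⟨hv2, CV_cop_of_dvd hvf⟩
  obtain ⟨g1, -, -, -, -⟩ := gb n t P hP f N m b hm (by omega) hb
  have hzn : z ∉ Lam (m * b) := by
    rw [hz]
    exact (g1 v hv2f).1
  have hVx : VP P (gO m b z) := by
    rw [hz]
    exact (g1 v hv2f).2.1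
  have hzl : ((f * NI m * 2 ^ N : ℕ) : ℂ) * z ∈ Lam b := by
    have e : ((f * NI m * 2 ^ N : ℕ) : ℂ) * z = toC (((NI m : ℕ) : OO n t) * v) := by
      rw [toC_mul, toC_nat, hz]
      push_cast
      have h0 : (f : ℂ) ≠ 0 := by exact_mod_cast hf0.ne'
      field_simp
    rw [e]
    exact fun u _ => ⟨u * (((NI m : ℕ) : OO n t) * v), (toC_mul u _).symm⟩
  have hxE : gO m b z ∈ EE n t (f * NI m * 2 ^ N) :=
    ((lev n t (f * NI m * 2 ^ N) (by positivity) (Dvd.dvd.mul_right hff _)).2.2.2.2 m b hm.ne hbG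
      hm.two hm15 (Dvd.dvd.mul_right (Dvd.intro_left _ rfl) _) z hzl).1 hzn
  have hact : ∀ h ∈ T, s h (gO m b z) = gO m b (toC h * z) := fun h hh =>
    ((act n t P hP (f * NI m) N h (s h) hfo hff (hs h hh) b hbG).2.2.2.2.2.2 m hm.ne hm.two hm15
      (Dvd.intro_left _ rfl) z hzl).1 hzn
  have htr := tra n t P hP f N z0 d hPt hN (f * NI m) hfo (Dvd.intro _ rfl) (gO m b z) hxE hVx T s
    hT (fun h hh => hs h hh)
  have hvz : GE P 1 (toO v - zt P v) := by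
    have h3 : TP P 2 (zt P v - toO v) := (t0.2 n t P hP v v hv2 hv2).2.1
    have h4 := GL.GE.neg h2 ((GL.GE.two_iff h2).2 h3)
    rwa [neg_sub] at h4
  have hrO : VP P (rO (⊤ : Ideal (OO n t)) b) := by
    have h3 := ((d2 n t P hP ⊤ ⟨(CV_fb_top f).ne, CV_top _⟩).2.2.2.2.2.2 b hbG.1 hb2 hbG.2).1
    rwa [Ideal.mul_top] at h3
  have hχb : VP P (χ b) := ((cht n t P hP f χ hm.odd hm.dvd hχ).1 b).1
  have hztk := SU_vt zt' hP hv2 (k - 1)
  have hztv : ∀ h ∈ T, zt P (h * v) = zt P v := by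
    intro h hh
    refine (zt' n t P hP).2.2.1 (h * v) v (cop_mul (hcop h hh) hv2) hv2 ?_
    have e : h * v - v = (h - 1) * v := by ring
    rw [e]
    exact Dvd.dvd.mul_right (dvd_trans ⟨2, by norm_num⟩ (hT.mem h hh).2.1) _
  have hterm : ∀ h ∈ T, χ b * (zt P (h * v) ^ (k - 1) *
      ((toO (h * v) - zt P (h * v)) * gB f N m b (h * v))) =
      χ b * zt P v ^ (k - 1) * rO (⊤ : Ideal (OO n t)) b * ((toO v - zt P v) * s h (gO m b z)) +
      χ b * (zt P v ^ (k - 1) * (toO (h - 1) * toO v * gB f N m b (h * v))) := by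
    intro h hh
    have e1 : gO m b (toC (h * v) / (f * 2 ^ N : ℕ)) = s h (gO m b z) := by
      rw [hact h hh, hz, toC_mul, mul_div_assoc]
    rw [hztv h hh]
    unfold gB
    rw [e1, toO_mul, toO_sub, toO_one]
    ring
  rw [Finset.sum_congr rfl hterm, Finset.sum_add_distrib, ← Finset.mul_sum, ← Finset.mul_sum]
  refine GL.GE.add h2 ?_ ?_
  · refine GL.GE.mul_left h2 ((hχb.mul hztk).mul hrO) ?_
    have h3 := GL.GE.mul h2 hvz htr
    have e : (1 + (2 / 3 - 5 / 2 ^ N) : ℚ) = 5 / 3 - 5 / 2 ^ N := by ring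
    rwa [e] at h3
  · refine GL.GE.mono (GL.GE.sum h2 T _ (fun h hh => ?_)) (SU_q hN).1
    refine GL.GE.mul_left h2 hχb (GL.GE.mul_left h2 hztk (GL.GE.mul_right h2
      (GL.GE.mul_right h2 (SU_four hP (hT.mem h hh).2.1) (toO_VP v)) ?_))
    refine (g1 (h * v) ?_).2.2
    exact cop_mul ((CV_cop_mul).2 ⟨hcop h hh, CV_cop_of_dvd (hone h hh)⟩) hv2f

theorem tSU : S_SU := by
  intro d2 lev act rep sur tra zt' t0 pnt cht gb cos n t _ P hP f N k m R χ hm hR hχ hN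
  classical
  have hPp : P.IsPrime := hP.1.1
  have h2 := hP.2
  obtain ⟨hq1, hq2⟩ := SU_q hN
  obtain ⟨hf0, hf15, hm15, hm2f, hmo, hmc, hm0⟩ := CV_fm hm
  have hfo : Odd (f * NI m) := hm.odd.mul hmo
  unfold SI
  refine GL.GE.sum h2 R _ (fun b hb => ?_)
  have hbF := hR b hb
  obtain ⟨T, hT⟩ := (rep n t N (by omega)).1 (Hq (f * NI m) N)
  have hχb : VP P (χ b) := ((cht n t P hP f χ hm.odd hm.dvd hχ).1 b).1
  obtain ⟨g1, g2, -, -, -⟩ := gb n t P hP f N m b hm (by omega) hbF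
  have key := cos n t f (f * NI m) N hfo (Dvd.intro _ rfl) (by omega) T hT
    (Om ⧸ GEs P hP (5 / 3 - 5 / 2 ^ N))
    (fun v => QuotientAddGroup.mk (χ b * (zt P v ^ (k - 1) *
      ((toO v - zt P v) * gB f N m b v))))
    (fun v => Pm N (NI b * Nm v) 1) (fun v hv => SU_cop (by omega) hv) ?_ ?_ ?_ ?_
  · rw [← GEs_zero hP]
    refine Eq.trans ?_ key
    refine (map_sum (QuotientAddGroup.mk' (GEs P hP (5 / 3 - 5 / 2 ^ N))) _ _).trans ?_
    refine Finset.sum_congr rfl (fun p _ => ?_)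
    by_cases hp : Pm N (NI b * Nm (bp (n := n) (t := t) f p)) 1
    · rw [if_pos hp, if_pos hp]
      rfl
    · rw [if_neg hp, if_neg hp]
      exact map_zero _
  · intro v u hv hd
    refine SU_pm hv ?_
    have h3 := Nm_congr (CV_cast_dvd (Dvd.intro_left _ rfl) hd : ((2 ^ N : ℕ) : OO n t) ∣ v - u)
    exact_mod_cast h3
  · intro v h hv hh
    refine SU_pm hv ?_
    rw [Nm_mul]
    have e : Nm v - Nm h * Nm v = -((Nm h - 1) * Nm v) := by ring
    rw [e]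
    exact (dvd_neg).2 (Dvd.dvd.mul_right hh.2.2 _)
  · intro v u hv hvf hd
    have hv2 : Cop v 2 := SU_cop (by omega) hv
    have hd2 : ((2 : ℕ) : OO n t) ∣ v - u :=
      CV_cast_dvd (Dvd.dvd.mul_left (dvd_pow_self 2 (by omega)) _) hd
    have hu2 : Cop u 2 := cop_congr hd2 hv2
    rw [CV_cast_two] at hd2
    have hz : zt P v = zt P u := (zt' n t P hP).2.2.1 v u hv2 hu2 hd2
    have hv2f : Cop v (2 * f) := (CV_cop_mul).2 ⟨hv2, CV_cop_of_dvd hvf⟩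
    have hg : gB f N m b v = gB f N m b u := (g2 v u hv2f hd).2
    refine (GEs_eq hP).2 ?_
    have e : χ b * (zt P v ^ (k - 1) * ((toO v - zt P v) * gB f N m b v)) -
        χ b * (zt P u ^ (k - 1) * ((toO u - zt P u) * gB f N m b u)) =
        χ b * (zt P v ^ (k - 1) * (toO (v - u) * gB f N m b v)) := by
      rw [← hz, ← hg, toO_sub]
      ring
    rw [e]
    refine GL.GE.mono (GL.GE.mul_left h2 hχb (GL.GE.mul_left h2 (SU_vt zt' hP hv2 (k - 1))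
      (GL.GE.mul_right h2 (SU_pow hP hd) (g1 v hv2f).2.2))) (hq1.trans hq2)
  · intro v hv hvf
    have h3 := SU_coset d2 lev act sur tra zt' t0 pnt cht gb (k := k) hP hm hbF hχ hN hT
      (SU_cop (by omega) hv) hvf
    exact (map_sum (QuotientAddGroup.mk' (GEs P hP (5 / 3 - 5 / 2 ^ N))) _ _).symm.trans
      ((GEs_zero hP).2 h3)

end Pool.Agent.DN.G
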