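import Pool.Agent.Lib.DN.G.SpecB

/-!
# Theorem DN, part G, second half: the valuation of `U(1)` (author helper47)
-/

set_option autoImplicit false

open scoped Pointwise

noncomputable section

namespace Pool.Agent.DN.G

open Pool.Agent.MuZ Pool.Agent.FW Pool.Agent.DN
open Pool.Agent.DI (io ofC io_inj exists_io io_ofC ofC_io VP MP UP TP ex sqr sqr_sq kap)
open Pool.Agent.DN.GL (vP GE Cls IsR Hq Pt EE OA od)

variable {n t : ℕ}

private theorem U1_sub (f N : ℕ) (R : Finset (Ideal (OO n t))) (a : ℤ)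
    (φ ψ : Ideal (OO n t) → OO n t → Om) :
    SI f N R a φ - SI f N R a ψ = SI f N R a (fun b v => φ b v - ψ b v) := by
  classical
  unfold SI
  rw [← Finset.sum_sub_distrib]
  refine Finset.sum_congr rfl fun b _ => ?_
  rw [← Finset.sum_sub_distrib]
  refine Finset.sum_congr rfl fun p _ => ?_
  split_ifs
  · rfl
  · rw [sub_zero]

theorem tU1 : S_U1 := by
  intro hLSS hZt hRS hSU n t _ P hP f N k m R χ T D hFM hFR hRC hχ hk hTy hN hT hD hd
  have := hP.1.1
  have h2 : MP P 2 := hP.2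
  obtain ⟨⟨-, hc0, hcv⟩, -⟩ := hZt n t P hP
  have hpos : (0 : ℚ) < 1 / 2 ^ N := by positivity
  have e3 : (3 : ℚ) / 2 ^ N = 3 * (1 / 2 ^ N) := by ring
  have e5 : (5 : ℚ) / 2 ^ N = 5 * (1 / 2 ^ N) := by ring
  have hN3 : (3 : ℚ) ≤ N := by exact_mod_cast hN
  have h1 := hLSS n t f m χ P hFM hχ hP N T D hN hT (fun c hc => ⟨(hD.mem c hc).1, (hD.mem c hc).2.1⟩) hd
  have h3 := hRS n t P hP f N k m R χ T D hFM hFR hRC hχ hTy (by omega) hT hD
  have h4 := hSU n t P hP f N k m R χ hFM hFR hχ hN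
  have h5 := (h1.mono (q' := 5 / 3 - 5 / 2 ^ N) (by rw [e3, e5]; linarith)).sub h2
    (h3.mono (q' := 5 / 3 - 5 / 2 ^ N) (by rw [e5]; linarith))
  rw [sub_sub_cancel] at h5
  have h6 := h5.sub h2 h4
  rw [U1_sub] at h6
  have h7 : GE P (1 / 3) (c3 ^ k) := by
    right
    rw [GL.vP_pow h2 hc0, hcv]
    rcases hk with rfl | rfl <;> norm_num
  have h8 := h7.mul h2 h6
  have e9 : UU P f N k m R χ 1 = c3 ^ k * SI f N R 1 (fun b v =>
      χ b * (zt P v ^ (k - 1) * (toO v * gB f N m b v)) -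
        χ b * (zt P v ^ (k - 1) * ((toO v - zt P v) * gB f N m b v))) := by
    unfold UU
    congr 2
    funext b v
    have e : zt P v ^ k = zt P v ^ (k - 1) * zt P v := by
      rw [← pow_succ]
      congr 1
      omega
    rw [e]
    ring
  rw [e9]
  refine h8.mono ?_
  linarith

end Pool.Agent.DN.G
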