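import Pool.Agent.Lib.DN.G.SpecB

/-!
# Theorem DN, part G, module UAct: the action of inertia on the numbers `U(a)`
-/

set_option autoImplicit false

open scoped Pointwise

noncomputable section

namespace Pool.Agent.DN.G

open Pool.Agent.MuZ Pool.Agent.FW Pool.Agent.DN
open Pool.Agent.DI (io ofC io_inj exists_io io_ofC ofC_io VP MP UP TP ex sqr sqr_sq kap)
open Pool.Agent.DN.GL (vP GE Cls IsR Hq Pt EE OA od)

private theorem UAct_pm1 {N : ℕ} {x a a' : ℤ} (h : Pm N a a') (hx : Pm N x a) : Pm N x a' := by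
  unfold Pm at *
  rcases h with h | h <;> rcases hx with hx | hx
  · left
    have e : x - a' = (x - a) + (a - a') := by ring
    rw [e]; exact dvd_add hx h
  · right
    have e : x + a' = (x + a) - (a - a') := by ring
    rw [e]; exact dvd_sub hx h
  · right
    have e : x + a' = (x - a) + (a + a') := by ring
    rw [e]; exact dvd_add hx h
  · left
    have e : x - a' = (x + a) - (a + a') := by ring
    rw [e]; exact dvd_sub hx h

private theorem UAct_pms {N : ℕ} {a a' : ℤ} (h : Pm N a a') : Pm N a' a := by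
  unfold Pm at *
  rcases h with h | h
  · left
    rw [dvd_sub_comm]; exact h
  · right
    rw [add_comm]; exact h

private theorem UAct_pm {N : ℕ} {x a a' : ℤ} (h : Pm N a a') : Pm N x a ↔ Pm N x a' :=
  ⟨UAct_pm1 h, UAct_pm1 (UAct_pms h)⟩

private theorem UAct_pml {N : ℕ} {x y a : ℤ} (h : (2 : ℤ) ^ N ∣ x - y) : Pm N x a ↔ Pm N y a :=
  ⟨fun h1 => UAct_pms (UAct_pm1 (Or.inl h) (UAct_pms h1)),
    fun h1 => UAct_pms (UAct_pm1 (UAct_pms (Or.inl h)) (UAct_pms h1))⟩

/-- Multiplication by an odd number. -/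
private theorem UAct_mul {N : ℕ} {c x a : ℤ} (hc : ¬ (2 : ℤ) ∣ c) : Pm N x a ↔ Pm N (c * x) (c * a) := by
  have h2 : IsCoprime ((2 : ℤ) ^ N) c :=
    IsCoprime.pow_left ((Prime.coprime_iff_not_dvd Int.prime_two).2 hc)
  unfold Pm
  rw [← mul_sub, ← mul_add]
  exact or_congr ⟨fun h => Dvd.dvd.mul_left h c, fun h => h2.dvd_of_dvd_mul_left h⟩
    ⟨fun h => Dvd.dvd.mul_left h c, fun h => h2.dvd_of_dvd_mul_left h⟩

private theorem UAct_odd {N : ℕ} (hN : 1 ≤ N) {x y a : ℤ} (ha : ¬ (2 : ℤ) ∣ a) (h : Pm N (x * y) a) :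
    ¬ (2 : ℤ) ∣ y := by
  have h2 : (2 : ℤ) ∣ 2 ^ N := dvd_pow_self 2 (by omega)
  intro hy
  have hxy : (2 : ℤ) ∣ x * y := Dvd.dvd.mul_left hy x
  apply ha
  rcases h with h | h
  · exact (dvd_sub_right hxy).1 (h2.trans h)
  · exact (dvd_add_right hxy).1 (h2.trans h)

variable {n t : ℕ}

/-- The class function. -/
private def UAct_F (P : Ideal ZZ) (f N k : ℕ) (m : Ideal (OO n t)) (χ : Ideal (OO n t) → Om)
    (b : Ideal (OO n t)) (a : ℤ) (u : OO n t) : Om :=
  open Classical in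
  if Pm N (NI b * Nm u) a then χ b * (zt P u ^ k * gB f N m b u) else 0

private theorem UAct_UU (P : Ideal ZZ) (f N k : ℕ) (m : Ideal (OO n t)) (R : Finset (Ideal (OO n t)))
    (χ : Ideal (OO n t) → Om) (a : ℤ) :
    UU P f N k m R χ a = c3 ^ k * ∑ b ∈ R, ∑ p ∈ Bx N, UAct_F P f N k m χ b a (bp f p) := rfl

private theorem UAct_lam [Ine n t] (b : Ideal (OO n t)) (v : OO n t) : toC v ∈ Lam b := by
  intro u _
  exact ⟨u * v, (toC_mul u v).symm⟩

theorem tUAct : S_UAct := by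
  intro hUnr hAct hZt hTc hChT hGb hBt n t _ P hP f N k m R χ hm hR hχ hN
  refine ⟨?_, ?_⟩
  · intro a a' h
    rw [UAct_UU, UAct_UU]
    congr 1
    refine Finset.sum_congr rfl fun b _ => Finset.sum_congr rfl fun p _ => ?_
    unfold UAct_F
    rw [propext (UAct_pm (x := (NI b : ℤ) * Nm (bp f p)) h)]
  · intro a h τ ha hτ
    have ha2 : ¬ (2 : ℤ) ∣ a := by
      rw [← even_iff_two_dvd, Int.not_even_iff_odd]
      exact ha
    have hh2 : ¬ (2 : ℤ) ∣ Nm h := ((aCop n t).2.2.1 h).1 hτ.cop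
    have hha2 : ¬ (2 : ℤ) ∣ Nm h * a := by
      intro h1
      rcases Int.prime_two.dvd_or_dvd h1 with h1 | h1
      · exact hh2 h1
      · exact ha2 h1
    obtain ⟨hf0, -, hm15, -, hmo, -, hm0⟩ := CV_fm hm
    have hf'o : Odd (f * NI m) := hm.odd.mul hmo
    have hf'15 : 15 ∣ f * NI m := Dvd.dvd.mul_right hm.dvd _
    have hh1 : (f : OO n t) ∣ h - 1 := CV_cast_dvd (Dvd.intro _ rfl) hτ.one
    have hM0 : ((f * 2 ^ N : ℕ) : ℂ) ≠ 0 := by
      have : 0 < f * 2 ^ N := by positivity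
      exact_mod_cast this.ne'
    -- the elements `v`
    have hvc : ∀ (b : Ideal (OO n t)) (v : OO n t) (c : ℤ), (f : OO n t) ∣ v - 1 → ¬ (2 : ℤ) ∣ c →
        Pm N (NI b * Nm v) c → Cop v 2 ∧ Cop v (2 * f) := by
      intro b v c hv hc hp
      have h1 : Cop v 2 := ((aCop n t).2.2.1 v).2 (UAct_odd hN hc hp)
      exact ⟨h1, CV_cop_mul.2 ⟨h1, CV_cop_of_dvd hv⟩⟩
    have hbp : ∀ p ∈ Bx N, (f : OO n t) ∣ bp f p - 1 := ((hBt n t f N hm.odd).1).mem
    obtain ⟨-, hz1, hz2, hz3, -⟩ := hZt n t P hP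
    have hcl := (hChT n t P hP f χ hm.odd hm.dvd hχ).1
    -- the terms
    have hterm : ∀ b ∈ R, ∀ p ∈ Bx N,
        zt P h ^ k * τ (UAct_F P f N k m χ b a (bp f p)) =
          UAct_F P f N k m χ b (Nm h * a) (h * bp f p) := by
      intro b hb p hp
      have hbF := hR b hb
      have hpm : Pm N (NI b * Nm (bp (n := n) (t := t) f p)) a ↔
          Pm N (NI b * Nm (h * bp f p)) (Nm h * a) := by
        rw [UAct_mul (N := N) (x := (NI b : ℤ) * Nm (bp (n := n) (t := t) f p)) (a := a) hh2, Nm_mul]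
        have e : Nm h * ((NI b : ℤ) * Nm (bp (n := n) (t := t) f p)) =
            (NI b : ℤ) * (Nm h * Nm (bp (n := n) (t := t) f p)) := by ring
        rw [e]
      unfold UAct_F
      rw [← propext hpm]
      by_cases h1 : Pm N (NI b * Nm (bp (n := n) (t := t) f p)) a
      · rw [if_pos h1, if_pos h1]
        obtain ⟨hv2, hv2f⟩ := hvc b _ a (hbp p hp) ha2 h1
        obtain ⟨-, -, ⟨-, f1, hf1, hf115, hE⟩, -⟩ := hz1 _ hv2
        have e1 : τ (zt P (bp (n := n) (t := t) f p)) = zt P (bp f p) :=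
          ((hUnr n t P hP).2 f1 hf1 hf115 _ hE).1 τ hτ.ine
        have e2 : τ (χ b) = χ b := (hcl b).2 τ hτ.ine
        have hact := hAct n t P hP (f * NI m) N h τ hf'o hf'15 hτ
        have e3 : τ (rO (⊤ : Ideal (OO n t)) b) = rO ⊤ b :=
          (hact ⊤ (CV_fb hm (CV_fb_top f)).1).2.2.1 b (CV_fb hm hbF).1
        have hgb := (hGb n t P hP f N m b hm hN hbF).1 _ hv2f
        have e4 : τ (gO m b (toC (bp (n := n) (t := t) f p) / (f * 2 ^ N : ℕ))) =
            gO m b (toC (h * bp f p) / (f * 2 ^ N : ℕ)) := by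
          rw [((hact b (CV_fb hm hbF).1).2.2.2.2.2.2 m hm.ne hm.two hm15 (Dvd.intro_left _ rfl) _ ?_).1
            hgb.1, toC_mul, mul_div_assoc]
          have e5 : ((f * NI m * 2 ^ N : ℕ) : ℂ) *
              (toC (bp (n := n) (t := t) f p) / (f * 2 ^ N : ℕ)) =
                toC (((NI m : ℕ) : OO n t) * bp f p) := by
            rw [toC_mul, toC_nat, ← mul_div_assoc, div_eq_iff hM0]
            push_cast
            ring
          rw [e5]
          exact UAct_lam b _
        unfold gB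
        rw [map_mul, map_mul, map_mul, map_pow, e1, e2, e3, e4, hz3 h _ hτ.cop hv2]
        ring
      · rw [if_neg h1, if_neg h1, map_zero, mul_zero]
    -- periodicity and the change of the system
    have hre : ∀ b ∈ R, ∑ p ∈ Bx N, UAct_F P f N k m χ b (Nm h * a) (h * bp f p) =
        ∑ p ∈ Bx N, UAct_F P f N k m χ b (Nm h * a) (bp f p) := by
      intro b hb
      have hbF := hR b hb
      have hcop : Cop h (f * 2 ^ N) :=
        (aCop n t).2.2.2.2.2.2.2.2 f N h (CV_cop_mul.2 ⟨hτ.cop, CV_cop_of_dvd hh1⟩)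
      obtain ⟨h', -, hh'⟩ := cop_inv hcop
      have hh'1 : (f : OO n t) ∣ h' - 1 := by
        have e : h' - 1 = (h * h' - 1) - (h - 1) * h' := by ring
        rw [e]
        exact dvd_sub (CV_cast_dvd (Dvd.intro _ rfl) hh') (Dvd.dvd.mul_right hh1 _)
      have hS := (hBt n t f N hm.odd).1
      have hS' := hS.mul hcop hh' (fun v hv => by
          have e : h * v - 1 = h * (v - 1) + (h - 1) := by ring
          rw [e]
          exact dvd_add (Dvd.dvd.mul_left hv _) hh1) (fun v hv => by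
          have e : h' * v - 1 = h' * (v - 1) + (h' - 1) := by ring
          rw [e]
          exact dvd_add (Dvd.dvd.mul_left hv _) hh'1)
      refine RpI.sum hS' hS (UAct_F P f N k m χ b (Nm h * a)) ?_
      intro v u hv hu hvu
      have h2N : (2 : ℤ) ^ N ∣ (NI b : ℤ) * Nm v - NI b * Nm u := by
        rw [← mul_sub]
        refine Dvd.dvd.mul_left ?_ _
        have h1 := Nm_congr (CV_cast_dvd (Dvd.intro_left _ rfl : 2 ^ N ∣ f * 2 ^ N) hvu)
        push_cast at h1
        exact h1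
      unfold UAct_F
      rw [propext (UAct_pml h2N)]
      by_cases h1 : Pm N (NI b * Nm u) (Nm h * a)
      · rw [if_pos h1, if_pos h1]
        have h3 : Pm N (NI b * Nm v) (Nm h * a) := (UAct_pml h2N).2 h1
        obtain ⟨hv2, hv2f⟩ := hvc b _ _ hv hha2 h3
        obtain ⟨hu2, hu2f⟩ := hvc b _ _ hu hha2 h1
        have h4 : (2 : OO n t) ∣ v - u := by
          have h5 : 2 ∣ f * 2 ^ N := Dvd.dvd.mul_left (dvd_pow_self 2 (by omega)) _
          have h6 := CV_cast_dvd h5 hvu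
          rwa [CV_cast_two] at h6
        rw [hz2 v u hv2 hu2 h4, ((hGb n t P hP f N m b hm hN hbF).2.1 v u hv2f hvu).2]
      · rw [if_neg h1, if_neg h1]
    rw [UAct_UU, UAct_UU, map_mul, map_pow, hTc n t P hP (f * NI m) N h τ hf'o hf'15 hN hτ, map_sum,
      mul_pow, mul_comm (zt P h ^ k), mul_assoc]
    congr 1
    rw [Finset.mul_sum]
    refine Finset.sum_congr rfl fun b hb => ?_
    rw [map_sum, Finset.mul_sum, ← hre b hb]
    exact Finset.sum_congr rfl fun p hp => hterm b hb p hp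

end Pool.Agent.DN.G
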