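import Pool.Agent.Lib.DN.H3.AllH
import Pool.Agent.Lib.DN.CV.All
import Pool.Agent.Lib.DN.GL.All
import Pool.Agent.Lib.DN.GL.AllB
import Pool.Agent.Lib.DN.F.AllP
import Pool.Agent.Lib.DN.F.Kf
import Pool.Agent.Lib.DN.E.R2b
import Pool.Agent.Lib.DN.E.UnI
import Pool.Agent.Lib.FW.G.Ine
import Pool.Agent.Lib.DN.G.Bt
import Pool.Agent.Lib.DN.G.ChT
import Pool.Agent.Lib.DN.G.Cos
import Pool.Agent.Lib.DN.G.Fou
import Pool.Agent.Lib.DN.G.G1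
import Pool.Agent.Lib.DN.G.GFin
import Pool.Agent.Lib.DN.G.Gb
import Pool.Agent.Lib.DN.G.LSm
import Pool.Agent.Lib.DN.G.RS
import Pool.Agent.Lib.DN.G.SU
import Pool.Agent.Lib.DN.G.U1
import Pool.Agent.Lib.DN.G.UAct

/-!
# Theorem DN, part G, second half: the composition (author helper21)

`aR2b`, `aR2F : S_R2`, `aKf : S_Kf`, `aGLA : GL.GLA` (inputs of part GL), `aT0`, `aT1`, `aT2`, `aGLout`, `aGT`, `aGU`, `aLSS`,
`aLS : S_LS`, `aVF : S_V`, `aFF : S_F`, `aG : S_G`. No hypotheses.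
-/

set_option autoImplicit false

noncomputable section

namespace Pool.Agent.DN.G

open Pool.Agent.MuZ Pool.Agent.FW Pool.Agent.DN

/-- `S_R2`. -/
theorem aR2b : S_R2b := sR2b aR2a H3.hE4a sUnI
theorem aR2F : Pool.Agent.DN.S_R2 := fun n t _ =>
  ⟨fun P hP => ⟨((aR2a n t).1 P hP).1, aR2b n t P hP⟩, (aR2a n t).2⟩

/-- `S_D10`. -/
theorem aD10F : S_D10 := aD10 aR2F

/-- The field `Kf`. -/
theorem aKf : S_Kf :=
  F.tKf H3.hE1 H3.hE4a H3.hE7 H3.hE8 (Eb.bCj H3.hE1 aR1) Pool.Agent.FW.tIne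

/-- The inputs of part GL. -/
theorem aGLA : GL.GLA where
  R1 := aR1
  R2 := aR2F
  D1 := aD1
  D2 := aD2
  D8 := aD8
  D10 := aD10F
  E1 := H3.hE1
  E4 := H3.hE4a
  E6 := H3.hE6
  E7 := H3.hE7
  E8 := H3.hE8
  E10 := H3.hE10

theorem aGLout : GL.GLOut := aGLA.out
theorem aGT : GL.GTOut := aGLA.gt
theorem aGU : GL.GUOut := aGLA.gu

theorem aT0 : S_T0 := aGU.T0
theorem aT1 : S_T1 := aGU.T1
theorem aT2 : S_T2 := aGU.T2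

theorem aGMF : S_GM := aGM H3.hE1 H3.hE6 H3.hE8
theorem aG3F : S_G3 := aG3 aD5 aD7 aD8 H3.hE1 H3.hE10

/-- The valuation of the exact sum. -/
theorem aLSS : GL.C_LSS :=
  have o := aGLout
  have Odq := GL.tOdq aD2 o.Lev
  have Kud := GL.tKud aB1 aB2 aB3 aR1
  have Tru := GL.tTru aB1 aR1 o.Lev o.Oa o.Pi o.Der Odq Kud
  have Iso := GL.tIso aB1 aB7 aB9 aR1
  have Trh := GL.tTrh aD2 o.Lev o.Oa o.Der Odq Tru Iso
  have LDr := GL.tLDr o.Lev o.Der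
  have Tht := GL.tTht aB2 aB14 aR1 aD2 aD9 o.Lev o.Oa o.Der Odq Trh LDr
  have Mnf := GL.tMnf H3.hE1 aGMF o.Unr o.In
  have Un4 := GL.tUn4 aG3F o.Fix Mnf LDr Tht
  have SitM := GL.tSitM H3.hE9 aGMF o.Gal o.Unr o.In o.Sur o.Ext Mnf
  have Res := GL.tRes o.Lev o.Oa o.Der o.Fix Mnf SitM
  GL.tLSS aG3F LDr GL.tPnt Un4 Res

theorem aBt : C_Bt := tBt
theorem aChT : C_ChT := tChT aGLout.Lev aGLout.Unr aGT.Zt
theorem aGb : C_Gb := tGb aR1 aD2 aD9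

/-- **The local step** `S_LS`. -/
theorem aLS : S_LS :=
  asmB aR1 aD2 aD9 (aC4 aR1) aGLout aGT aGU GL.tPnt aLSS tBt tChT tGb tRS tCos tSU tU1 tUAct tFou tLSm

/-- `S_V`. -/
theorem aC9F : S_C9 := aC9 aR1 aT0
theorem aVF : S_V := aV aR1 aT0 aT1 aT2 aC9F aD2 aD9 H3.hE6 H3.hE10

/-- **Proposition F.** -/
theorem aFF : S_F :=
  F.xF (aC2 aR1) aC3 (aC6 aR1) aC7 (aC8 aR1 H3.hE1 H3.hE6 H3.hE10)
    (aC11 aR1 aR2F aT0 aT1 aT2 aD9 H3.hE6 H3.hE10) (aKp aR1 aR2F aT0 aD1 aD2) aR1 aR2F aD2 H3.hE1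
    H3.hE7 H3.hE10 aKf

theorem aG1 : C_G1 := tG1 aLw aVF aVq aFF

/-- **`S_G`.** -/
theorem aG : S_G := asmG aGLout aGT aLS aLw aVF aVq aFF tChT tG1 tGFin

end Pool.Agent.DN.G
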