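import Pool.Agent.Lib.DN.G.SpecB
import Pool.Agent.Lib.DI.F.VPB

/-!
# Theorem DN, part G, module G1: non-constancy of `xs` on `ℤ[1/2]`

`theorem tG1 : S_G1`.
-/

set_option autoImplicit false

open scoped Pointwise

noncomputable section

namespace Pool.Agent.DN.G

open Pool.Agent.MuZ Pool.Agent.FW Pool.Agent.DN
open Pool.Agent.DI (io ofC io_inj exists_io io_ofC ofC_io VP MP UP TP ex sqr sqr_sq kap)
open Pool.Agent.DN.GL (vP GE Cls IsR Hq Pt EE OA od)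

variable {n t : ℕ}

/-- an odd number congruent to `d` modulo the odd number `M` -/
private def G1_d (M : ℕ) (d : ℤ) : ℤ := if Odd d then d else d + M

private theorem G1_d_odd {M : ℕ} (hM : Odd M) (d : ℤ) : Odd (G1_d M d) := by
  unfold G1_d
  split_ifs with h
  · exact h
  · have h1 : Even d := Int.not_odd_iff_even.1 h
    have h2 : Odd (M : ℤ) := by exact_mod_cast hM
    exact h1.add_odd h2

private theorem G1_d_dvd (M : ℕ) (d : ℤ) : (M : ℤ) ∣ G1_d M d - d := by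
  unfold G1_d
  split_ifs with h
  · simp
  · exact ⟨1, by ring⟩

private theorem G1_den2 {M : ℕ} (hM : Odd M) (c : ℤ) (j : ℕ) : ((c : ℚ) / 2 ^ j).den.Coprime M := by
  have h1 : ((((c : ℚ) / 2 ^ j).den : ℕ) : ℤ) ∣ (2 : ℤ) ^ j := by
    have h2 := Rat.den_dvd c (2 ^ j)
    rw [Rat.divInt_eq_div] at h2
    push_cast at h2
    exact h2
  have h3 : ((c : ℚ) / 2 ^ j).den ∣ 2 ^ j := by
    have : ((((c : ℚ) / 2 ^ j).den : ℕ) : ℤ) ∣ ((2 ^ j : ℕ) : ℤ) := by
      push_cast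
      exact h1
    exact Int.natCast_dvd_natCast.1 this
  exact Nat.Coprime.coprime_dvd_left h3 ((Nat.coprime_two_left.2 hM).pow_left j)

theorem tG1 : S_G1 := by
  classical
  intro hLw hV hVq hF n t _ f k m R χ P hFM hmt hFR hRC hχ hAb hk hty
  by_contra hcon
  push Not at hcon
  obtain ⟨M, hw⟩ := hLw n t f m R hFM hFR
  obtain ⟨hV1, hV2⟩ := hV n t f M k m R hFM hFR hRC hw χ hχ P hAb hk hty
  have hMo : Odd M := hw.lv.odd
  have hM3 : 3 ≤ M := hw.lv.three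
  have hP : P.IsPrime := hAb.1.1
  have h0 : P ≠ ⊥ := hAb.1.2
  have hz : ((0 : ℚ)).den.Coprime M := by simp
  let hh : ℚ → DI.F.RF hP h0 := fun r =>
    if r.den.Coprime M then DI.F.red hP h0 (xs P f k m R χ r) else 0
  let ch : ℤ → DI.F.RF hP h0 := fun d => DI.F.red hP h0 (χ (sp ((G1_d M d : ℤ) : OO n t)))
  have hhq : ∀ r : ℚ, r.den.Coprime M → hh r = DI.F.red hP h0 (xs P f k m R χ r) :=
    fun r hr => if_pos hr
  have hbd : ∀ (a b c d : ℤ), G0 M a b c d → (((b : ℚ) / d).den).Coprime M := by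
    intro a b c d hG
    have h1 := (hV2 a b c d (G1_d M d) hG (G1_d_odd hMo d) (G1_d_dvd M d) 0 hz).2.1
    rwa [mul_zero, zero_add, mul_zero, zero_add] at h1
  have hA : ∀ (a b c d : ℤ), G0 M a b c d → ∀ r : ℚ, r.den.Coprime M →
      hh ((a * r + b) / (c * r + d)) - ch d * hh r = hh (b / d) - ch d * hh 0 := by
    intro a b c d hG r hr
    obtain ⟨-, hd1, hup, hmp⟩ := hV2 a b c d (G1_d M d) hG (G1_d_odd hMo d) (G1_d_dvd M d) r hr
    have hb := hbd a b c d hG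
    have v1 := hV1 _ hd1
    have v2 := hV1 _ hr
    have v3 := hV1 _ hb
    have v4 := hV1 _ hz
    have hc : VP P (χ (sp ((G1_d M d : ℤ) : OO n t))) := hup.1
    rw [hhq _ hd1, hhq _ hr, hhq _ hb, hhq _ hz]
    change _ - DI.F.red hP h0 (χ (sp ((G1_d M d : ℤ) : OO n t))) * _ =
      _ - DI.F.red hP h0 (χ (sp ((G1_d M d : ℤ) : OO n t))) * _
    rw [← DI.F.red_mul hP h0 hc v2, ← DI.F.red_mul hP h0 hc v4,
      ← DI.F.red_sub hP h0 v1 (DI.F.vp_mul hP hc v2), ← DI.F.red_sub hP h0 v3 (DI.F.vp_mul hP hc v4),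
      DI.F.red_eq_iff hP h0 (DI.F.vp_sub hP v1 (DI.F.vp_mul hP hc v2))
        (DI.F.vp_sub hP v3 (DI.F.vp_mul hP hc v4))]
    exact hmp
  have hB : ∀ (c : ℤ) (j : ℕ), hh (c / 2 ^ j) = hh 0 := by
    intro c j
    have hd := G1_den2 hMo c j
    rw [hhq _ hd, hhq _ hz, DI.F.red_eq_iff hP h0 (hV1 _ hd) (hV1 _ hz)]
    exact hcon c j
  obtain ⟨a, b, c, d, hG, hd, hno⟩ := hF n t f M k m R hFM hFR hRC hw hmt χ hχ P hAb hk hty
  have hfin := hVq M (DI.F.RF hP h0) hh ch hMo hM3 hA hB a b c d hG hd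
  have hb := hbd a b c d hG
  rw [hhq _ hb, hhq _ hz, DI.F.red_eq_iff hP h0 (hV1 _ hb) (hV1 _ hz)] at hfin
  exact hno hfin

end Pool.Agent.DN.G
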