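import Pool.Agent.Lib.DN.Base
import Pool.Agent.Lib.DN.Ded
import Pool.Agent.Lib.DN.IfaceG
import Pool.Agent.Lib.DN.O.Spec

/-!
# Theorem DN, part G, first half (elliptic units): statements of the modules with proofs

Author helper21 (after `DK/G/Spec.lean`). Every `C_X` is a statement; `S_X` is the implication from the
statements used to `C_X` (or to an interface statement of `DN/Iface.lean`, `DN/IfaceG.lean`). To be
proved, in the module `DN/G/X.lean`: `theorem tX : S_X`. The docstring of `S_X` contains a complete proof. Most modules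
are edits of the module with the same name in `DK/G/` (copy and change: `OO k` becomes `OO k t`, `H_f` is modulo `2 f`,
`Nm (x + y w) = x² + t x y + k y²`, `t = 1`, `k` odd; `(2)` is a prime ideal, `Cop v 2 ↔ ¬ 2 ∣ v`).

Tools: `DN/Base.lean` (`Nm_mul`, `Nm_congr`, `nat_dvd_iff`, `cop_congr`, `cop_mul`, `cop_inv`, `cop_dvd`, `toC_..`, `toO_..`,
`lam_..`, `tor_..`, `GK_toO`), `DN/Ded.lean` (instances: `OO k t` is a domain, a Dedekind domain), `DI/Val.lean`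
(`VP.add`, `MP.mul_cases`, `UP.prod`, ...; `have := hP.1` for the instance `P.IsPrime`).
`Cop` is multiplicative in both arguments: `IsCoprime.mul_left_iff`, `IsCoprime.mul_right_iff`, `Nm_mul`.

Notation: `M = f * 2 ^ N`, `z_h = toC h / M`.
-/

set_option autoImplicit false

open scoped Pointwise

noncomputable section

namespace Pool.Agent.DN.G

open Pool.Agent.MuZ Pool.Agent.FW Pool.Agent.DN
open Pool.Agent.DI (io ofC io_inj exists_io io_ofC ofC_io VP MP UP TP ex sqr sqr_sq kap)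

variable {k t : ℕ}

/-! ## Definitions -/

/-- `β = 1 + f (x + y w)`. -/
def bt (k t f : ℕ) (x y : ℕ) : OO k t := ⟨1 + f * x, f * y⟩

/-- A set of representatives modulo `M` and `± 1` for the elements with `H`. -/
structure IsRp (M : ℕ) (H : OO k t → Prop) (T : Finset (OO k t)) : Prop where
  mem : ∀ h ∈ T, H h
  ex : ∀ v : OO k t, H v → ∃ h ∈ T, (M : OO k t) ∣ v - h ∨ (M : OO k t) ∣ v + h
  uni : ∀ h ∈ T, ∀ h' ∈ T, ((M : OO k t) ∣ h - h' ∨ (M : OO k t) ∣ h + h') → h = h'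

theorem isRep_iff {f N : ℕ} {T : Finset (OO k t)} :
    IsRep f N T ↔ IsRp (f * 2 ^ N) (fun v => HN f N v) T :=
  ⟨fun h => ⟨h.mem, fun v hv => h.ex v hv, h.uni⟩, fun h => ⟨h.mem, fun v h1 => h.ex v h1, h.uni⟩⟩

/-- A set of representatives modulo `M` of the ray classes with `C`. -/
structure IsRI (M : ℕ) (C : Ideal (OO k t) → Prop) (B : Finset (Ideal (OO k t))) : Prop where
  mem : ∀ b ∈ B, C b
  ex : ∀ b : Ideal (OO k t), C b → ∃ b' ∈ B, Ray M b b'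
  uni : ∀ b ∈ B, ∀ b' ∈ B, Ray M b b' → b = b'

/-- The ideals prime to `2 f` with norm `± 1` modulo `2 ^ N`. -/
def CN (f N : ℕ) (b : Ideal (OO k t)) : Prop :=
  b ≠ ⊥ ∧ PrI b (2 * f) ∧ ((2 : ℤ) ^ N ∣ (NI b : ℤ) - 1 ∨ (2 : ℤ) ^ N ∣ (NI b : ℤ) + 1)

/-- `a` and `b` are `±` each other modulo `2 ^ N`. -/
def Pm (N : ℕ) (a b : ℤ) : Prop := (2 : ℤ) ^ N ∣ a - b ∨ (2 : ℤ) ^ N ∣ a + b

/-- The hypotheses on `f` and `m`. -/
structure Hy (f : ℕ) (m : Ideal (OO k t)) : Prop where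
  odd : Odd f
  fif : 15 ∣ f
  ne : m ≠ ⊥
  two : PrI m 2
  cop : PrI m f

/-! ## 1. Elements of `O` -/

/-- Coprimality, inverses, odd lifts. -/
def C_Cop : Prop :=
  ∀ (k t : ℕ) [Ine k t], (∀ (v u : OO k t) (M : ℕ), Cop (v * u) M ↔ Cop v M ∧ Cop u M) ∧
    (∀ (v : OO k t) (M M' : ℕ), Cop v (M * M') ↔ Cop v M ∧ Cop v M') ∧
    (∀ v : OO k t, Cop v 2 ↔ ¬ (2 : ℤ) ∣ Nm v) ∧ (∀ v : OO k t, Cop v 2 ↔ ¬ (2 : OO k t) ∣ v) ∧
    (∀ (v : OO k t) (M : ℕ), 0 < M → Cop v M → ∃ u : OO k t, u ≠ 0 ∧ Cop u M ∧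
      (M : OO k t) ∣ v * u - 1) ∧
    (∀ (v u : OO k t) (M : ℕ), Cop v M → (M : OO k t) ∣ v * u → (M : OO k t) ∣ u) ∧
    (∀ (v : OO k t) (f : ℕ), Odd f → Cop v f →
      ∃ v' : OO k t, v' ≠ 0 ∧ (f : OO k t) ∣ v' - v ∧ (2 : OO k t) ∣ v' - 1 ∧ Cop v' (2 * f)) ∧
    (∀ (f N : ℕ) (v : OO k t), 1 ≤ N → Cop v (f * 2 ^ N) → Cop v (2 * f)) ∧
    ∀ (f N : ℕ) (v : OO k t), Cop v (2 * f) → Cop v (f * 2 ^ N)

/-- (120 lines) **Cop**. (`DK/G/Cop.lean`.) PROOF. `Cop v M` is `IsCoprime (Nm v) M`. (3), (4): `S_O4`. Inverse: `cop_inv`; if the inverse `u` is `0` then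
`M ∣ 1` in `O`, so `M = 1` (`nat_dvd_iff`), and take `u = 1`. Cancellation: `u = (v u') u - (v u' - 1) u`. Odd lift:
`v' = v + f (1 - v) = 1 + (f - 1)(1 - v)`: `f ∣ v' - v`, `2 ∣ v' - 1` (`f - 1` is even), so `2 ∤ v'` (`2 ∤ 1`: `nat_dvd_iff`), `Cop v' 2`, `v' ≠ 0`. The last two
claims: `IsCoprime.pow_right_iff`, `mul_right_iff`. -/
def S_Cop : Prop := S_O4 → C_Cop

/-- The groups `H_f`, `H_N`. -/
def C_HNf : Prop :=
  ∀ (k t : ℕ) [Ine k t] (f N : ℕ), 1 ≤ N →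
    (Hf f (1 : OO k t) ∧ Hf f (-1 : OO k t) ∧ HN f N (1 : OO k t) ∧ HN f N (-1 : OO k t)) ∧
    (∀ v u : OO k t, Hf f v → Hf f u → Hf f (v * u)) ∧
    (∀ v u : OO k t, HN f N v → HN f N u → HN f N (v * u)) ∧
    (∀ v u : OO k t, ((2 * f : ℕ) : OO k t) ∣ u - v → Hf f v → Hf f u) ∧
    (∀ v u : OO k t, ((f * 2 ^ N : ℕ) : OO k t) ∣ u - v → HN f N v → HN f N u) ∧
    (∀ v u : OO k t, Hf f v → ((2 * f : ℕ) : OO k t) ∣ v * u - 1 → Hf f u) ∧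
    (∀ v u : OO k t, HN f N v → ((f * 2 ^ N : ℕ) : OO k t) ∣ v * u - 1 → HN f N u) ∧
    (∀ v : OO k t, Hf f v → Cop v (2 * f)) ∧ (∀ v : OO k t, HN f N v → Cop v (f * 2 ^ N)) ∧
    (∀ v : OO k t, HN f (N + 1) v → HN f N v) ∧
    ∀ v : OO k t, v ≠ 0 → Cop v (2 * f) → ((2 * f : ℕ) : OO k t) ∣ v - 1 → Hf f v

/-- (120 lines) **HNf**. (`DK/G/HNf.lean`; here `Hf` contains `Cop v (2 f)` and is modulo `2 f`.) PROOF. `(v u)^(2^j) = 1` modulo `2 f` with `j` the sum of the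
exponents (`v^(2^j) = 1` implies `v^(2^(j+i)) = 1`). `(-1)^2 = 1`, `Nm (-1) = 1`. If `2 f ∣ u - v` then `2 f ∣ u^n - v^n`, `cop_congr`. If `v u = 1` modulo `2 f` then
`u^(2^j) = v^(2^j) u^(2^j) = 1`, and `Cop u (2 f)` (`Nm v Nm u = 1` modulo `2 f`, `Nm_congr`). Norms: products of `± 1` modulo `2^N`; `Nm u = Nm v` modulo
`f 2^N` if `f 2^N ∣ u - v` (`Nm_congr`); `2 f ∣ f 2^N` as `1 ≤ N`. `Cop v (f 2^N)`: C_Cop (last). Last claim: `j = 0`. -/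
def S_HNf : Prop := C_Cop → C_HNf

/-- Units in `H_f`. -/
def C_Un : Prop :=
  ∀ (k t : ℕ) [Ine k t], (∀ e : OO k t, Nm e = 1 → ∀ j : ℕ, e ^ 2 ^ j = 1 → e = 1 ∨ e = -1) ∧
    (∀ (f : ℕ) (e : OO k t), 2 ≤ f → Nm e = 1 → Hf f e → e = 1 ∨ e = -1) ∧
    ∀ (f N : ℕ) (h h' : OO k t), 2 ≤ f → 1 ≤ N → Hf f h → Hf f h' →
      Ray (f * 2 ^ N) (sp h) (sp h') →
      ((f * 2 ^ N : ℕ) : OO k t) ∣ h - h' ∨ ((f * 2 ^ N : ℕ) : OO k t) ∣ h + h'

/-- (100 lines) **Un**. PROOF. (1) Induction on `j`: `j = 0` is clear; let `e^(2^(j+1)) = 1`, so `e² = ± 1` by induction for `e²` (`Nm (e²) = 1`). If `e² = 1` then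
`(e - 1)(e + 1) = 0` (domain). If `e² = -1`, `e = ⟨x, y⟩`, `t = 1`: `im`: `y (2 x + y) = 0`, `re`: `x² - k y² = -1`. `y = 0` gives `x² = -1`; `y = -2 x` gives `x² (1 - 4 k) = -1`, so
`4 k - 1 ∣ 1`, `k ≥ 1`: impossible. (2) `2 f ∣ e^(2^j) - 1`, `Nm (e^(2^j)) = 1`, `2 f ≥ 3`: `e^(2^j) = 1` (`S_O7` (9) for `N := 2 f`), and (1). (3) `h, h' ≠ 0` (`Cop` with `2 f ≥ 4`; or
`Nm 0 = 0`). `S_O7` (8) for `N := f 2^N`: `e` with `Nm e = 1`, `f 2^N ∣ h - e h'`. Let `h''` be an inverse of `h'` modulo `f 2^N` (C_Cop; `Cop h' (f 2^N)`): `e = h h''` modulo `f 2^N`, so modulo `2 f`,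
and `Hf f e` by C_HNf. So `e = ± 1` by (2). -/
def S_Un : Prop := S_O7 → C_Cop → C_HNf → C_Un

/-- An element `= 1` modulo `2 f` with given norm modulo `2 ^ N`. -/
def C_V0 : Prop :=
  ∀ (k t : ℕ) [Ine k t] (f N : ℕ) (a : ℤ), Odd f → Odd a →
    ∃ v : OO k t, v ≠ 0 ∧ ((2 * f : ℕ) : OO k t) ∣ v - 1 ∧ (2 : ℤ) ^ N ∣ Nm v - a ∧ Cop v (2 * f)

/-- (80 lines) **V0**. (`DK/G/V0.lean`.) PROOF. `v = ⟨1, 2 f y⟩ = 1 + 2 f y w`: `Nm v = 1 + 2 f y + 4 k f² y²` (`t = 1`) `= 1 + 2 q(y)`, `q(y) = f y + 2 k f² y²`. `q(y) - q(y') =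
(y - y')(f + 2 k f² (y + y'))` and the second factor is odd, so `q` is injective on `ZMod (2^N)`, hence surjective (`Finite.injective_iff_surjective`): `y` with
`2^N ∣ q(y) - (a - 1)/2`, so `2^(N+1) ∣ Nm v - a`. `Nm v = 1` modulo `2 f` (`Nm_congr`): `Cop v (2 f)`, `v ≠ 0` as `Nm v` is odd. -/
def S_V0 : Prop := C_Cop → C_V0

/-- Sums and products over two systems of representatives; multiplication by an invertible element. -/
def C_Rp : Prop :=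
  ∀ (k t : ℕ) [Ine k t], (∀ (M : ℕ) (H : OO k t → Prop) (T T' : Finset (OO k t)) (A : Type)
    [CommMonoid A] (F : OO k t → A), IsRp M H T → IsRp M H T' →
    (∀ v u : OO k t, H v → H u → (M : OO k t) ∣ v - u → F v = F u) → (∀ v : OO k t, F (-v) = F v) →
    (∀ v : OO k t, H v → H (-v)) → ∏ h ∈ T, F h = ∏ h ∈ T', F h) ∧
  (∀ (M : ℕ) (H : OO k t → Prop) (T : Finset (OO k t)) (A : Type) [CommMonoid A]
    (F : OO k t → A) (a b : OO k t), IsRp M H T → (M : OO k t) ∣ a * b - 1 →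
    (∀ v, H v → H (a * v)) → (∀ v, H v → H (b * v)) →
    (∀ v u : OO k t, H v → H u → (M : OO k t) ∣ v - u → F v = F u) →
    (∀ v : OO k t, F (-v) = F v) → (∀ v : OO k t, H v → H (-v)) → ∏ h ∈ T, F (a * h) = ∏ h ∈ T, F h)

/-- (120 lines) **Rp**. Copy `DK/G/Rp.lean` (nothing changes). -/
def S_Rp : Prop := C_Rp

/-- The number of representatives is even. -/
def C_TEv : Prop :=
  ∀ (k t : ℕ) [Ine k t] (f N : ℕ) (T : Finset (OO k t)), Odd f → 15 ∣ f → 2 ≤ N → IsRep f N T →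
    Even T.card

/-- (80 lines) **TEv**. (`DK/G/TEv.lean`.) PROOF. Let `j` be an integer with `j = 1` modulo `f`, `j = -1` modulo `2^N` (coprime moduli). `j² = 1` modulo `f 2^N`, so modulo `2 f`;
`(j : O)` is in `HN f N` (norm `j²`). For `h ∈ T` let `e h ∈ T` with `f 2^N ∣ j h ∓ e h` (`ex`). `e (e h) = h`: `j e h = ± j² h = ± h` and `uni`.
`e h ≠ h`: otherwise `f 2^N ∣ (j ∓ 1) h`, so `f 2^N ∣ j ∓ 1` (C_Cop, cancellation), but `f ∤ j + 1` (`f ∤ 2`) and `2^N ∤ j - 1` (`2^N ∤ 2`).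
`Finset.prod_involution` for the constant function `-1 : ℤ` gives `(-1)^card = 1` (or any other argument). -/
def S_TEv : Prop := C_Cop → C_HNf → C_TEv

/-- Two systems modulo `f 2^(N+1)` of the elements of `H_N`. -/
def C_TwR : Prop :=
  ∀ (k t : ℕ) [Ine k t] (f N : ℕ) (T T' : Finset (OO k t)) (a : OO k t), Odd f → 15 ∣ f → 2 ≤ N →
    IsRep f N T → IsRep f (N + 1) T' → HN f N a → ¬ HN f (N + 1) a →
    ∀ E : Finset (OO k t), E = {0, 1, wI k t, 1 + wI k t} →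
    IsRp (f * 2 ^ (N + 1)) (fun v => HN f N v) (T' ∪ T'.image (fun h => a * h)) ∧
    Disjoint T' (T'.image (fun h => a * h)) ∧ Set.InjOn (fun h => a * h) (T' : Set (OO k t)) ∧
    IsRp (f * 2 ^ (N + 1)) (fun v => HN f N v)
      ((T ×ˢ E).image (fun p => p.1 + (f * 2 ^ N : ℕ) * p.2)) ∧
    Set.InjOn (fun p : OO k t × OO k t => p.1 + (f * 2 ^ N : ℕ) * p.2)
      ((T ×ˢ E : Finset (OO k t × OO k t)) : Set (OO k t × OO k t))

/-- (200 lines) **TwR**. (`DK/G/TwR.lean`.) PROOF. `M' = f 2^(N+1)`. Norms: an element of `HN f N` has norm `±1` or `±1 + 2^N` modulo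
`2^(N+1)`; it is in `HN f (N+1)` in the first case only, and the four classes are different (`N ≥ 2`). So `Nm a = ±1 + 2^N`. FIRST
SYSTEM: `mem` by C_HNf. `ex`: `v` with `HN f N v`: in the first case `T'`; otherwise let `b` be an inverse of `a` modulo `M'`
(C_Cop; `HN f N b` by C_HNf: `f 2^N ∣ M'`): `Nm (b v) = ±1` modulo `2^(N+1)` and `Hf f (b v)`, so `M' ∣ b v ∓ h` with `h ∈ T'`, `M' ∣ v ∓ a h`. `uni`:
inside `T'`; inside `a T'` (multiply by `b`); `h = ± a h'` modulo `M'` is impossible by the norms; this is also the disjointness.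
SECOND SYSTEM: `mem`: `HN f N` is invariant modulo `f 2^N`. `ex`: `v = ± h + f 2^N x`, so
`v = ± (h + f 2^N (± x))`, and `± x = e` modulo `2` with `e ∈ E` (parities of the coordinates). `uni`: `h + f 2^N e = ± (h' + f 2^N e')`
modulo `M'` gives `h = h'` (`uni` for `T`); with the sign `+`: `2 ∣ e - e'`, so `e = e'`; with the sign `-`: `f ∣ 2 h`, impossible
(`Cop h f`, `f ≥ 3` odd). -/
def S_TwR : Prop := C_Cop → C_HNf → C_TwR

/-! ## 2. Ray classes -/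

/-- Lifting a ray equivalence to a larger modulus. -/
def C_RUp : Prop :=
  ∀ (k t : ℕ) [Ine k t] (f n : ℕ) (b b' : Ideal (OO k t)), 0 < f → 0 < n → b ≠ ⊥ → b' ≠ ⊥ →
    PrI b (f * n) → PrI b' (f * n) → Ray f b' b →
    ∃ β : OO k t, β ≠ 0 ∧ (f : OO k t) ∣ β - 1 ∧ Cop β (f * n) ∧ Ray (f * n) b' (sp β * b)

/-- (120 lines) **RUp**. Copy `DK/G/RUp.lean` (nothing changes). -/
def S_RUp : Prop := S_O6 → C_Cop → C_RUp

/-- Sums over two systems of representatives of classes. -/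
def C_RI : Prop :=
  ∀ (k t : ℕ) [Ine k t] (M : ℕ) (C : Ideal (OO k t) → Prop) (B B' : Finset (Ideal (OO k t))) (A : Type)
    [AddCommMonoid A] (F : Ideal (OO k t) → A), 0 < M → IsRI M C B → IsRI M C B' →
    (∀ b b' : Ideal (OO k t), C b → C b' → Ray M b b' → F b = F b') → ∑ b ∈ B, F b = ∑ b ∈ B', F b

/-- (60 lines) **RI**. Copy `DK/G/RI.lean`. -/
def S_RI : Prop := S_O7 → C_RI

/-- Every class modulo `f` contains ideals prime to `n f`; sums over the classes; multiplication by `a`. -/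
def C_R2 : Prop :=
  ∀ (k t : ℕ) [Ine k t] (f n : ℕ), 0 < f → 0 < n →
    (∃ R : Finset (Ideal (OO k t)), IsRC f R ∧ ∀ b ∈ R, PrI b (n * f)) ∧
    (∀ R R' : Finset (Ideal (OO k t)), IsRC f R → IsRC f R' → ∀ F : Ideal (OO k t) → Om,
      (∀ b b' : Ideal (OO k t), b ≠ ⊥ → PrI b f → b' ≠ ⊥ → PrI b' f → Ray f b b' → F b = F b') →
      ∑ b ∈ R, F b = ∑ b ∈ R', F b) ∧
    ∀ R : Finset (Ideal (OO k t)), IsRC f R → ∀ a : Ideal (OO k t), a ≠ ⊥ → PrI a f →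
      ∀ F : Ideal (OO k t) → Om,
      (∀ b b' : Ideal (OO k t), b ≠ ⊥ → PrI b f → b' ≠ ⊥ → PrI b' f → Ray f b b' → F b = F b') →
      ∑ b ∈ R, F (a * b) = ∑ b ∈ R, F b

/-- (100 lines) **R2**. (`DK/G/R2.lean`.) PROOF. `IsRC f R` is `IsRI f (fun b => b ≠ ⊥ ∧ PrI b f) R`. FIRST: `S_O7` gives `R0` with `IsRC f R0`; for `b ∈ R0` `S_O8`
(`N = f`, `M = n`, `C = fun _ => True`) gives `b' ≠ ⊥`, `PrI b' (f * n)`, `Ray f b b'`; `R` = the image of `R0` under a choice `b ↦ b'`. SECOND: C_RI.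
THIRD: the image of `R` under `b ↦ a * b` is a system of representatives: `ex`: given `b`, `S_O7` gives `a'` with `Ray f (a * a') ⊤`; `b₁ ∈ R` with
`Ray f (a' * b) b₁`; then `Ray f (a * b₁) b`; `uni` and injectivity: cancel `a` (`S_O7`). C_RI. -/
def S_R2 : Prop := S_O6 → S_O7 → S_O8 → C_RI → C_R2

/-- The classes modulo `f 2^N`: first system. -/
def C_RB : Prop :=
  ∀ (k t : ℕ) [Ine k t] (f N : ℕ) (R : Finset (Ideal (OO k t))), Odd f → 15 ∣ f → 1 ≤ N → IsRC f R →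
    (∀ b ∈ R, PrI b (2 * f)) → ∀ I : Finset (Ideal (OO k t) × ℕ × ℕ),
    (∀ p, p ∈ I ↔ p.1 ∈ R ∧ p.2.1 < 2 ^ N ∧ p.2.2 < 2 ^ N ∧
      Pm N (NI p.1 * Nm (bt k t f p.2.1 p.2.2)) 1) →
    Set.InjOn (fun p : Ideal (OO k t) × ℕ × ℕ => sp (bt k t f p.2.1 p.2.2) * p.1) (I : Set _) ∧
    ∀ B : Finset (Ideal (OO k t)), (B : Set (Ideal (OO k t))) =
      (fun p : Ideal (OO k t) × ℕ × ℕ => sp (bt k t f p.2.1 p.2.2) * p.1) '' (I : Set _) →
      IsRI (f * 2 ^ N) (CN f N) B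

/-- (150 lines) **RB**. (`DK/G/RB.lean`.) PROOF. Let `β = bt k t f x y`, so `f ∣ β - 1`, `β ≠ 0`; the condition `Pm` implies that `Nm β` is odd (`N ≥ 1`), so
`Cop β (2 f)`. `mem`: `NI (sp β * b) = Nm β NI b` (`S_O2`), `PrI` by `S_O6`. `ex`: let `CN f N b'`. `IsRC.ex`: `b ∈ R`, `Ray f b' b`. C_RUp (`n = 2^N`):
`β'` with `f ∣ β' - 1`, `Cop β' (f 2^N)`, `Ray (f 2^N) b' (sp β' * b)`. `β' = 1 + f γ`; let `x, y` be the residues modulo `2^N` of the coordinates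
of `γ`: `f 2^N ∣ β' - bt k t f x y`, so (`S_O7` (8) with `e = 1`) `Ray (f 2^N) b' (sp (bt k t f x y) * b)`. The norm condition: `S_O9` for `N := f 2^N` and `S_O2`
(`NI b' = Nm β NI b` modulo `2^N`). INJECTIVITY, `uni`: let `Ray (f 2^N) (sp β * b) (sp β' * b')`. `Ray f (sp β) ⊤` (`S_O7`: `f ∣ β - 1`; `sp 1 = ⊤`), so
`Ray f b b'`, `b = b'`; cancel `b`: `Ray (f 2^N) (sp β) (sp β')`, so `f 2^N ∣ β - β'` (`S_O10` (3), `3 ≤ f`). So
`f 2^N ∣ β - β' = f ⟨x - x', y - y'⟩`, `2^N ∣ x - x'`, `y - y'`, and `x = x'`, `y = y'` (`< 2^N`). -/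
def S_RB : Prop := S_O2 → S_O6 → S_O7 → S_O9 → S_O10 → C_Cop → C_RUp → C_RB

/-- The classes modulo `f 2^N`: second system. -/
def C_RD : Prop :=
  ∀ (k t : ℕ) [Ine k t] (f N : ℕ) (T : Finset (OO k t)) (D : Finset (Ideal (OO k t))), Odd f → 15 ∣ f →
    1 ≤ N → IsRep f N T → IsDS f N D →
    Set.InjOn (fun p : Ideal (OO k t) × OO k t => sp p.2 * p.1)
      ((D ×ˢ T : Finset (Ideal (OO k t) × OO k t)) : Set _) ∧
    ∀ B : Finset (Ideal (OO k t)), (B : Set (Ideal (OO k t))) =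
      (fun p : Ideal (OO k t) × OO k t => sp p.2 * p.1) ''
        ((D ×ˢ T : Finset (Ideal (OO k t) × OO k t)) : Set _) →
      IsRI (f * 2 ^ N) (CN f N) B

/-- (150 lines) **RD**. (`DK/G/RD.lean`.) PROOF. `mem`: `NI (sp h * c) = Nm h NI c = ± 1` modulo `2^N` (`S_O2`), `PrI` by `S_O6`. `ex`: let `CN f N b'`. `IsDS.ex`:
`c ∈ D`, `HP f a`, `Ray (2 f) b' (a * c)`; `Ray (2 f) a (sp v)`, `Hf f v`, so `Ray (2 f) b' (sp v * c)`. C_RUp for `f := 2 f`, `n := 2^(N-1)` (`2 f * 2^(N-1) = f * 2^N`): `β` with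
`2 f ∣ β - 1`, `Ray (f 2^N) b' (sp β * (sp v * c))`; `h' = β v`: `Hf f h'` (`h' = v` modulo `2 f`), and
`NI b' = Nm h' NI c` modulo `2^N` (`S_O9`, `S_O2`), so `Nm h' = ± 1` modulo `2^N`: `HN f N h'`. `IsRep.ex`: `h ∈ T` with `f 2^N ∣ h' ∓ h`, so
`Ray (f 2^N) b' (sp h * c)` (`S_O7` (8), `e = ± 1`). `uni`, INJECTIVITY: let `Ray (f 2^N) (sp h * c) (sp h' * c')`, so the same modulo `2 f`. Let `h'' ≠ 0` be an inverse of `h'` modulo `2 f`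
(C_Cop): `Hf f h''`, `Ray (2 f) (sp (h'' h) * c) (sp (h'' h') * c')`, `Ray (2 f) (sp (h'' h')) ⊤`, so `Ray (2 f) c' (sp (h'' h) * c)` and `HP f (sp (h'' h))`: `c = c'` by
`IsDS.uni`. Cancel `c`: `Ray (f 2^N) (sp h) (sp h')`, `f 2^N ∣ h ∓ h'` (C_Un), `h = h'` (`IsRep.uni`). (`h ≠ 0` since `Cop h (2 f)`.) -/
def S_RD : Prop := S_O2 → S_O6 → S_O7 → S_O9 → C_Cop → C_HNf → C_Un → C_RUp → C_RD

/-- (150 lines) **GR**: `S_GR`. (`DK/G/GRm.lean`.) PROOF. `T`: the finite set `Y` of the `⟨x, y⟩`, `0 ≤ x, y < 2 f 2^N`, with `HN f N`; every `v` with `HN f N v`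
is congruent modulo `2 f 2^N` to one of them (C_HNf). Choose representatives for the relation `f 2^N ∣ v - u ∨ f 2^N ∣ v + u`
(an equivalence relation): e.g. `Y.image r`, `r v` a chosen element of the nonempty finite set `{u ∈ Y | u ~ v}`, which depends only on
the class of `v`. `D`: `R` with `IsRC (2 f) R` (`S_O7`). For `b ∈ R` let `v_b` be from C_V0 for an odd `a` with
`a NI b = 1` modulo `2^N` (`NI b` is odd, `S_O6`), `c_b = sp v_b * b`: `Ray (2 f) b c_b`, `PrI c_b (2 f)`, `NI c_b = 1` modulo `2^N` (`S_O2`). Let `Y` be the set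
of the `c_b`. The relation `c ~ c'` iff there is `a` with `HP f a` and `Ray (2 f) c' (a * c)` is an equivalence relation on ideals `≠ ⊥` prime to `2 f`
(C_HNf and `S_O7`: reflexive: `a = ⊤`; symmetric: `Ray (2 f) a (sp v)`, `u ≠ 0` an inverse of `v` modulo `2 f` (C_Cop), `Ray (2 f) (sp (u v)) ⊤`; transitive: products). Choose
representatives as before. -/
def S_GRm : Prop := S_O2 → S_O6 → S_O7 → C_Cop → C_HNf → C_V0 → S_GR

/-- The groups `HP`, `HPN`. -/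
def C_HPg : Prop :=
  ∀ (k t : ℕ) [Ine k t] (f : ℕ), Odd f → 15 ∣ f →
    (HP f (⊤ : Ideal (OO k t)) ∧ (∀ a : Ideal (OO k t), HP f a → a ≠ ⊥ ∧ PrI a (2 * f)) ∧
      (∀ a a' : Ideal (OO k t), HP f a → Ray (2 * f) a a' → HP f a') ∧
      ∀ a a' : Ideal (OO k t), HP f a → HP f a' → HP f (a * a')) ∧
    ∀ N : ℕ, 1 ≤ N → HPN f N (⊤ : Ideal (OO k t)) ∧
      (∀ a : Ideal (OO k t), HPN f N a → a ≠ ⊥ ∧ PrI a (f * 2 ^ N)) ∧
      (∀ a a' : Ideal (OO k t), HPN f N a → Ray (f * 2 ^ N) a a' → HPN f N a') ∧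
      (∀ a a' : Ideal (OO k t), HPN f N a → HPN f N a' → HPN f N (a * a')) ∧
      ∀ a : Ideal (OO k t), a ≠ ⊥ → PrI a (f * 2 ^ N) → (HPN f N a ↔ HP f a ∧
        ((2 : ℤ) ^ N ∣ (NI a : ℤ) - 1 ∨ (2 : ℤ) ^ N ∣ (NI a : ℤ) + 1))

/-- (150 lines) **HPg**. (`DK/G/HPg.lean`.) PROOF. `⊤ = sp 1`. All the closure properties: C_HNf and `S_O7` (`Ray` is an equivalence relation compatible with
products; `PrI` and `≠ ⊥` are invariant; `PrI (sp v) (2 f)` from `Cop v (2 f)`: `S_O6`). LAST CLAIM. `→`: `Ray (f 2^N) a (sp v)` gives `Ray (2 f) a (sp v)` (`S_O7`), and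
`NI a = Nm v` modulo `f 2^N` (`S_O9`, `S_O2`). `←`: `Ray (2 f) a (sp v)`, `Hf f v`, `v ≠ 0`. C_RUp (`f := 2 f`, `n := 2^(N-1)`, `b' = a`, `b = sp v`): `β`, `2 f ∣ β - 1`, with
`Ray (f 2^N) a (sp β * sp v) = sp (β v)`; `Hf f (β v)`, `Nm (β v) = NI a = ± 1` modulo `2^N` (`S_O9`, `S_O2`): `HN f N (β v)`. -/
def S_HPg : Prop := S_O2 → S_O6 → S_O7 → S_O9 → C_Cop → C_HNf → C_RUp → C_HPg

/-- (150 lines) **GM**: `S_GM`. (`DK/G/GMm.lean`.) PROOF. Groups: C_HPg. Fields: `Mf k t f = FixI (2 f) (HP f)`, `Mn k t f N = FixI (f * 2^N) (HPN f N)`: `S_E8` (`15 ∣ 2 f`, `15 ∣ f 2^N`) gives finiteness,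
`KQ ≤ ·` and the Galois groups. `Mf ≤ Mn N`: let `x ∈ Mf`, `τ ∈ GK`, `Psi τ (f 2^N) a`, `HPN f N a`: `Psi τ (2 f) a` (`S_E1`, last claim; `2 f ∣ f 2^N`), `HP f a`, so `τ x = x`.
`Mn N ≤ Mn (N+1)`: the same (`HPN f (N+1) a → HPN f N a`: last claim of C_HPg). LAST CLAIM. `→`: `τ` fixes `KQ ≤ Mf ≤ Mn`, so `τ ∈ GK`; `Psi τ (f 2^N) a` (`S_E1`),
`HPN f N a`, `NI a = ± 1` modulo `2^N`, and `τ ζ = ζ^(NI a)` (`S_E6` for `N := f 2^N`: `ζ^(f 2^N) = 1`), `= ζ^(± 1)`. `←`: `τ ∈ GK`, `Psi τ (f 2^N) a`, `Psi τ (2 f) a`, so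
`HP f a`; `ζ^(NI a) = τ ζ = ζ^(± 1)` and `ζ` is primitive: `2^N ∣ NI a ∓ 1` (`IsPrimitiveRoot.zpow_eq_one_iff_dvd`); C_HPg: `HPN f N a` (`Psi.cop`, `Psi.ne`: `PrI a (15 (f 2^N))`, so `PrI a (f 2^N)`, `S_O6`). -/
def S_GMm : Prop := S_O6 → S_E1 → S_E6 → S_E8 → C_HPg → S_GM

/-! ## 3. Class functions, points which are not primary -/

/-- Homogeneous functions at points of order `M` depend only on the ray class modulo `M` (`15 ∣ M`). -/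
def C_RayF : Prop :=
  ∀ (k t : ℕ) [Ine k t] (M : ℕ) (A : Type) (F : Ideal (OO k t) → ℂ → A), 0 < M → 15 ∣ M →
    (∀ (b : Ideal (OO k t)) (α : OO k t) (z : ℂ), G15 b → α ≠ 0 → Cop α 15 → Tor k t z →
      F (sp α * b) z = F b (toC α * z)) →
    (∀ (b : Ideal (OO k t)) (z l : ℂ), G15 b → l ∈ Lam b → F b (z + l) = F b z) →
    ∀ b b' : Ideal (OO k t), G15 b → G15 b' → Ray M b b' → ∀ h : OO k t,
      F b (toC h / M) = F b' (toC h / M)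

/-- (80 lines) **RayF**. (`DK/G/RayF.lean`.) PROOF. `sp α * b = sp α' * b'`, `M ∣ α - α'`, `Cop α M`, `Cop α' M`. Let `β ≠ 0`, `Cop β M`, with `M ∣ α β - 1` (C_Cop); then `M ∣ α' β - 1`.
`sp (α β) * b = sp (α' β) * b'`, so `F b (toC (α β) * z) = F b' (toC (α' β) * z)` for all torsion `z` (`Cop (α β) 15` as `15 ∣ M`). For `z = toC h / M` (`tor_div`):
`toC (α β) * z = z + toC (h c)` with `α β - 1 = M c`, and `toC (h c) ∈ Lam b` (`lam_top`, `lam_mono`). So the left side is `F b (toC h / M)`, and the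
same for the right side. -/
def S_RayF : Prop := C_Cop → C_RayF

/-- The points `h/(f 2^N) + u`, `u ∈ E[m]`, are not primary. -/
def C_NQ : Prop :=
  ∀ (k t : ℕ) [Ine k t] (f N : ℕ) (m b : Ideal (OO k t)), Hy f m → 1 ≤ N → b ≠ ⊥ → PrI b (2 * f) →
    ∀ Q : Ideal ZZ, Npr Q → ∀ h : OO k t, Cop h (2 * f) → ∀ u ∈ Lam (m * b),
      ¬ Qp Q b (toC h / (f * 2 ^ N : ℕ) + u) ∧ toC h / (f * 2 ^ N : ℕ) + u ∉ Lam b

/-- (120 lines) **NQ**. PROOF. `M = f 2^N`, `z = toC h / M + u`. The second claim follows from the first (`Qp` is clear for points of `Lam b`: `lam_mul`) (or directly). CASE `¬ MP Q 2`: `α = 2^N` (`toO α = 2^N` is not in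
`M_Q`: `MP.of_pow`). `S_O6` (5) for `N := 2`, `m`: `μ ∈ m`, `2 ∣ μ - 1`. `β = f μ`. `toC (α β) z = toC (μ h) + toC (f 2^N) (toC μ u) ∈ Lam b`
(`toC μ u ∈ Lam b`: `lam_prod`; `lam_top`, `lam_mono`, `lam_mul`). If `Qp Q b z` then `toC β z ∈ Lam b`, so `toC (μ h)/2^N ∈ Lam b`, `2^N ∣ μ h` (`S_L6` (1), `PrI b (2^N)`), so `2 ∣ μ h`, but `Cop (μ h) 2`
(C_Cop). CASE `MP Q 2`: `f` is odd, so `toO f ∉ M_Q` (`1 = f - 2 j`). `α = f`, `μ ∈ m` with `f ∣ μ - 1` (`S_O6` (5) for `N := f`), `β = 2^N μ`: `toC (α β) z ∈ Lam b`; if `Qp Q b z` then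
`toC (μ h)/f ∈ Lam b`, so `f ∣ μ h`, `f ∣ h` (C_Cop), but `Cop h f` and `f ≥ 3`. -/
def S_NQ : Prop := S_O6 → S_L6 → C_Cop → C_NQ

/-! ## 4. The units -/

/-- The units: first properties. -/
def C_UBa : Prop :=
  ∀ (k t : ℕ) [Ine k t] (f : ℕ) (m : Ideal (OO k t)) (N : ℕ) (T : Finset (OO k t)), Hy f m → 1 ≤ N →
    IsRep f N T → ∀ b : Ideal (OO k t), b ≠ ⊥ → PrI b (2 * f) →
      uN f N m T b ≠ 0 ∧ (∀ Q : Ideal ZZ, Npr Q → UP Q (uN f N m T b)) ∧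
      (∀ b' : Ideal (OO k t), Ray (f * 2 ^ N) b b' → uN f N m T b' = uN f N m T b) ∧
      (∀ v : OO k t, v ≠ 0 → Cop v (2 * f) →
        uN f N m T (sp v * b) = ∏ h ∈ T, Theta m b (toC (v * h) / (f * 2 ^ N : ℕ))) ∧
      (∀ a : Ideal (OO k t), HPN f N a → uN f N m T (a * b) = uN f N m T b) ∧
      ∀ T' : Finset (OO k t), IsRep f N T' → uN f N m T' b = uN f N m T b

/-- (150 lines) **UBa**. (`DK/G/UBa.lean`.) PROOF. `G15 b` from `PrI b (2 f)` (`15 ∣ f`, `S_O6`), `PrI m 15` from `PrI m f`. `G t = Theta m b (toC t / M)` is `M`-periodic and even (`S_D8` (2); `toC x ∈ Lam b` for `x ∈ O`). UNITS: `S_D5` at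
`z_h`, with C_NQ (`Cop h (2 f)`: `HN f N h`); `UP.prod`; nonzero: `S_D8` (last) (`z_h ∉ Lam (m b)`: otherwise take `u = -z_h` in C_NQ: `0 ∉ Lam b`). CLASS FUNCTION: C_RayF (`15 ∣ M`) for
`F b z = Theta m b z` (`S_D8` (3), (2)) for each `h`; `b' ≠ ⊥`, `PrI b' M` by `S_O7`. `sp v * b`: `S_D8` (3) (`Cop v 15`), `toC v * (toC h / M) = toC (v h)/M`. `HPN f N a`: `Ray (f 2^N) a (sp v)`, `HN f N v`,
`v ≠ 0`; so `Ray (f 2^N) (sp v * b) (a * b)` (`S_O7`), and `uN (a * b) = uN (sp v * b) = ∏ G (v h) = ∏ G h` by C_Rp (2) (`v'` an inverse of `v` modulo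
`f 2^N`, `HN f N v'`: C_Cop, C_HNf). `T'`: C_Rp (1), `isRep_iff`. -/
def S_UBa : Prop := S_O6 → S_O7 → S_D5 → S_D8 → C_Cop → C_HNf → C_Rp → C_RayF → C_NQ → C_UBa

/-- The units: Galois action. -/
def C_UBb : Prop :=
  ∀ (k t : ℕ) [Ine k t] (f : ℕ) (m : Ideal (OO k t)) (N : ℕ) (T : Finset (OO k t)), Hy f m → 1 ≤ N →
    IsRep f N T → ∀ b : Ideal (OO k t), b ≠ ⊥ → PrI b (2 * f) → uN f N m T b ∈ Mn k t f N ∧
      ∀ τ ∈ GK k t, ∀ a : Ideal (OO k t), Psi τ (f * 2 ^ N) a → τ (uN f N m T b) = uN f N m T (a * b)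

/-- (80 lines) **UBb**. (`DK/G/UBb.lean`.) PROOF. `M' = f 2^N NI m > 0` (`S_O2`), `15 ∣ M'`. Let `Psi τ (f 2^N) a`. `S_E1`: `Psi τ M' a'`, so `Psi τ (f 2^N) a'` and `Ray (f 2^N) a a'`. `S_E10` (last claim)
for `M'`, `z = toC h / (f 2^N)` (`M' z ∈ O ⊆ Lam b`): `τ (Theta m b z) = Theta m (a' * b) z`. Product over `h`: `τ (uN b) = uN (a' * b)`, and this is `uN (a * b)` by C_UBa
(class function; `Ray (f 2^N) (a * b) (a' * b)`; `a * b ≠ ⊥`, `PrI (a * b) (2 f)`: `Psi.ne`, `Psi.cop`, `N ≥ 1`, `S_O6`). `uN b ∈ Mn`: `τ ∈ GK`, `Psi τ (f 2^N) a`,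
`HPN f N a`: `τ (uN b) = uN (a * b) = uN b`. -/
def S_UBb : Prop := S_O2 → S_O6 → S_O7 → S_E1 → S_E10 → C_UBa → C_UBb

/-- The norm relation. -/
def C_Two : Prop :=
  ∀ (k t : ℕ) [Ine k t] (f : ℕ) (m : Ideal (OO k t)) (N : ℕ) (T : Finset (OO k t)), Hy f m → 2 ≤ N →
    IsRep f N T → ∀ b : Ideal (OO k t), b ≠ ⊥ → PrI b (2 * f) → ∀ T' : Finset (OO k t),
    IsRep f (N + 1) T' → ∀ s ∈ GK k t, ∀ a : Ideal (OO k t), Psi s (f * 2 ^ (N + 1)) a → HPN f N a →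
      ¬ HPN f (N + 1) a → uN f (N + 1) m T' b * s (uN f (N + 1) m T' b) = uN f N m T b

/-- (200 lines) **Two**. (`DK/G/Two.lean`.) PROOF. `M' = f 2^(N+1)`. `Ray (f 2^N) a (sp v)`, `HN f N v`. C_RUp with `f := f 2^N`, `n := 2` (`Psi.cop`,
`f 2^N * 2 = M'`): `β`, `f 2^N ∣ β - 1`, `Cop β M'`, `Ray M' a (sp β * sp v)`. `v' = β v`: `HN f N v'`, and not `HN f (N+1) v'` (otherwise `HPN f (N+1) a`).
`G t = Theta m b (toC t / M')` is `M'`-periodic and even (`S_D8`). `s (u_(N+1)(b)) = u_(N+1)(a * b) = u_(N+1)(sp v' * b) = ∏_(h ∈ T') G (v' h)` (C_UBb, C_UBa). So the left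
side is the product of `G` over the first system of C_TwR (for `a := v'`), by C_Rp (1) the product over the second one:
`∏_(h ∈ T) ∏_(e ∈ E) G (h + f 2^N e)`, and `toC (h + f 2^N e)/M' = z + toC e / 2`, `z = toC h / M'`. The set `{toC e / 2 | e ∈ E}` is `IsSys (sp 2) b`: there are
`x ∈ b`, `y ∈ O` with `x + 2 y = 1` (`PrI b 2`), so `l = toC x l + 2 toC y l` with `toC x l ∈ O` for `l ∈ Lam b`. `ex`: `2 z' ∈ Lam b` (`lam_sp`, `toC 2 = 2`),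
`2 z' = toC e' + 2 l'`, `e'` is congruent to some `e ∈ E` modulo `2`. `uni`: if `toC (e - e')/2 = l ∈ Lam b` then `x (e - e') = 2 (x l)` and
`e - e' = x (e - e') + 2 y (e - e')` is divisible by `2`, so `e = e'`. `S_D7` (2): the inner product is `s₀ Theta m b (2 z) = s₀ Theta m b (toC h / (f 2^N))`, `s₀ = ± 1`
independent of `h` (`2 z ∉ Lam (m * b)`: C_NQ with `u = -2 z`). So the left side is `s₀^(card T) u_N(b)` and `card T` is even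
(C_TEv). -/
def S_Two : Prop :=
  S_O6 → S_O7 → S_D7 → S_D8 → C_Cop → C_HNf → C_RUp → C_Rp → C_TEv → C_TwR → C_NQ → C_UBa → C_UBb → C_Two

/-- (30 lines) **G3**: `S_G3`, assembly. -/
def S_G3m : Prop := C_UBa → C_UBb → C_Two → S_G3

/-- The composition of the modules of this file. -/
theorem asmA (o2 : S_O2) (o4 : S_O4) (o6 : S_O6) (o7 : S_O7) (o9 : S_O9) (l6 : S_L6) (d5 : S_D5) (d7 : S_D7)
    (d8 : S_D8) (e1 : S_E1) (e6 : S_E6) (e8 : S_E8) (e10 : S_E10) (cop : S_Cop) (hnf : S_HNf)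
    (v0 : S_V0) (rp : S_Rp) (tev : S_TEv) (twr : S_TwR) (rup : S_RUp) (grm : S_GRm) (hpg : S_HPg)
    (gmm : S_GMm) (rayf : S_RayF) (nq : S_NQ) (uba : S_UBa) (ubb : S_UBb) (two : S_Two) (g3m : S_G3m) :
    S_GR ∧ S_GM ∧ S_G3 :=
  have Cop := cop o4
  have HNf := hnf Cop
  have RUp := rup o6 Cop
  have NQ := nq o6 l6 Cop
  have UBa := uba o6 o7 d5 d8 Cop HNf rp (rayf Cop) NQ
  have UBb := ubb o2 o6 o7 e1 e10 UBa
  ⟨grm o2 o6 o7 Cop HNf (v0 Cop), gmm o6 e1 e6 e8 (hpg o2 o6 o7 o9 Cop HNf RUp),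
    g3m UBa UBb (two o6 o7 d7 d8 Cop HNf RUp rp (tev Cop HNf) (twr Cop HNf) NQ UBa UBb)⟩

end Pool.Agent.DN.G
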