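import Pool.Agent.Lib.DN.B.All
import Pool.Agent.Lib.DN.CV.Rp
import Pool.Agent.Lib.DN.G.AllA
import Pool.Agent.Lib.DN.GL.SpecB
import Pool.Agent.Lib.DN.GL.SpecU
import Pool.Agent.Lib.DN.IfaceL

/-!
# Theorem DN, part G, second half (author helper21): from the local step to `S_LS` and `S_G`

Sections 8 and 9 of note 4240 (helper36) and the derivation of `S_G`. `n t`: the ring `O`; `k ∈ {1, 2}` the exponent of `c3`;
`M = f * 2 ^ N`; `gB f N m b v = (fr(b)/fr(1)) g_b(v/M)`; `β` runs through the elements `bp f p = 1 + f (x + y w)`, `p = (x, y) ∈ Bx N` (modulo `M`).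
`f' = f * NI m` (an odd multiple of `f`): the classes of inertia elements are taken for `f'`, so that `GL.C_Act` applies to `g`.

Tools. `GL/Va.lean`: `GE P q x` (`v(x) ≥ q` or `x = 0`), `vP P`, `GE.add`, `GE.sub`, `GE.neg`, `GE.mul`, `GE.mul_left`, `GE.mul_right`, `GE.sum`, `GE.mono`, `GE.mp`, `GE.vp_iff`, `GE.two_iff`, `vP_pow`, ...
(first argument `hP.2 : MP P 2`; `have := hP.1.1` for the instance `P.IsPrime`, `hP : Ab2 P`). `DI/Val.lean`: `VP.add`, `MP.of_pow`, `UP.mul`, ... `DN/Base.lean`: `toO_..`, `toC_..`, `lam_..`, `tor_..`, `cop_..`, `Nm_..`.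
`DN/CV/Bas.lean` (helper97): `CV_..` (`CV_fm`, `CV_fb`, `CV_NI_odd`, `CV_NI_sp`, `CV_tm`, `CV_zet_congr`, `CV_cop_of_dvd`, ...), `DN/CV/Rp.lean`: `RpI` (indexed systems of representatives), `RpI.sum`, `RpI.mul`, `RpI.ga`, `Rp_canc`.
COMPLETE, to be used directly: parts O, L (`aO1 .. aO12`, `aL1 .. aL7`), B (`aB1 .. aB16`), first half of G (`aCop`, `aHNf`, `aUn`, `aV0`, `aRUp`, `aRI`, `aR2`, `aRB`, `aRD`, `aNQ`, `aRayF`).

RULES: the statement `S_X` is to be proved as `theorem tX : S_X` in the module `Pool/Agent/Lib/DN/G/X.lean` with the first line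
`import Pool.Agent.Lib.DN.G.SpecB`, `set_option autoImplicit false`, `open scoped Pointwise`, `noncomputable section`, `namespace Pool.Agent.DN.G` and the `open`
lines of this file. Auxiliary declarations are `private`. All modules are independent.
-/

set_option autoImplicit false

open scoped Pointwise

noncomputable section

namespace Pool.Agent.DN.G

open Pool.Agent.MuZ Pool.Agent.FW Pool.Agent.DN
open Pool.Agent.DI (io ofC io_inj exists_io io_ofC ofC_io VP MP UP TP ex sqr sqr_sq kap)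
open Pool.Agent.DN.GL (vP GE Cls IsR Hq Pt EE OA od)

variable {n t : ℕ}

/-! ## Definitions -/

/-- The pairs `(x, y)` modulo `2 ^ N`. -/
def Bx (N : ℕ) : Finset (ℕ × ℕ) := Finset.range (2 ^ N) ×ˢ Finset.range (2 ^ N)

/-- `1 + f (x + y w)`. -/
def bp (f : ℕ) (p : ℕ × ℕ) : OO n t := bt n t f p.1 p.2

/-- The term `(fr(b)/fr(1)) g_b(v/(f 2^N))`. -/
def gB (f N : ℕ) (m b : Ideal (OO n t)) (v : OO n t) : Om :=
  rO (⊤ : Ideal (OO n t)) b * gO m b (toC v / (f * 2 ^ N : ℕ))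

open Classical in
/-- The sum over the classes `(b, β)`, `b ∈ R`, `β = 1 + f (x + y w)` modulo `f 2^N`, with `N(b) N(β) = ± a` modulo `2^N`. -/
def SI (f N : ℕ) (R : Finset (Ideal (OO n t))) (a : ℤ) (φ : Ideal (OO n t) → OO n t → Om) : Om :=
  ∑ b ∈ R, ∑ p ∈ Bx N, if Pm N (NI b * Nm (bp (n := n) (t := t) f p)) a then φ b (bp f p) else 0

/-- The number `U(a)`. -/
def UU (P : Ideal ZZ) (f N k : ℕ) (m : Ideal (OO n t)) (R : Finset (Ideal (OO n t)))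
    (χ : Ideal (OO n t) → Om) (a : ℤ) : Om :=
  c3 ^ k * SI f N R a (fun b v => χ b * (zt P v ^ k * gB f N m b v))

/-- The additive group of the `x` with `v(x) ≥ q`. -/
def GEs (P : Ideal ZZ) (hP : Ab2 P) (q : ℚ) : AddSubgroup Om where
  carrier := {x | GE P q x}
  zero_mem' := GL.GE.zero q
  add_mem' := by
    intro x y hx hy
    have := hP.1.1
    exact GL.GE.add hP.2 hx hy
  neg_mem' := by
    intro x hx
    have := hP.1.1
    exact GL.GE.neg hP.2 hx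

theorem GEs_eq {P : Ideal ZZ} (hP : Ab2 P) {q : ℚ} {x y : Om} :
    (QuotientAddGroup.mk x : Om ⧸ GEs P hP q) = QuotientAddGroup.mk y ↔ GE P q (x - y) := by
  have := hP.1.1
  rw [QuotientAddGroup.eq]
  change GE P q (-x + y) ↔ GE P q (x - y)
  have e1 : -x + y = -(x - y) := by ring
  rw [e1]
  constructor
  · intro h
    have h1 := GL.GE.neg hP.2 h
    rwa [neg_neg] at h1
  · intro h
    exact GL.GE.neg hP.2 h

theorem GEs_zero {P : Ideal ZZ} (hP : Ab2 P) {q : ℚ} {x : Om} :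
    (QuotientAddGroup.mk x : Om ⧸ GEs P hP q) = 0 ↔ GE P q x :=
  QuotientAddGroup.eq_zero_iff x

/-! ## 1. Representatives, characters, class functions -/

open Classical in
/-- The systems of representatives modulo `f 2^N`. -/
def C_Bt : Prop :=
  ∀ (n t : ℕ) [Ine n t] (f N : ℕ), Odd f →
    RpI (fun v : OO n t => (f : OO n t) ∣ v - 1) (f * 2 ^ N) (Bx N) (bp f) ∧
    (1 ≤ N →
      RpI (fun v : OO n t => (f : OO n t) ∣ v - 1 ∧ Cop v 2) (f * 2 ^ N)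
        ((Bx N).filter (fun p => Cop (bp (n := n) (t := t) f p) 2)) (bp f) ∧
      RpI (fun v : OO n t => (f : OO n t) ∣ v - 1 ∧ Cop v 2) (f * 2 ^ N)
        (tm n t f ×ˢ Bx (N - 1)) (fun p => p.1 * ⟨1 + 2 * f * p.2.1, 2 * f * p.2.2⟩))

/-- (90 lines) **Bt**. PROOF. First: `v = 1 + f γ`, `γ = ⟨x', y'⟩`; `p` = the residues of `x', y'` modulo `2^N` (`Int.emod`, `Int.toNat`); injectivity: `f 2^N ∣ f (x - x')` gives `2^N ∣ x - x'` (`nat_dvd_iff`), both `< 2^N`. Compare the proof of `RpI.ga`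
in `DN/CV/Rp.lean`. Second: from the first; `Cop` is invariant (`cop_congr`, `2 ∣ f 2^N`). Third: `RpI.ga` with `e = 2 f`, `q' = 2^(N-1)` (`2 f * 2^(N-1) = f * 2^N`), `S = tm n t f`, `α = id`, and `RpI .. (2 f) (tm n t f) id` from `CV_tm`, `CV_tm_uni`, `CV_tm_ex` (`2 ∣ v - α` and `f ∣ v - α`
give `2 f ∣ v - α`: `CV_cast_mul`); `ga (2 f) x y = ⟨1 + 2 f x, 2 f y⟩` (casts); `Cop α (f 2^N)`: `Cop α 2` and `f ∣ α - 1` (`CV_cop_of_dvd`). -/
def S_Bt : Prop := C_Bt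

/-- The character `χ`: integrality, inertia, types. -/
def C_ChT : Prop :=
  ∀ (n t : ℕ) [Ine n t] (P : Ideal ZZ), Ab2 P → ∀ (f : ℕ) (χ : Ideal (OO n t) → Om), Odd f → 15 ∣ f →
    IsChi (2 * f) χ →
    (∀ b : Ideal (OO n t), VP P (χ b) ∧ ∀ τ ∈ P.inertia Gal(Om/ℚ), τ (χ b) = χ b) ∧
    (∀ j : ℕ, Ty P f χ j → ∀ v : OO n t, (f : OO n t) ∣ v - 1 → Cop v 2 → χ (sp v) = zt P v ^ j) ∧
    (∀ h : OO n t, Hf f h → χ (sp h) = 1) ∧
    (∃ j : ℕ, j < 3 ∧ Ty P f χ j) ∧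
    IsChi (2 * f) (fun b => χ b ^ 2) ∧ (Ty P f χ 2 → Ty P f (fun b => χ b ^ 2) 1)

/-- (160 lines) **ChT** (from Lev, Unr, Zt). PROOF. LEMMA R: `ζ ^ M = 1`, `M` odd, `MP P (ζ - 1)` gives `ζ = 1`: `(ζ - 1) * ∑_(i<M) ζ^i = 0` and `∑ ζ^i - M ∈ P`, `M` is not in `P` (`CV_up_oddN`), so the sum is not `0`. (1) `χ b` is `0` or `χ b ^ m' = 1`, `m'` odd (`IsChi.zero`, `IsChi.odd`). `VP`: `DI.VP.of_pow` or `CV_up_of_pow`.
Inertia: `χ b ^ (15 m') = 1`, so `χ b ∈ EE n t (15 m')` (Lev (4)) and Unr (2) for `f := 15 m'`. (2) `x = χ (sp v)`, `y = zt P v ^ j`: `x ^ m' = 1`, `y ^ 3 = 1`, `MP P (x - y)` (`Ty`, Zt (2): `MP P (zt P v - toO v)`, powers), so `x y⁻¹` satisfies Lemma R with `M = 3 m'`. (3) `h ≠ 0` (`Cop h (2 f)`, `CV_ne_of_cop`); `2 f ∣ h^(2^j) - 1`: `Ray (2 f) (sp (h^(2^j))) ⊤`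
(`aO7` (8) with `e = 1`, `⊤ = sp 1`), so `χ (sp h)^(2^j) = χ ⊤ = 1` (`χ ⊤ = χ ⊤ ^ 2`, `χ ⊤ ≠ 0`), with `χ (sp h) ^ m' = 1`: `χ (sp h) = 1` (coprime exponents: `pow_gcd_eq_one`). (4) `v ↦ χ (sp v)` (`v = 1` modulo `f`, prime to `2`) depends only on `v` modulo `2` (`IsChi.ray`, `aO7` (8), `CV_cast_mul`), is multiplicative (`IsChi.mul`, `CV_sp_mul`), `1` at `v = 1`.
Let `v0 = ⟨1 - f, f⟩` (`= 1 + f (w - 1)`, in `tm`; `2 ∣ v0 - wI`), `ω = zt P v0`. `2 ∣ v0^3 - 1` (`aO4` (6)): `χ (sp v0)^3 = 1`. `¬ 2 ∣ v0 - 1`, so `ω ≠ 1` (otherwise `MP P (toO (v0 - 1))`, but `v0 - 1` is prime to `2`), `ω^3 = 1`, so `X^3 = 1` iff `X = 1, ω, ω²` (factor): `χ (sp v0) = ω^j`, `j < 3`. Every `v` is congruent modulo `2` to `1`, `v0` or `v0²` (`aO4` (8); `w² = w - n`, `n` odd, so `v0² ≡ 1 + w`), so `χ (sp v) = zt P v ^ j`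
(Zt (3), (4), (5)), `MP P (zt P v ^ j - toO v ^ j)` (Zt (2)). (5) the four fields of `IsChi`; with (2): `χ (sp v)^2 = zt P v ^ 4 = zt P v`. -/
def S_ChT : Prop := GL.C_Lev → GL.C_Unr → GL.C_Zt → C_ChT

/-- The terms `gB`: homogeneity, class function modulo `2^N`. -/
def C_Gb : Prop :=
  ∀ (n t : ℕ) [Ine n t] (P : Ideal ZZ), Ab2 P → ∀ (f N : ℕ) (m b : Ideal (OO n t)), FM f m → 1 ≤ N → FB f b →
    (∀ v : OO n t, Cop v (2 * f) → toC v / (f * 2 ^ N : ℕ) ∉ Lam (m * b) ∧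
      VP P (gO m b (toC v / (f * 2 ^ N : ℕ))) ∧ VP P (gB f N m b v)) ∧
    (∀ v u : OO n t, Cop v (2 * f) → ((f * 2 ^ N : ℕ) : OO n t) ∣ v - u →
      gO m b (toC v / (f * 2 ^ N : ℕ)) = gO m b (toC u / (f * 2 ^ N : ℕ)) ∧ gB f N m b v = gB f N m b u) ∧
    (∀ v u : OO n t, Cop v (2 * f) → Cop u (2 * f) →
      gB f N m (sp v * b) u = toO v * gB f N m b (v * u)) ∧
    (∀ v u : OO n t, Cop v 2 → (f : OO n t) ∣ v - 1 → Cop u (2 * f) →
      gO m (sp v * b) (toC u / (f * 2 ^ N : ℕ)) = gO m b (toC (v * u) / (f * 2 ^ N : ℕ))) ∧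
    ∀ b' : Ideal (OO n t), FB f b' → Ray (f * 2 ^ N) b b' → GE P N (gB f N m b 1 - gB f N m b' 1)

/-- (150 lines) **Gb** (from R1, D2, D9). PROOF. `z_v = toC v / M`, a torsion point (`tor_div` or similar), `CV_fm`, `CV_fb`. (1) `aNQ` (`Hy f m` from `FM`; `Npr P`): `z_v + u ∉ Lam b`, `¬ Qp P b (z_v + u)` for all `u ∈ Lam (m * b)`; `u = -z_v`: `z_v ∉ Lam (m * b)`. `VP P (gO ..)`: S_D9; `rO ⊤ b` is a unit: S_D2 (last) for `b := ⊤`, `a := b` (`b * ⊤ = b`).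
(2) `gO m b z = ofC (gC m b z)`, `gC m b z = (KC (m * b) z - NI m * KC b z) / fr b`, `z_v - z_u = toC c ∈ Lam ⊤ ⊆ Lam b ⊆ Lam (m * b)` (`lam_top`, `lam_mono`), periods `aB10` (2). (3) `z = z_u`, `z ∉ Lam (m * (sp v * b))` ((1) for the ideal `sp v * b`, which is `FB`), `z_(v u) = toC v * z ∉ Lam (m * b)` ((1)): by S_R1 `io (gO ..) = gC ..`, `io (rO ⊤ b) = fr b / fr ⊤`,
`fr b, fr (sp v * b), fr ⊤ ≠ 0` (`aB1` (6)). Homogeneity (`aB7` (1)): `KC (sp v * b) z = toC v * KC b (toC v * z)`, also for `m * b` (`m * (sp v * b) = sp v * (m * b)`). So both sides have the image `toC v * (KC (m * b) (toC v * z) - NI m * KC b (toC v * z)) / fr ⊤` (`io (toO v) = toC v`). (4) `fr (sp v * b) = toC v * fr b` (`aB7` (3): `3 ∣ v - 1`, `5 ∣ v - 1` as `15 ∣ f`),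
so `rO ⊤ (sp v * b) = toO v * rO ⊤ b`, cancel in (3) (`rO ⊤ b ≠ 0`: S_R1; `toO v ≠ 0`; `Cop v (2 f)`). (5) `sp α * b = sp α' * b'`, `M ∣ α - α'`, both prime to `M`. `β` with `M ∣ α β - 1` (`aCop` (5)); `a1 = α β`, `a2 = α' β`: `sp a1 * b = sp a2 * b'`, `M ∣ a1 - 1`, `M ∣ a2 - 1`. By (3), (2): `toO a1 * gB b 1 = gB (sp a1 * b) 1 = gB (sp a2 * b') 1 = toO a2 * gB b' 1`. So
`toO a1 * (gB b 1 - gB b' 1) = toO (a2 - a1) * gB b' 1`, `2^N ∣ a2 - a1` in `O` (`M ∣ ..`): `GE P N`; `toO a1` is a unit at `P` (`a1 - 1 ∈ 2 O`; `N ≥ 1`). -/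
def S_Gb : Prop := S_R1 → S_D2 → S_D9 → C_Gb

/-! ## 2. The sums -/

/-- **RS**. Reindexing: the classes modulo `f 2^N` with norm `± 1`. -/
def C_RS : Prop :=
  ∀ (n t : ℕ) [Ine n t] (P : Ideal ZZ), Ab2 P → ∀ (f N k : ℕ) (m : Ideal (OO n t))
    (R : Finset (Ideal (OO n t))) (χ : Ideal (OO n t) → Om) (T : Finset (OO n t))
    (D : Finset (Ideal (OO n t))), FM f m → FR f R → IsRC f R → IsChi (2 * f) χ →
    Ty P f χ (k - 1) → 1 ≤ N → IsRep f N T → IsDS f N D →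
    GE P N ((∑ c ∈ D, χ c * (rO (⊤ : Ideal (OO n t)) c *
        ∑ h ∈ T, toO h * gO m c (toC h / (f * 2 ^ N : ℕ)))) -
      SI f N R 1 (fun b v => χ b * (zt P v ^ (k - 1) * (toO v * gB f N m b v))))

/-- (130 lines) **RS** (from ChT, Gb). PROOF. `A = Om ⧸ GEs P hP N`, `F b' = mk (χ b' * gB f N m b' 1)` (`GEs_eq`). `F b = F b'` for `CN f N b`, `CN f N b'`, `Ray (f 2^N) b b'`: `χ b = χ b'` (`Ray (2 f)`: `aO7` (7), `2 f ∣ f 2^N`), Gb (5), `GE.mul_left`. FIRST SYSTEM: `aRB` with `I = (R ×ˢ Bx N).filter (fun p => Pm N (NI p.1 * Nm (bp f p.2)) 1)`, `B = I.image (fun p => sp (bt ..) * p.1)`;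
`∑_(b' ∈ B) F b' = ∑_(p ∈ I) F (sp β * b)` (`Finset.sum_image`), and `χ (sp β * b) * gB (sp β * b) 1 = χ b * (zt P β ^ (k-1) * (toO β * gB b β))` (`IsChi.mul`, ChT (2), Gb (3) with `u = 1`; `Pm` implies that `Nm β` is odd (`N ≥ 1`), so `Cop β 2` (`aCop` (3)) and `Cop β (2 f)`, `f ∣ β - 1`). This is `mk` of `SI ..` (`Finset.sum_filter`, `Finset.sum_product`). SECOND SYSTEM: `aRD` with
`B' = (D ×ˢ T).image (fun p => sp p.2 * p.1)`: `χ (sp h * c) * gB (sp h * c) 1 = χ c * (toO h * gB c h)` (`HN f N h`: `Hf f h`, ChT (3), `Cop h (2 f)`; Gb (3)). `aRI` (`M = f 2^N`, `C = CN f N`): the two sums of `F` are equal. `IsRI` etc. are in `DN/G/Spec.lean`. -/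
def S_RS : Prop := C_ChT → C_Gb → C_RS

open Classical in
/-- **Cos**. A sum over a union of cosets of the group `H'` vanishes if the sums over the cosets do. -/
def C_Cos : Prop :=
  ∀ (n t : ℕ) [Ine n t] (f f' N : ℕ), Odd f' → f ∣ f' → 2 ≤ N → ∀ T : Finset (OO n t), IsR N (Hq f' N) T →
    ∀ (A : Type) [AddCommGroup A] (a : OO n t → A) (C : OO n t → Prop), (∀ v, C v → Cop v 2) →
      (∀ v u : OO n t, C v → ((f * 2 ^ N : ℕ) : OO n t) ∣ v - u → C u) →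
      (∀ v h : OO n t, C v → Hq f' N h → C (h * v)) →
      (∀ v u : OO n t, C v → (f : OO n t) ∣ v - 1 → ((f * 2 ^ N : ℕ) : OO n t) ∣ v - u → a v = a u) →
      (∀ v : OO n t, C v → (f : OO n t) ∣ v - 1 → ∑ h ∈ T, a (h * v) = 0) →
      (∑ p ∈ Bx N, if C (bp f p) then a (bp f p) else 0) = 0

/-- (160 lines) **Cos** (from Bt). PROOF. Strong induction on the number of elements of `J = {p ∈ Bx N | C (bp p)}` (for all `C` with the first three properties; the other two are inherited by a smaller `C`). `J = ∅`: clear. Otherwise let `v0 = bp p0`, `p0 ∈ J`, and `E v :⇔ (f : O) ∣ v - 1 ∧ ∃ h, Hq f' N h ∧ f 2^N ∣ v - h * v0`. `Hq f' N` is closed under products, contains `1`, and every `h` with `Hq f' N h` has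
an inverse: `h''` with `Hq f' N h''`, `f' 2^N ∣ h h'' - 1` (`cop_inv` modulo `f' 2^N`; `f' ∣ h'' - 1`, `4 ∣ h'' - 1` as `N ≥ 2`, `Nm h'' = 1` modulo `2^N`: `Nm_mul`, `Nm_congr`). `E v` implies `C v`; `C' v :⇔ C v ∧ ¬ E v` (on elements `= 1` modulo `f`; in general `C' v :⇔ C v ∧ ¬ ∃ h, Hq f' N h ∧ f 2^N ∣ v - h * v0`) has the first three properties, and `p0` is not in its set `J'`.
The sum over `J` is the sum over `J'` (which is `0` by induction) plus the sum over `{p ∈ Bx N | E (bp p)}`. The latter is `∑ h ∈ T, a (h * v0) = 0` by `RpI.sum` (`DN/CV/Rp.lean`) for the property `Q = E` and the two systems `(Bx N).filter (E ∘ bp)`, `bp` (Bt) and `T`, `fun h => h * v0` (`mem`: `Hq f' N h`, `f ∣ h - 1`; `inj`: `f 2^N ∣ (h - h') v0`, so `2^N ∣ h - h'` (`Rp_canc`: `Cop v0 2`), `IsR.uni`; `ex`: `IsR.ex`: `2^N ∣ h - h1`, and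
`f ∣ h - h1`, so `f 2^N ∣ h - h1` (`CV_cast_mul`)). -/
def S_Cos : Prop := C_Bt → C_Cos

/-- **SU**. The comparison of `β` with `zt P β`. -/
def C_SU : Prop :=
  ∀ (n t : ℕ) [Ine n t] (P : Ideal ZZ), Ab2 P → ∀ (f N k : ℕ) (m : Ideal (OO n t))
    (R : Finset (Ideal (OO n t))) (χ : Ideal (OO n t) → Om), FM f m → FR f R → IsChi (2 * f) χ → 3 ≤ N →
    GE P (5 / 3 - 5 / 2 ^ N)
      (SI f N R 1 (fun b v => χ b * (zt P v ^ (k - 1) * ((toO v - zt P v) * gB f N m b v))))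

/-- (150 lines) **SU** (from Lev, Act, Rep, Sur, Tra, Zt, T0, Pnt, ChT, Gb, Cos). PROOF. `q = 5/3 - 5/2^N`, `0 ≤ q ≤ 2 ≤ N`. `GE.sum` over `b ∈ R`: fix `b` (`FB f b`). `f' = f * NI m` is odd (`CV_fm`). `T` with `IsR N (Hq f' N) T` (Rep (1)). Cos with `A = Om ⧸ GEs P hP q`, `C v :⇔ Pm N (NI b * Nm v) 1` (so `Nm v` is odd; invariant by `Nm_congr`, `Hq`: `2^N ∣ Nm h - 1`),
`a v = mk (χ b * (zt P v ^ (k-1) * ((toO v - zt P v) * gB f N m b v)))`. PERIODICITY (`f 2^N ∣ v - u`): `zt P v = zt P u` (Zt (3)), `gB` (Gb (2)), and `toO v - toO u = toO (v - u)` is `2^N` times an integral element: the difference is in `GE P N`. COSETS: fix `v`, `f ∣ v - 1`, `C v`, so `Cop v (2 f)`. `h ∈ T`: `zt P (h * v) = zt P v` (`2 ∣ h v - v`), `toO (h v) - zt P (h v) = (toO v - zt P v) + toO (h - 1) * toO v`, `4 ∣ h - 1`: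
the second summand gives a term in `GE P 2`. The first gives `χ b * zt P v ^ (k-1) * (toO v - zt P v) * rO ⊤ b * ∑_(h ∈ T) gO m b (toC (h * v) / M)`. `s h` an inertia element with `Cls P f' N h (s h)` (Sur for `f'`; `Cop h 2`), `x = gO m b (toC v / M)`: `s h x = gO m b (toC h * (toC v / M))` (Act for `f'`, `NI m ∣ f'`; `(f' 2^N) z = toC (NI m * v) ∈ Lam b`, `z ∉ Lam (m b)`: Gb (1)), `x ∈ EE n t (f' 2^N)` (Lev (5)), `VP P x` (Gb (1)). Tra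
(with `z0, d` from Pnt): `GE P (2/3 - 5/2^N) (∑ s h x)`; `GE P 1 (toO v - zt P v)` (S_T0: `TP P 2`, `GE.two_iff`); `GE.mul`: `GE P q`. (`χ b`, `zt`, `rO ⊤ b` are integral: ChT, Zt, S_D2 or: `rO ⊤ b * x = gB` is integral only as a product, so use S_D2 (last) for `rO ⊤ b`.) -/
def S_SU : Prop :=
  S_D2 → GL.C_Lev → GL.C_Act → GL.C_Rep → GL.C_Sur → GL.C_Tra → GL.C_Zt → S_T0 → GL.C_Pnt → C_ChT → C_Gb →
    C_Cos → C_SU

/-- **U1**. The valuation of `U(1)`. -/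
def C_U1 : Prop :=
  ∀ (n t : ℕ) [Ine n t] (P : Ideal ZZ), Ab2 P → ∀ (f N k : ℕ) (m : Ideal (OO n t))
    (R : Finset (Ideal (OO n t))) (χ : Ideal (OO n t) → Om) (T : Finset (OO n t))
    (D : Finset (Ideal (OO n t))), FM f m → FR f R → IsRC f R → IsChi (2 * f) χ → (k = 1 ∨ k = 2) →
    Ty P f χ (k - 1) → 3 ≤ N → IsRep f N T → IsDS f N D →
    (∀ d : Gal(Om/ℚ), IsD n t f P d → MP P (∑ c ∈ D, χ c * ((kap (uN f N m T c) d).val : Om))) →
    GE P (2 - 5 / 2 ^ N) (UU P f N k m R χ 1)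

/-- (60 lines) **U1** (from LSS, Zt, RS, SU). PROOF. `SI f N R 1` is additive in `φ` (`Finset.sum_sub_distrib`, `ite`): with `zt^(k-1) * (toO v * g) - zt^(k-1) * ((toO v - zt) * g) = zt^k * g` (`k ≥ 1`) `UU P f N k m R χ 1 = c3^k * (A - B)`, `A` the sum of RS, `B` the sum of SU. LSS and RS: `GE P (5/3 - 5/2^N) A` (`3/2^N ≤ 5/2^N`, `5/3 ≤ N`); SU: the same for `B`. `GE P (1/3) (c3^k)`:
`vP P c3 = 1/3` (Zt), `vP P (c3^k) = k/3`. -/
def S_U1 : Prop := GL.C_LSS → GL.C_Zt → C_RS → C_SU → C_U1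

/-- **UAct**. The action of inertia on the numbers `U(a)`. -/
def C_UAct : Prop :=
  ∀ (n t : ℕ) [Ine n t] (P : Ideal ZZ), Ab2 P → ∀ (f N k : ℕ) (m : Ideal (OO n t))
    (R : Finset (Ideal (OO n t))) (χ : Ideal (OO n t) → Om), FM f m → FR f R → IsChi (2 * f) χ → 1 ≤ N →
    (∀ a a' : ℤ, Pm N a a' → UU P f N k m R χ a = UU P f N k m R χ a') ∧
    ∀ (a : ℤ) (h : OO n t) (τ : Gal(Om/ℚ)), Odd a → Cls P (f * NI m) N h τ →
      τ (UU P f N k m R χ a) = UU P f N k m R χ (Nm h * a)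

/-- (130 lines) **UAct** (from Act, Zt, Tc, ChT, Gb, Bt). PROOF. (1) `Pm N x a ↔ Pm N x a'` if `Pm N a a'`. (2) `f' = f * NI m`, odd, `15 ∣ f'`. Let `b ∈ R`, `v = bp f p`, `Pm N (NI b * Nm v) a`: `Nm v` is odd (`a` odd, `N ≥ 1`), `Cop v (2 f)` (`f ∣ v - 1`). `τ (c3 ^ k) = zt P h ^ k * c3 ^ k` (Tc; `1 ≤ N`), `τ (χ b) = χ b` (ChT (1); `τ` is in the inertia group: `Cls.ine`), `τ (zt P v) = zt P v`
(Zt (2): `OA n t P (zt P v)` gives an odd level; Unr (2)), `τ (rO ⊤ b) = rO ⊤ b`, `τ (gO m b (toC v / M)) = gO m b (toC (h * v) / M)` (Act for `f'`: `NI m ∣ f'`, `(f' 2^N) z = toC (NI m * v) ∈ Lam b`, `z ∉ Lam (m * b)`: Gb (1)), `zt P h ^ k * zt P v ^ k = zt P (h * v) ^ k` (Zt (4)). So `τ (UU a) = c3 ^ k * ∑_b ∑_p F_b (h * bp f p)`,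
`F_b u = if Pm N (NI b * Nm u) (Nm h * a) then χ b * (zt P u ^ k * gB f N m b u) else 0`, because `Pm N (NI b * Nm v) a ↔ Pm N (NI b * Nm (h * v)) (Nm h * a)` (`Nm h` is odd, so invertible modulo `2^N`). `F_b` is periodic modulo `f 2^N` on the elements `= 1` modulo `f` (Gb (2), Zt (3), `Nm_congr`). `RpI.mul` (with an inverse of `h` modulo `f 2^N`, which is `= 1` modulo `f`) and `RpI.sum` for the first system of Bt:
`∑_p F_b (h * bp f p) = ∑_p F_b (bp f p)`. -/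
def S_UAct : Prop := GL.C_Unr → GL.C_Act → GL.C_Zt → GL.C_Tc → C_ChT → C_Gb → C_Bt → C_UAct

/-- **Fou**. The formula for `xs`. -/
def C_Fou : Prop :=
  ∀ (n t : ℕ) [Ine n t] (P : Ideal ZZ), Ab2 P → ∀ (f N k : ℕ) (m : Ideal (OO n t))
    (R : Finset (Ideal (OO n t))) (χ : Ideal (OO n t) → Om), FM f m → FR f R → 3 ≤ N → ∀ c : ℤ,
      xs P f k m R χ (c / 2 ^ (N - 2)) = (2 ^ N)⁻¹ * ∑ a ∈ od N,
        (zet (2 ^ (N - 1)) ^ (c * NI m * a : ℤ) + zet (2 ^ (N - 1)) ^ (-(c * NI m * a) : ℤ)) *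
          UU P f N k m R χ a

/-- (170 lines) **Fou** (from C4, Zt, Gb, Bt). PROOF. `q = 2^(N-1)`, `ζ = zet q` (`ζ^q = 1`: `CV_zet_pow`, `CV_zet_congr`), `M = f 2^N = 2 f q`, `ν = NI m` (odd). (1) Let `b ∈ R`, `c' : ℤ`, `α ∈ tm n t f` (`CV_tm`; `FB f (sp α * b)`; `PrI (sp α * b) q`, `q` a power of `2`: `CV_pri_pow`; `q.Coprime ν`). S_C4 for `sp α * b` and `(c' / q : ℚ) = (c' / 2^(N-2)) / 2`, `NI (sp α * b) = Nm α * NI b` (`CV_NI_sp`), Gb (4) (`u = ⟨1 + 2 f x, 2 f y⟩` is `1` modulo `2 f`):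
`etaM (2 f) m (sp α * b) (c'/q) = (1/q) ∑_(x, y < q) ζ^(c' (ν NI b Nm (α u))) * gO m b (toC (α u) / M)`. `zt P α = zt P (α u)` (Zt (3)). So by Bt (second and third system, `RpI.sum`; the summand `Φ_c' v = zt P v ^ k * (ζ^(c' (ν NI b Nm v)) * gO m b (toC v / M))` is periodic modulo `M` on the `v` prime to `2 f`: Zt (3), Gb (2), `Nm_congr`): `etE P f k m b (c'/2^(N-2)) = (1/q) ∑_(p ∈ Bx N, Cop (bp f p) 2) Φ_c' (bp f p)`.
(2) With `c' = c` and `c' = -c` (`-(c/2^(N-2)) = (-c)/2^(N-2)`), `2 q = 2^N`: `xs = (2^N)⁻¹ c3^k ∑_b χ b rO ⊤ b ∑_(p, Cop) zt^k (ζ^(c ν s) + ζ^(-(c ν s))) gO m b (..)`, `s = NI b * Nm (bp f p)`, an odd integer (`NI b` odd). (3) For every odd integer `s` there is exactly one `a ∈ od N` with `Pm N s a` (`a < 2^(N-1)` odd; `s mod 2^N` or `2^N - s mod 2^N`), and then `ζ^(c ν s) + ζ^(-(c ν s)) = ζ^(c ν a) + ζ^(-(c ν a))` (`2^(N-1) ∣ s ∓ a`); if `Pm N s a`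
with `a` odd then `s` is odd. So insert `1 = ∑_(a ∈ od N) [Pm N s a]` and exchange the sums: the right side by the definition of `UU`, `SI`, `gB`. -/
def S_Fou : Prop := S_C4 → GL.C_Zt → C_Gb → C_Bt → C_Fou

/-! ## 3. The end of the local step -/

/-- (200 lines) **LSm**: `S_LS` (from In, Act, Sur, TrZ, U1, UAct, Fou). PROOF. Let `c : ℤ`, `j`. `ν = NI m`. `η = zet (2^(j+1)) ^ (c * ν)`, `κ = η + η⁻¹ - 2 = (η - 1)^2 / η`. Let `N ≥ j + 2`, `N ≥ 3`, `c' = c * 2^(N-2-j)`: `c / 2^j = c' / 2^(N-2)`, and `zet (2^(N-1)) ^ (2^(N-2-j)) = zet (2^(j+1))` (`zet n = ofC (ex (1/n))`; prove `zet (n * l) ^ l = zet n` by `io`), so with `κ_a = zet (2^(N-1))^(c' ν a) + zet (2^(N-1))^(-(c' ν a)) - 2`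
we have `κ_a = η^a + η^(-a) - 2` and by Fou (for `c'` and for `0`; `(0 : ℤ) / 2^(N-2) = 0`) `xs (c/2^j) - xs 0 = (2^N)⁻¹ * ∑_(a ∈ od N) κ_a * UU a`. CASE `η = 1`: all `κ_a = 0`, the difference is `0`. CASE `η ≠ 1`: `κ ≠ 0`, `MP P κ` (`η^(2^(j+1)) = 1`, so `MP P (η - 1)`: `(η - 1)^(2^i) ≡ η^(2^i) - 1` modulo `2`, or `Zn`-like: `GL.C_Zn`; or `MP.of_pow` after `x^(2^i) - 1 ∈ P → x - 1 ∈ P` by induction with
`x² - 1 = (x - 1)² + 2 (x - 1)`), so `0 < v = vP P κ`. Take `N` from the hypothesis with `N ≥ N0`, `N0 ≥ max 3 (j + 2)`, `5/2^N0 < v`, and its `T`, `D`: U1: `GE P (2 - 5/2^N) (UU 1)`. `z = κ * UU 1 / 4`: `GE P (v - 5/2^N) z`, so `MP P z`. `ζ = zet (2^N)`, a primitive root of order `2^N` (`Pool.Agent.DI.tA2`), `η` is a power of `ζ` (an integer power). `f' = f * NI m`. For `a ∈ od N` let `h_a` be from `aV0` (for `f'`, `N`, `a`): `2 f' ∣ h_a - 1`,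
`2^N ∣ Nm h_a - a`, and `s a` an inertia element with `Cls P f' N h_a (s a)` (Sur). `s a ζ = ζ^(Nm h_a).toNat = ζ^a` (Act for any `b`, e.g. `⊤`; `Nm h_a ≥ 0`), so `s a κ = κ_a`, and `s a (UU 1) = UU (Nm h_a) = UU a` (UAct (2), (1)): `s a z = κ_a * UU a / 4`. INVARIANCE: let `τ` be inertia, `τ ζ = ζ` or `ζ⁻¹`. `Cls P f' N h τ` (In (1)); `ζ^(Nm h).toNat = ζ^(± 1)`: `2^N ∣ Nm h ∓ 1`, `Pm N (Nm h * 1) 1`:
`τ (UU 1) = UU 1`; `τ κ = κ` (`η ↦ η^(± 1)`); so `τ z = z`. TrZ: `GE P (N - 1) (∑_(a ∈ od N) s a z)`. The difference is `(2^N)⁻¹ * 4 * ∑ s a z`: `GE P 1` (`vP P (2^N) = N`), so `MP P`. -/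
def S_LSm : Prop :=
  GL.C_In → GL.C_Act → GL.C_Sur → GL.C_TrZ → C_U1 → C_UAct → C_Fou → S_LS

/-! ## 4. The non-vanishing -/

/-- **G1**. The function `xs` is not constant modulo `P` on `ℤ[1/2]`. -/
def C_G1 : Prop :=
  ∀ (n t : ℕ) [Ine n t] (f k : ℕ) (m : Ideal (OO n t)) (R : Finset (Ideal (OO n t)))
    (χ : Ideal (OO n t) → Om) (P : Ideal ZZ), FM f m → m ≠ ⊤ → FR f R → IsRC f R → IsChi (2 * f) χ → Ab2 P →
    (k = 1 ∨ k = 2) → Ty P f χ (k - 1) →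
      ∃ (c : ℤ) (j : ℕ), ¬ MP P (xs P f k m R χ (c / 2 ^ j) - xs P f k m R χ 0)

/-- (140 lines) **G1** (from Lw, V, Vq, F). Compare `DK/G/G1b.lean` (`import Pool.Agent.Lib.DI.F.VPB`: the residue field `DI.F.RF hP h0` of `V_P` and the map `DI.F.red hP h0 : Om → RF`, `red_add`, `red_mul`, `red_one`, ... for elements with `VP P`; `red x = red y` iff `MP P (x - y)`). PROOF. S_Lw: `M` with `IsLw f m R M` (so `M` is odd, `3 ≤ M`).
Suppose `MP P (xs (c/2^j) - xs 0)` for all `c, j`. `h r = if r.den.Coprime M then red (xs r) else 0`, `ch d = red (χ (sp (d' : O)))`, `d' = if Odd d then d else d + M` (odd, `M ∣ d' - d`). S_V: `VP P (xs r)`, `VP P (χ (sp d'))` (`UP`) and the transformation; apply `red`: the hypothesis of S_Vq for `h`, `ch` (the denominators: S_V gives them for `(a r + b)/(c r + d)`, also for `r = 0`: `b/d`; `(0 : ℚ).den = 1`).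
Constancy: `(c/2^j : ℚ).den ∣ 2^j` is prime to `M`. S_Vq: `h (b/d) = h 0` for all `G0 M a b c d`, `M ∣ d - 1`, i.e. `MP P (xs (b/d) - xs 0)`. This contradicts S_F. -/
def S_G1 : Prop := S_Lw → S_V → S_Vq → S_F → C_G1

/-- (120 lines) **GFin**: `S_G` (from LS, G1, ChT). PROOF. `R` from `aR2` (first item) for `f`, `n := 2`: `IsRC f R`, `PrI b (2 * f)` for `b ∈ R`, so `FR f R`. `FM f m`. CLAIM: for every `χ` with `IsChi (2 f) χ` of type `0` or `1` there is `N0` such that for all `N ≥ N0`, `T`, `D` there is `d` with `IsD n t f P d` and `¬ MP P (∑_(c ∈ D) χ c * kap ..)`: otherwise the hypothesis of S_LS holds (`push_neg`), with `k = 1` or `k = 2`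
(`Ty P f χ (k - 1)`), so `MP P (xs (c/2^j) - xs 0)` for all `c, j`, which contradicts G1. S_G for `χ`: ChT (4): the type `j`. `j = 0, 1`: the claim for `χ`. `j = 2`: the claim for `χ²` (ChT (5), (6)); if `MP P (∑ χ c * κ_c)`, `κ_c = (kap ..).val ∈ {0, 1}`, then its square is in `P` and is congruent modulo `2` to `∑ χ c ^ 2 * κ_c` (`κ_c² = κ_c`; `(∑ x)² - ∑ x²` is `2` times an integral element: induction over `D` or
`Finset.sum_mul_sum` ... ; `VP P (χ c)`: ChT (1)), so `MP P (∑ χ c ^ 2 * κ_c)`: contradiction for the same `d`. `N0 := max N0 3`. -/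
def S_GFin : Prop := S_LS → C_G1 → C_ChT → S_G

/-! ## The composition -/

/-- The modules of this file: `S_LS`. -/
theorem asmB (r1 : S_R1) (d2 : S_D2) (d9 : S_D9) (c4 : S_C4) (o : GL.GLOut) (g : GL.GTOut) (u : GL.GUOut)
    (pnt : GL.C_Pnt) (lss : GL.C_LSS) (bt : S_Bt) (cht : S_ChT) (gb : S_Gb) (rs : S_RS) (cos : S_Cos)
    (su : S_SU) (u1 : S_U1) (uact : S_UAct) (fou : S_Fou) (lsm : S_LSm) : S_LS :=
  have ChT := cht o.Lev o.Unr g.Zt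
  have Gb := gb r1 d2 d9
  have Cos := cos bt
  have SU := su d2 o.Lev o.Act o.Rep o.Sur o.Tra g.Zt u.T0 pnt ChT Gb Cos
  have U1 := u1 lss g.Zt (rs ChT Gb) SU
  lsm o.In o.Act o.Sur u.TrZ U1 (uact o.Unr o.Act g.Zt g.Tc ChT Gb bt) (fou c4 g.Zt Gb bt)

/-- `S_G`. -/
theorem asmG (o : GL.GLOut) (g : GL.GTOut) (ls : S_LS) (lw : S_Lw) (v : S_V) (vq : S_Vq) (f : S_F)
    (cht : S_ChT) (g1 : S_G1) (gfin : S_GFin) : S_G :=
  gfin ls (g1 lw v vq f) (cht o.Lev o.Unr g.Zt)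

end Pool.Agent.DN.G
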